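import Mathlib

/-!
# Block GP: good generalised points (project TR, MP_078326_gt; plan and paper proof of helper33)

`x y : I → ℂ` and `z w : J → ℂ` injective, `F` a countable family of functions on `J` which contains `z` and `w`. Either there is a
generalised point of `F` over `z = x s` with `w ≠ y s` or over `w = y s` with `z ≠ x s` (for some `s`), or `z, w` (on an uncountable
set) and `x, y` (off a countable set) satisfy the same relation `w A(z) = B(z)` with polynomials of degree at most one.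

(i) If there is no good point then `z - x s` is a unit in the algebra generated by `F` and `1/(w - y s)`, so
`(w - y s)^N = (z - x s) g s`; as the algebra has countable dimension, `z` and `w` are algebraically dependent. (ii) Take a relation
`P(z, w) = 0` (on an uncountable set) of minimal degree in `w`; then `y s` is a simple root of `P(x s, Y)` and
`w - y s = (z - x s) h s`, and a second linear dependence gives `w A(z) = B(z)`. (iii) All roots of `B - y s A` are equal to `x s`
for all but countably many `s`, so the degree is at most one.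
-/

set_option autoImplicit false

open Polynomial
open scoped Polynomial.Bivariate

namespace Pool.Agent.Helper99.TR3

/-- generalised points of the family `F` on `J'` -/
def Pt {J ι : Type*} (F : ι → J → ℂ) (J' : Set J) (om : ι → ℂ) : Prop :=
  ∀ G : MvPolynomial ι ℂ, (∀ t ∈ J', MvPolynomial.eval (fun i => F i t) G = 0) → MvPolynomial.eval om G = 0

section null

variable {ι : Type} [Countable ι]

private theorem countable_of_li99 (I : Ideal (MvPolynomial ι ℂ)) {κ : Type} {v : κ → MvPolynomial ι ℂ ⧸ I}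
    (h : LinearIndependent ℂ v) : Countable κ := by
  have h1 := h.cardinal_lift_le_rank
  have h2 : Module.rank ℂ (MvPolynomial ι ℂ ⧸ I) ≤ Module.rank ℂ (MvPolynomial ι ℂ) :=
    LinearMap.rank_le_of_surjective (Ideal.Quotient.mkₐ ℂ I).toLinearMap (Ideal.Quotient.mkₐ_surjective ℂ I)
  have h3 : Module.rank ℂ (MvPolynomial ι ℂ) ≤ Cardinal.aleph0 := by
    rw [MvPolynomial.rank_eq_lift]
    simp
  rw [Cardinal.lift_id, Cardinal.lift_id] at h1
  exact Cardinal.mk_le_aleph0_iff.1 (h1.trans (h2.trans h3))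

private theorem countable_of_li99' {κ : Type} {v : κ → MvPolynomial ι ℂ}
    (h : LinearIndependent ℂ v) : Countable κ := by
  have h1 := h.cardinal_lift_le_rank
  have h3 : Module.rank ℂ (MvPolynomial ι ℂ) ≤ Cardinal.aleph0 := by
    rw [MvPolynomial.rank_eq_lift]
    simp
  rw [Cardinal.lift_id, Cardinal.lift_id] at h1
  exact Cardinal.mk_le_aleph0_iff.1 (h1.trans h3)

private theorem residue99 (m : Ideal (MvPolynomial ι ℂ)) [hm : m.IsMaximal] (x : MvPolynomial ι ℂ ⧸ m) :
    ∃ c : ℂ, algebraMap ℂ (MvPolynomial ι ℂ ⧸ m) c = x := by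
  let _ : Field (MvPolynomial ι ℂ ⧸ m) := Ideal.Quotient.field m
  by_cases hx : Transcendental ℂ x
  · exfalso
    have h1 := hx.linearIndependent_sub_inv
    have h2 := countable_of_li99 m h1
    exact not_countable_complex (Set.countable_univ_iff.2 h2)
  · have h1 : IsAlgebraic ℂ x := by
      rw [Transcendental, not_not] at hx
      exact hx
    have h2 : IsIntegral ℂ x := h1.isIntegral
    have h3 := IsAlgClosed.degree_eq_one_of_irreducible ℂ (minpoly.irreducible h2)
    exact minpoly.mem_range_of_degree_eq_one ℂ x h3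

/-- the countable Nullstellensatz -/
theorem null {J : Type*} (F : ι → J → ℂ) (J' : Set J) (a : Ideal (MvPolynomial ι ℂ)) :
    (∃ om, Pt F J' om ∧ ∀ G ∈ a, MvPolynomial.eval om G = 0) ∨
      ∃ G ∈ a, ∀ t ∈ J', MvPolynomial.eval (fun i => F i t) G = 1 := by
  obtain ⟨V, hV⟩ : ∃ V : Ideal (MvPolynomial ι ℂ), ∀ G, G ∈ V ↔ ∀ t ∈ J', MvPolynomial.eval (fun i => F i t) G = 0 := by
    refine ⟨⨅ t ∈ J', RingHom.ker (MvPolynomial.eval fun i => F i t), fun G => ?_⟩
    simp only [Ideal.mem_iInf, RingHom.mem_ker]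
  by_cases h : V ⊔ a = ⊤
  · right
    have h2 : (1 : MvPolynomial ι ℂ) ∈ V ⊔ a := by
      rw [h]
      exact Submodule.mem_top
    obtain ⟨f, hf, g, hg, hfg⟩ := Submodule.mem_sup.1 h2
    refine ⟨g, hg, fun t ht => ?_⟩
    have h3 := congrArg (MvPolynomial.eval fun i => F i t) hfg
    rwa [map_add, (hV f).1 hf t ht, zero_add, map_one] at h3
  · left
    obtain ⟨m, hm, hle⟩ := Ideal.exists_le_maximal _ h
    have := hm
    choose z hz using fun n : ι => residue99 m (Ideal.Quotient.mk m (MvPolynomial.X n))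
    have key : ∀ G : MvPolynomial ι ℂ, algebraMap ℂ (MvPolynomial ι ℂ ⧸ m) (MvPolynomial.eval z G) =
        Ideal.Quotient.mk m G := by
      intro G
      induction G using MvPolynomial.induction_on with
      | C c =>
        rw [MvPolynomial.eval_C]
        rfl
      | add p q hp hq => rw [map_add, map_add, map_add, hp, hq]
      | mul_X p n hp => rw [map_mul, map_mul, map_mul, hp, MvPolynomial.eval_X, hz]
    have hinj : Function.Injective (algebraMap ℂ (MvPolynomial ι ℂ ⧸ m)) := by
      have : Nontrivial (MvPolynomial ι ℂ ⧸ m) := Ideal.Quotient.nontrivial_iff.2 hm.ne_top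
      exact (algebraMap ℂ (MvPolynomial ι ℂ ⧸ m)).injective
    refine ⟨z, ?_, ?_⟩
    · intro G hG
      have h1 : G ∈ m := hle (Ideal.mem_sup_left ((hV G).2 hG))
      exact hinj (by rw [key, Ideal.Quotient.eq_zero_iff_mem.2 h1, map_zero])
    · intro G hG
      have h1 : G ∈ m := hle (Ideal.mem_sup_right hG)
      exact hinj (by rw [key, Ideal.Quotient.eq_zero_iff_mem.2 h1, map_zero])

/-- the product over `S` without the element `i` -/
private noncomputable def er99 {T R : Type*} [CommRing R] (S : Finset T) (i : T) (f : T → R) : R :=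
  open Classical in ∏ j ∈ S.erase i, f j

private theorem er_map99 {T R R' : Type*} [CommRing R] [CommRing R'] (φ : R →+* R') (S : Finset T) (i : T) (f : T → R) :
    φ (er99 S i f) = er99 S i fun j => φ (f j) := by
  unfold er99
  rw [map_prod]

private theorem er_mul99 {T R : Type*} [CommRing R] {S : Finset T} {i : T} (hi : i ∈ S) (f : T → R) :
    f i * er99 S i f = ∏ j ∈ S, f j := by
  classical
  unfold er99
  exact Finset.mul_prod_erase S _ hi

private theorem er_zero99 {T R : Type*} [CommRing R] {S : Finset T} {i j : T} (hj : j ∈ S) (hij : j ≠ i) (f : T → R)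
    (h : f j = 0) : er99 S i f = 0 := by
  classical
  unfold er99
  exact Finset.prod_eq_zero (Finset.mem_erase.2 ⟨hij, hj⟩) h

private theorem er_ne99 {T : Type*} (S : Finset T) (x : T → ℂ) (hx : Function.Injective x) (i : T) :
    er99 S i (fun j => x i - x j) ≠ 0 := by
  classical
  unfold er99
  rw [Finset.prod_ne_zero_iff]
  intro j hj h
  have h1 := hx (sub_eq_zero.1 h)
  exact (Finset.mem_erase.1 hj).1 h1.symm

/-- linear dependence of an uncountable family, cleared of the denominators `z - x s` -/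
private theorem dep_poly99 {J T : Type} [Uncountable T] (F : ι → J → ℂ) (J' : Set J) (x : T → ℂ)
    (z : J → ℂ) (u : T → J → ℂ) (h : T → MvPolynomial ι ℂ)
    (hu : ∀ s, ∀ t ∈ J', u s t = (z t - x s) * MvPolynomial.eval (fun i => F i t) (h s)) :
    ∃ (S : Finset T) (c : T → ℂ), (∃ i ∈ S, c i ≠ 0) ∧
      ∀ t ∈ J', ∑ i ∈ S, c i * u i t * er99 S i (fun j => z t - x j) = 0 := by
  have h1 : ¬ LinearIndependent ℂ h := fun h2 => (not_countable_iff.2 ‹Uncountable T›) (countable_of_li99' h2)
  rw [not_linearIndependent_iff] at h1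
  obtain ⟨S, c, hc, hc0⟩ := h1
  refine ⟨S, c, hc0, fun t ht => ?_⟩
  have h3 : ∑ i ∈ S, c i * MvPolynomial.eval (fun i => F i t) (h i) = 0 := by
    have h4 := congrArg (MvPolynomial.eval fun i => F i t) hc
    rw [map_sum, map_zero] at h4
    rw [← h4]
    refine Finset.sum_congr rfl fun i _ => ?_
    rw [MvPolynomial.smul_eval]
  have h5 : ∑ i ∈ S, c i * u i t * er99 S i (fun j => z t - x j) =
      (∏ j ∈ S, (z t - x j)) * ∑ i ∈ S, c i * MvPolynomial.eval (fun i => F i t) (h i) := by
    rw [Finset.mul_sum]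
    refine Finset.sum_congr rfl fun i hi => ?_
    rw [hu i t ht, ← er_mul99 hi (fun j => z t - x j)]
    ring
  rw [h5, h3, mul_zero]

/-- a Lagrange combination -/
private noncomputable def lag99 {T : Type} (S : Finset T) (x : T → ℂ) (c : T → ℂ) : ℂ[X] :=
  ∑ i ∈ S, C (c i) * er99 S i (fun j => X - C (x j))

private theorem lag_eval99 {T : Type} (S : Finset T) (x : T → ℂ) (c : T → ℂ) (z : ℂ) :
    (lag99 S x c).eval z = ∑ i ∈ S, c i * er99 S i (fun j => z - x j) := by
  unfold lag99
  rw [eval_finsetSum]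
  refine Finset.sum_congr rfl fun i _ => ?_
  rw [eval_mul, eval_C, ← coe_evalRingHom, er_map99]
  simp only [coe_evalRingHom, eval_sub, eval_X, eval_C]

private theorem lag_node99 {T : Type} (S : Finset T) (x : T → ℂ) (c : T → ℂ) {i : T} (hi : i ∈ S) :
    (lag99 S x c).eval (x i) = c i * er99 S i (fun j => x i - x j) := by
  rw [lag_eval99, Finset.sum_eq_single_of_mem i hi]
  intro k _ hk
  rw [er_zero99 hi hk.symm _ (sub_self _), mul_zero]

private theorem lag_ne99 {T : Type} (S : Finset T) (x : T → ℂ) (hx : Function.Injective x) (c : T → ℂ) {i : T}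
    (hi : i ∈ S) (hc : c i ≠ 0) : lag99 S x c ≠ 0 := by
  intro h
  have h1 := lag_node99 S x c hi
  rw [h, eval_zero] at h1
  exact mul_ne_zero hc (er_ne99 S x hx i) h1.symm

private theorem infinite_image99 {J : Type*} {J' : Set J} (hJ' : ¬ J'.Countable) {z : J → ℂ} (hz : Function.Injective z) :
    (z '' J').Infinite := fun h3 => hJ' ((Set.Finite.of_finite_image h3 hz.injOn).countable)

/-- a polynomial relation in one variable -/
private theorem poly_zero99 {J : Type*} {J' : Set J} (hJ' : ¬ J'.Countable) {z : J → ℂ} (hz : Function.Injective z)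
    (p : ℂ[X]) (h : ∀ t ∈ J', p.eval (z t) = 0) : p = 0 := by
  apply Polynomial.eq_zero_of_infinite_isRoot
  refine (infinite_image99 hJ' hz).mono ?_
  rintro _ ⟨t, ht, rfl⟩
  exact h t ht

/-- for all but countably many complex numbers `c` there is a generalised point with `z = c` -/
theorem ev_pts {J : Type} (F : ι → J → ℂ) {J' : Set J} (hJ' : ¬ J'.Countable) (i0 : ι)
    (hz : Function.Injective (F i0)) :
    {c : ℂ | ¬ ∃ om, Pt F J' om ∧ om i0 = c}.Countable := by
  by_contra hS
  have hT : Uncountable {c : ℂ // ¬ ∃ om, Pt F J' om ∧ om i0 = c} := by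
    rw [← not_countable_iff]
    exact fun h => hS (Set.countable_coe_iff.1 h)
  have h1 : ∀ c : {c : ℂ // ¬ ∃ om, Pt F J' om ∧ om i0 = c}, ∃ g : MvPolynomial ι ℂ, ∀ t ∈ J',
      (1 : ℂ) = (F i0 t - c) * MvPolynomial.eval (fun i => F i t) g := by
    rintro ⟨c, hc⟩
    rcases null F J' (Ideal.span {MvPolynomial.X i0 - MvPolynomial.C c}) with ⟨om, h2, h3⟩ | ⟨G, hG, h2⟩
    · refine absurd ⟨om, h2, ?_⟩ hc
      have h4 := h3 _ (Ideal.subset_span rfl)
      rw [map_sub, MvPolynomial.eval_X, MvPolynomial.eval_C] at h4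
      exact sub_eq_zero.1 h4
    · obtain ⟨g, hg⟩ := Ideal.mem_span_singleton'.1 hG
      refine ⟨g, fun t ht => ?_⟩
      rw [← h2 t ht, ← hg, map_mul, map_sub, MvPolynomial.eval_X, MvPolynomial.eval_C]
      ring
  choose g hg using h1
  obtain ⟨S, c, ⟨i, hi, hci⟩, h2⟩ := dep_poly99 F J' Subtype.val (F i0) (fun _ _ => 1) g hg
  refine lag_ne99 S Subtype.val Subtype.val_injective c hi hci (poly_zero99 hJ' hz _ fun t ht => ?_)
  rw [lag_eval99, ← h2 t ht]
  refine Finset.sum_congr rfl fun i _ => ?_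
  rw [mul_one]

end null

/-- the family with one more function -/
def ext {J ι : Type*} (h : J → ℂ) (F : ι → J → ℂ) : Option ι → J → ℂ := fun o t => o.elim (h t) fun i => F i t

private theorem ext_none99 {J ι : Type*} (h : J → ℂ) (F : ι → J → ℂ) (t : J) : ext h F none t = h t := rfl

private theorem ext_some99 {J ι : Type*} (h : J → ℂ) (F : ι → J → ℂ) (i : ι) (t : J) : ext h F (some i) t = F i t := rfl

private theorem Pt_some99 {J ι : Type*} {h : J → ℂ} {F : ι → J → ℂ} {J' : Set J} {om : Option ι → ℂ}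
    (H : Pt (ext h F) J' om) : Pt F J' fun i => om (some i) := by
  intro G hG
  have h1 := H (MvPolynomial.rename some G) (by
    intro t ht
    rw [MvPolynomial.eval_rename]
    exact hG t ht)
  rwa [MvPolynomial.eval_rename] at h1

/-- clearing denominators -/
private theorem clear99 {J ι : Type*} (F : ι → J → ℂ) (d : MvPolynomial ι ℂ) (G : MvPolynomial (Option ι) ℂ) :
    ∃ (N : ℕ) (g : MvPolynomial ι ℂ), ∀ t, MvPolynomial.eval (fun i => F i t) d ≠ 0 →
      MvPolynomial.eval (fun i => F i t) d ^ N *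
        MvPolynomial.eval (fun o => ext (fun t => (MvPolynomial.eval (fun i => F i t) d)⁻¹) F o t) G =
          MvPolynomial.eval (fun i => F i t) g := by
  induction G using MvPolynomial.induction_on with
  | C c =>
    refine ⟨0, MvPolynomial.C c, fun t _ => ?_⟩
    rw [MvPolynomial.eval_C, MvPolynomial.eval_C, pow_zero, one_mul]
  | add p q hp hq =>
    obtain ⟨N, g, hg⟩ := hp
    obtain ⟨M, g', hg'⟩ := hq
    refine ⟨N + M, d ^ M * g + d ^ N * g', fun t ht => ?_⟩
    rw [map_add, map_add, map_mul, map_mul, map_pow, map_pow, ← hg t ht, ← hg' t ht, pow_add]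
    ring
  | mul_X p o hp =>
    obtain ⟨N, g, hg⟩ := hp
    rcases o with _ | i
    · refine ⟨N + 1, g, fun t ht => ?_⟩
      rw [map_mul, MvPolynomial.eval_X, ext_none99, ← hg t ht, pow_succ]
      field_simp
    · refine ⟨N, g * MvPolynomial.X i, fun t ht => ?_⟩
      rw [map_mul, MvPolynomial.eval_X, ext_some99, map_mul, MvPolynomial.eval_X, ← hg t ht, mul_assoc]

/-- a bivariate polynomial in two of the variables -/
private noncomputable def mv99 {ι : Type*} (i0 i1 : ι) (P : ℂ[X][Y]) : MvPolynomial ι ℂ :=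
  eval₂ (Polynomial.aeval (MvPolynomial.X i0)).toRingHom (MvPolynomial.X i1) P

private theorem mv_eval99 {ι : Type*} (i0 i1 : ι) (P : ℂ[X][Y]) (v : ι → ℂ) :
    MvPolynomial.eval v (mv99 i0 i1 P) = P.evalEval (v i0) (v i1) := by
  rw [mv99, Polynomial.hom_eval₂, MvPolynomial.eval_X, ← eval₂_evalRingHom]
  congr 1
  apply Polynomial.ringHom_ext
  · intro a
    simp
  · simp

private noncomputable def mv1_99 {ι : Type*} (i0 : ι) (P : ℂ[X]) : MvPolynomial ι ℂ :=
  Polynomial.aeval (MvPolynomial.X i0) P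

private theorem mv1_eval99 {ι : Type*} (i0 : ι) (P : ℂ[X]) (v : ι → ℂ) :
    MvPolynomial.eval v (mv1_99 i0 P) = P.eval (v i0) := by
  rw [mv1_99, Polynomial.aeval_def, Polynomial.hom_eval₂, MvPolynomial.eval_X, ← Polynomial.eval₂_id]
  congr 1
  ext a
  simp

private theorem unc99 {J : Type*} [Uncountable J] {s : Set J} (h : s.Countable) : ¬ (sᶜ : Set J).Countable := by
  intro h1
  have h2 : (Set.univ : Set J).Countable := by
    rw [← Set.union_compl_self s]
    exact h.union h1
  exact (not_countable_iff.2 ‹Uncountable J›) (Set.countable_univ_iff.1 h2)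

private theorem unc_diff99 {J : Type*} {s t : Set J} (hs : ¬ s.Countable) (h : t.Countable) : ¬ (s \ t).Countable := by
  intro h1
  exact hs ((h1.union h).mono fun x hx => by
    by_cases hxt : x ∈ t
    · exact Or.inr hxt
    · exact Or.inl ⟨hx, hxt⟩)

private theorem unc_sub99 {J : Type*} {s : Set J} (h : ¬ s.Countable) : Uncountable s := by
  rw [← not_countable_iff]
  exact fun h1 => h (Set.countable_coe_iff.1 h1)

section main

variable {I J ι : Type} [Uncountable I] [Uncountable J] [Countable ι] {x y : I → ℂ} {F : ι → J → ℂ} {i0 i1 : ι}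

/-- (i): algebraic dependence -/
private theorem partI99 (hx : Function.Injective x) (hw : Function.Injective (F i1))
    (H : ∀ J' : Set J, ¬ J'.Countable → ∀ (s : I) (om : ι → ℂ), Pt F J' om → om i0 = x s → om i1 = y s) :
    ∃ P : ℂ[X][Y], P ≠ 0 ∧ ∀ t, P.evalEval (F i0 t) (F i1 t) = 0 := by
  have h1 : ∀ s : I, ∃ (N : ℕ) (g : MvPolynomial ι ℂ), ∀ t, (F i1 t - y s) ^ N =
      (F i0 t - x s) * MvPolynomial.eval (fun i => F i t) g := by
    intro s
    set d : MvPolynomial ι ℂ := MvPolynomial.X i1 - MvPolynomial.C (y s) with hd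
    have hde : ∀ t, MvPolynomial.eval (fun i => F i t) d = F i1 t - y s := fun t => by
      rw [hd, map_sub, MvPolynomial.eval_X, MvPolynomial.eval_C]
    have hJs : ¬ ({t | F i1 t = y s}ᶜ : Set J).Countable := by
      apply unc99
      apply Set.Subsingleton.countable
      intro t ht t' ht'
      exact hw (ht.trans ht'.symm)
    rcases null (ext (fun t => (MvPolynomial.eval (fun i => F i t) d)⁻¹) F) ({t | F i1 t = y s}ᶜ : Set J)
      (Ideal.span {MvPolynomial.X (some i0) - MvPolynomial.C (x s)}) with ⟨om, h2, h3⟩ | ⟨G, hG, h2⟩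
    · exfalso
      have h4 := h3 _ (Ideal.subset_span rfl)
      rw [map_sub, MvPolynomial.eval_X, MvPolynomial.eval_C] at h4
      have h5 := H _ hJs s _ (Pt_some99 h2) (sub_eq_zero.1 h4)
      have h6 := h2 ((MvPolynomial.X (some i1) - MvPolynomial.C (y s)) * MvPolynomial.X none - MvPolynomial.C 1) (by
        intro t ht
        rw [map_sub, map_mul, map_sub, MvPolynomial.eval_X, MvPolynomial.eval_C, MvPolynomial.eval_X,
          MvPolynomial.eval_C, ext_none99, ext_some99, hde]
        have h7 : F i1 t - y s ≠ 0 := fun h => ht (sub_eq_zero.1 h)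
        rw [mul_inv_cancel₀ h7, sub_self])
      rw [map_sub, map_mul, map_sub, MvPolynomial.eval_X, MvPolynomial.eval_C, MvPolynomial.eval_X,
        MvPolynomial.eval_C, h5, sub_self, zero_mul, zero_sub, neg_eq_zero] at h6
      exact one_ne_zero h6
    · obtain ⟨g, hg⟩ := Ideal.mem_span_singleton'.1 hG
      obtain ⟨N, g', hg'⟩ := clear99 F d g
      refine ⟨N + 1, g' * d, fun t => ?_⟩
      rw [map_mul, hde]
      by_cases ht : F i1 t = y s
      · rw [ht, sub_self, mul_zero, mul_zero, zero_pow (Nat.succ_ne_zero N)]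
      · have h7 : F i1 t - y s ≠ 0 := fun h => ht (sub_eq_zero.1 h)
        have h8 := hg' t (by rw [hde]; exact h7)
        rw [hde] at h8
        have h9 := h2 t ht
        rw [← hg, map_mul, map_sub, MvPolynomial.eval_X, MvPolynomial.eval_C, ext_some99] at h9
        rw [← h8, pow_succ]
        linear_combination (-(F i1 t - y s) ^ N * (F i1 t - y s)) * h9
  choose N g hg using h1
  obtain ⟨n, hn⟩ : ∃ n, ¬ {s | N s = n}.Countable := by
    by_contra hcon
    push Not at hcon
    have h2 : (Set.univ : Set I).Countable := by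
      have h3 : (Set.univ : Set I) = ⋃ n, {s | N s = n} := by
        ext s
        simp
      rw [h3]
      exact Set.countable_iUnion hcon
    exact (not_countable_iff.2 ‹Uncountable I›) (Set.countable_univ_iff.1 h2)
  have := unc_sub99 hn
  obtain ⟨S, c, ⟨i, hi, hci⟩, h2⟩ := dep_poly99 (T := {s | N s = n}) F Set.univ (fun s => x s.1) (F i0)
    (fun s t => (F i1 t - y s.1) ^ n) (fun s => g s.1) (by
      rintro ⟨s, hs⟩ t _
      have h3 := hg s t
      rw [show N s = n from hs] at h3
      exact h3)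
  have hxT : Function.Injective fun s : {s | N s = n} => x s.1 := fun a b hab => Subtype.ext (hx hab)
  refine ⟨∑ i ∈ S, C (C (c i) * er99 S i (fun j => X - C (x j.1))) * (X - C (C (y i.1))) ^ n, ?_, ?_⟩
  · intro h3
    have h4 := congrArg (fun P : ℂ[X][Y] => P.map (evalRingHom (x i.1))) h3
    simp only [Polynomial.map_zero, Polynomial.map_sum, Polynomial.map_mul, Polynomial.map_pow, Polynomial.map_sub,
      Polynomial.map_X, Polynomial.map_C, coe_evalRingHom, eval_mul, eval_C] at h4
    rw [Finset.sum_eq_single_of_mem i hi] at h4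
    · have h5 : eval (x i.1) (er99 S i fun j => X - C (x j.1)) ≠ 0 := by
        rw [← coe_evalRingHom, er_map99]
        simp only [coe_evalRingHom, eval_sub, eval_X, eval_C]
        exact er_ne99 S (fun s => x s.1) hxT i
      exact (mul_ne_zero (C_ne_zero.2 (mul_ne_zero hci h5)) (pow_ne_zero n (X_sub_C_ne_zero _))) h4
    · intro k _ hk
      have h5 : eval (x i.1) (er99 S k fun j => X - C (x j.1)) = 0 := by
        rw [← coe_evalRingHom, er_map99]
        apply er_zero99 hi hk.symm
        simp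
      rw [h5, mul_zero, C_0, zero_mul]
  · intro t
    rw [evalEval_finsetSum, ← h2 t (Set.mem_univ t)]
    refine Finset.sum_congr rfl fun i _ => ?_
    rw [evalEval_mul, evalEval_C, evalEval_pow, evalEval_sub, evalEval_X, evalEval_CC, eval_mul, eval_C, ← coe_evalRingHom,
      er_map99]
    simp only [coe_evalRingHom, eval_sub, eval_X, eval_C]
    ring

/-- (ii): a relation which is linear in `w` -/
private theorem partII99 (hx : Function.Injective x) (hz : Function.Injective (F i0)) (hw : Function.Injective (F i1))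
    (H : ∀ J' : Set J, ¬ J'.Countable → ∀ (s : I) (om : ι → ℂ), Pt F J' om → om i0 = x s → om i1 = y s) :
    ∃ (A B : ℂ[X]) (J' : Set J), A ≠ 0 ∧ ¬ J'.Countable ∧ ∀ t ∈ J', F i1 t * A.eval (F i0 t) = B.eval (F i0 t) := by
  classical
  have h1 : ∃ n, ∃ P : ℂ[X][Y], P ≠ 0 ∧ P.natDegree = n ∧ ¬ {t | P.evalEval (F i0 t) (F i1 t) = 0}.Countable := by
    obtain ⟨P, hP, hP'⟩ := partI99 hx hw H
    refine ⟨P.natDegree, P, hP, rfl, ?_⟩
    have h2 : {t | P.evalEval (F i0 t) (F i1 t) = 0} = (∅ᶜ : Set J) := by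
      ext t
      simp [hP' t]
    rw [h2]
    exact unc99 Set.countable_empty
  obtain ⟨P, hP, hPn, hJ1⟩ := Nat.find_spec h1
  have hmin : ∀ Q : ℂ[X][Y], Q ≠ 0 → Q.natDegree < P.natDegree → {t | Q.evalEval (F i0 t) (F i1 t) = 0}.Countable := by
    intro Q hQ hQn
    by_contra hcon
    rw [hPn] at hQn
    exact Nat.find_min h1 hQn ⟨Q, hQ, rfl, hcon⟩
  have hn0 : P.natDegree ≠ 0 := by
    intro h0
    rw [natDegree_eq_zero] at h0
    obtain ⟨p, hp⟩ := h0
    have h2 : p = 0 := poly_zero99 hJ1 hz p fun t ht => by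
      have h3 : P.evalEval (F i0 t) (F i1 t) = 0 := ht
      rwa [← hp, evalEval_C] at h3
    rw [← hp, h2, C_0] at hP
    exact hP rfl
  set P' := derivative P with hP'
  have hP'0 : P' ≠ 0 := by
    intro h
    exact hn0 (derivative_eq_zero.1 h)
  have hcount := hmin P' hP'0 (natDegree_derivative_lt hn0)
  set J2 : Set J := {t | P.evalEval (F i0 t) (F i1 t) = 0} \ {t | P'.evalEval (F i0 t) (F i1 t) = 0} with hJ2
  have hJ2c : ¬ J2.Countable := unc_diff99 hJ1 hcount
  set F' := ext (fun t => (P'.evalEval (F i0 t) (F i1 t))⁻¹) F with hF'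
  have hS := ev_pts F' hJ2c (some i0) hz
  set S0 := {c : ℂ | ¬ ∃ om, Pt F' J2 om ∧ om (some i0) = c} with hS0
  have hI1 : (x ⁻¹' S0).Countable := hS.preimage_of_injOn hx.injOn
  have hI1' := unc_sub99 (unc99 hI1)
  have key : ∀ s : ((x ⁻¹' S0)ᶜ : Set I), ∃ h : MvPolynomial (Option ι) ℂ, ∀ t ∈ J2,
      F i1 t - y s.1 = (F i0 t - x s.1) * MvPolynomial.eval (fun i => F' i t) h := by
    rintro ⟨s, hs⟩
    -- a point over `x s`
    have hs' : ∃ om, Pt F' J2 om ∧ om (some i0) = x s := by
      by_contra hcon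
      exact hs hcon
    obtain ⟨om, hom, hom0⟩ := hs'
    have hom1 : om (some i1) = y s := H J2 hJ2c s _ (Pt_some99 hom) hom0
    have e1 : P.evalEval (x s) (y s) = 0 := by
      have h2 := hom (mv99 (some i0) (some i1) P) (by
        intro t ht
        rw [mv_eval99]
        exact ht.1)
      rwa [mv_eval99, hom0, hom1] at h2
    have e2 : P'.evalEval (x s) (y s) ≠ 0 := by
      intro h0
      have h2 := hom (mv99 (some i0) (some i1) P' * MvPolynomial.X none - MvPolynomial.C 1) (by
        intro t ht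
        rw [map_sub, map_mul, mv_eval99, MvPolynomial.eval_X, MvPolynomial.eval_C, hF', ext_none99, ext_some99, ext_some99,
          mul_inv_cancel₀ (show P'.evalEval (F i0 t) (F i1 t) ≠ 0 from ht.2), sub_self])
      rw [map_sub, map_mul, mv_eval99, hom0, hom1, h0, zero_mul, zero_sub, MvPolynomial.eval_C, neg_eq_zero] at h2
      exact one_ne_zero h2
    set p := P.map (evalRingHom (x s)) with hp
    have hp1 : p.IsRoot (y s) := by
      rw [IsRoot.def, hp, map_evalRingHom_eval]
      exact e1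
    have hp2 : (derivative p).eval (y s) ≠ 0 := by
      rw [hp, derivative_map, map_evalRingHom_eval]
      exact e2
    obtain ⟨q, hq⟩ := dvd_iff_isRoot.2 hp1
    have hq1 : q.eval (y s) ≠ 0 := by
      rw [hq, derivative_mul, eval_add, eval_mul, eval_mul] at hp2
      simpa using hp2
    obtain ⟨R, hR⟩ : ∃ R : ℂ[X][Y], P - p.map C = C (X - C (x s)) * R := by
      have h2 : C (X - C (x s)) ∣ P - p.map C := by
        rw [C_dvd_iff_dvd_coeff]
        intro k
        rw [coeff_sub, coeff_map, hp, coeff_map, dvd_iff_isRoot, IsRoot.def, eval_sub, eval_C, coe_evalRingHom, sub_self]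
      exact h2
    have hR' : ∀ t ∈ J2, p.eval (F i1 t) = -((F i0 t - x s) * R.evalEval (F i0 t) (F i1 t)) := by
      intro t ht
      have h2 := congrArg (fun P : ℂ[X][Y] => P.evalEval (F i0 t) (F i1 t)) hR
      simp only [evalEval_sub, evalEval_mul, evalEval_C, evalEval_map_C, eval_sub, eval_X, eval_C] at h2
      have h3 : P.evalEval (F i0 t) (F i1 t) = 0 := ht.1
      linear_combination h3 - h2
    rcases null F' J2 (Ideal.span {MvPolynomial.X (some i0) - MvPolynomial.C (x s), mv1_99 (some i1) q}) with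
      ⟨om', h2, h3⟩ | ⟨G, hG, h2⟩
    · exfalso
      have h4 := h3 _ (Ideal.subset_span (Set.mem_insert _ _))
      rw [map_sub, MvPolynomial.eval_X, MvPolynomial.eval_C] at h4
      have h5 := H J2 hJ2c s _ (Pt_some99 h2) (sub_eq_zero.1 h4)
      have h6 := h3 _ (Ideal.subset_span (Set.mem_insert_of_mem _ rfl))
      rw [mv1_eval99, h5] at h6
      exact hq1 h6
    · obtain ⟨u, v, huv⟩ := Ideal.mem_span_pair.1 hG
      refine ⟨(MvPolynomial.X (some i1) - MvPolynomial.C (y s)) * u - v * mv99 (some i0) (some i1) R, fun t ht => ?_⟩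
      have h4 := h2 t ht
      rw [← huv, map_add, map_mul, map_mul, map_sub, MvPolynomial.eval_X, MvPolynomial.eval_C, mv1_eval99] at h4
      have h5 := hR' t ht
      rw [hq, eval_mul, eval_sub, eval_X, eval_C] at h5
      rw [map_sub, map_mul, map_mul, map_sub, MvPolynomial.eval_X, MvPolynomial.eval_C, mv_eval99]
      have e3 : F' (some i0) t = F i0 t := rfl
      have e4 : F' (some i1) t = F i1 t := rfl
      rw [e3, e4] at h4
      rw [e3, e4]
      linear_combination (-(F i1 t - y s)) * h4 + MvPolynomial.eval (fun i => F' i t) v * h5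
  choose h hh using key
  obtain ⟨S, c, ⟨i, hi, hci⟩, h2⟩ := dep_poly99 (T := ((x ⁻¹' S0)ᶜ : Set I)) F' J2 (fun s => x s.1) (F i0)
    (fun s t => F i1 t - y s.1) h hh
  have hxT : Function.Injective fun s : ((x ⁻¹' S0)ᶜ : Set I) => x s.1 := fun a b hab => Subtype.ext (hx hab)
  refine ⟨lag99 S (fun s => x s.1) c, lag99 S (fun s => x s.1) fun s => c s * y s.1, J2,
    lag_ne99 S _ hxT c hi hci, hJ2c, fun t ht => ?_⟩
  rw [lag_eval99, lag_eval99, Finset.mul_sum, ← sub_eq_zero, ← Finset.sum_sub_distrib, ← h2 t ht]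
  refine Finset.sum_congr rfl fun i _ => ?_
  ring

private theorem coprime99 (A B : ℂ[X]) (hA : A ≠ 0) :
    ∃ g A' B' : ℂ[X], g ≠ 0 ∧ A = A' * g ∧ B = B' * g ∧ IsCoprime A' B' := by
  obtain ⟨g, hg⟩ := (IsPrincipalIdealRing.principal (Ideal.span {A, B} : Ideal ℂ[X])).principal
  have h1 : A ∈ Ideal.span {g} := by
    rw [Ideal.span, ← hg]
    exact Ideal.subset_span (Set.mem_insert _ _)
  have h2 : B ∈ Ideal.span {g} := by
    rw [Ideal.span, ← hg]
    exact Ideal.subset_span (Set.mem_insert_of_mem _ rfl)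
  have h3 : g ∈ (Ideal.span {A, B} : Ideal ℂ[X]) := by
    rw [hg]
    exact Submodule.mem_span_singleton_self g
  obtain ⟨a, ha⟩ := Ideal.mem_span_singleton'.1 h1
  obtain ⟨b, hb⟩ := Ideal.mem_span_singleton'.1 h2
  obtain ⟨u, v, huv⟩ := Ideal.mem_span_pair.1 h3
  have hg0 : g ≠ 0 := by
    intro h
    rw [h, mul_zero] at ha
    exact hA ha.symm
  refine ⟨g, a, b, hg0, ha.symm, hb.symm, u, v, ?_⟩
  have h4 : g * (u * a + v * b - 1) = 0 := by
    rw [← ha, ← hb] at huv
    linear_combination huv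
  exact sub_eq_zero.1 ((mul_eq_zero.1 h4).resolve_left hg0)

/-- a polynomial of degree at least two with only one root has a double root -/
private theorem double99 (p : ℂ[X]) (r : ℂ) (hp : 2 ≤ p.natDegree) (h : ∀ z, p.eval z = 0 → z = r) :
    (derivative p).eval r = 0 := by
  have hp0 : p ≠ 0 := by
    intro h0
    rw [h0, natDegree_zero] at hp
    omega
  obtain ⟨z, hz⟩ := Complex.exists_root (f := p) (natDegree_pos_iff_degree_pos.1 (by omega))
  have hzr := h z hz
  rw [hzr] at hz
  obtain ⟨q, hq⟩ := dvd_iff_isRoot.2 hz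
  have hqd : 1 ≤ q.natDegree := by
    have h1 := hp
    rw [hq, natDegree_mul (X_sub_C_ne_zero r) (by rintro rfl; rw [mul_zero] at hq; exact hp0 hq), natDegree_X_sub_C] at h1
    omega
  obtain ⟨z', hz'⟩ := Complex.exists_root (f := q) (natDegree_pos_iff_degree_pos.1 (by omega))
  have h2 : z' = r := h z' (by rw [hq, eval_mul, hz'.eq_zero, mul_zero])
  rw [h2] at hz'
  rw [hq, derivative_mul, eval_add, eval_mul, eval_mul, hz'.eq_zero]
  simp

/-- (iii) -/
private theorem partIII99 (hx : Function.Injective x) (hy : Function.Injective y) (hz : Function.Injective (F i0))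
    (hw : Function.Injective (F i1))
    (H : ∀ J' : Set J, ¬ J'.Countable → ∀ (s : I) (om : ι → ℂ), Pt F J' om → om i0 = x s → om i1 = y s)
    (H' : ∀ J' : Set J, ¬ J'.Countable → ∀ (s : I) (om : ι → ℂ), Pt F J' om → om i1 = y s → om i0 = x s) :
    ∃ A B : ℂ[X], A.natDegree ≤ 1 ∧ B.natDegree ≤ 1 ∧ A ≠ 0 ∧
      (∃ J' : Set J, ¬ J'.Countable ∧ ∀ t ∈ J', F i1 t * A.eval (F i0 t) = B.eval (F i0 t)) ∧
      ∃ I' : Set I, I'.Countable ∧ ∀ s, s ∉ I' → y s * A.eval (x s) = B.eval (x s) := by
  obtain ⟨A0, B0, J2, hA0, hJ2, hAB0⟩ := partII99 hx hz hw H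
  obtain ⟨g, A, B, hg, rfl, rfl, hcop⟩ := coprime99 A0 B0 hA0
  have hA : A ≠ 0 := left_ne_zero_of_mul hA0
  set J3 : Set J := J2 \ {t | g.eval (F i0 t) = 0} with hJ3
  have hJ3c : ¬ J3.Countable := by
    apply unc_diff99 hJ2
    by_contra hcon
    exact hg (poly_zero99 hcon hz g fun t ht => ht)
  have hAB : ∀ t ∈ J3, F i1 t * A.eval (F i0 t) = B.eval (F i0 t) := by
    intro t ht
    have h1 := hAB0 t ht.1
    rw [eval_mul, eval_mul, ← mul_assoc] at h1
    exact mul_right_cancel₀ (show g.eval (F i0 t) ≠ 0 from ht.2) h1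
  have hS := ev_pts F hJ3c i0 hz
  set S0 := {c : ℂ | ¬ ∃ om, Pt F J3 om ∧ om i0 = c} with hS0
  obtain ⟨I3, hI3⟩ : ∃ I3 : Set I, I3 = y ⁻¹' ((fun c => B.eval c / A.eval c) '' S0) := ⟨_, rfl⟩
  have hI3c : I3.Countable := by
    rw [hI3]
    exact (hS.image _).preimage_of_injOn hy.injOn
  -- the roots of `B - y s A`
  have hroot : ∀ s, s ∉ I3 → ∀ z, (B - C (y s) * A).eval z = 0 → z = x s := by
    intro s hs z hzr
    rw [eval_sub, eval_mul, eval_C, sub_eq_zero] at hzr
    have hAz : A.eval z ≠ 0 := by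
      intro h0
      rw [h0, mul_zero] at hzr
      obtain ⟨u, v, huv⟩ := hcop
      have h1 := congrArg (eval z) huv
      rw [eval_add, eval_mul, eval_mul, h0, hzr, mul_zero, mul_zero, add_zero, eval_one] at h1
      exact one_ne_zero h1.symm
    by_cases hzS : z ∈ S0
    · exfalso
      apply hs
      rw [hI3]
      refine ⟨z, hzS, ?_⟩
      change B.eval z / A.eval z = y s
      rw [hzr]
      field_simp
    · have h1 : ∃ om, Pt F J3 om ∧ om i0 = z := by
        by_contra hcon
        exact hzS hcon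
      obtain ⟨om, hom, hom0⟩ := h1
      have h2 := hom (MvPolynomial.X i1 * mv1_99 i0 A - mv1_99 i0 B) (by
        intro t ht
        rw [map_sub, map_mul, mv1_eval99, mv1_eval99, MvPolynomial.eval_X, hAB t ht, sub_self])
      rw [map_sub, map_mul, mv1_eval99, mv1_eval99, MvPolynomial.eval_X, hom0, hzr, ← sub_mul] at h2
      have h3 := sub_eq_zero.1 ((mul_eq_zero.1 h2).resolve_right hAz)
      rw [← hom0]
      exact H' J3 hJ3c s om hom h3
  -- the degree of `B - y s A`
  have hdeg : ∀ d, (A.natDegree = d ∨ B.natDegree = d) → A.natDegree ≤ d → B.natDegree ≤ d →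
      ∃ I4 : Set I, I4.Countable ∧ ∀ s, s ∉ I4 → d ≤ (B - C (y s) * A).natDegree := by
    intro d hd hAd hBd
    refine ⟨{s | (B - C (y s) * A).coeff d = 0}, ?_, fun s hs => le_natDegree_of_ne_zero hs⟩
    apply Set.Subsingleton.countable
    intro s hs s' hs'
    have h1 : B.coeff d - y s * A.coeff d = 0 := by
      have : (B - C (y s) * A).coeff d = 0 := hs
      rwa [coeff_sub, coeff_C_mul] at this
    have h2 : B.coeff d - y s' * A.coeff d = 0 := by
      have : (B - C (y s') * A).coeff d = 0 := hs'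
      rwa [coeff_sub, coeff_C_mul] at this
    have h3 : A.coeff d ≠ 0 := by
      intro h0
      rw [h0, mul_zero, sub_zero] at h1
      rcases hd with hd | hd
      · rw [← hd] at h0
        exact hA (leadingCoeff_eq_zero.1 h0)
      · rw [← hd] at h1
        have hB0 : B = 0 := leadingCoeff_eq_zero.1 h1
        rw [hB0, natDegree_zero] at hd
        rw [hB0, isCoprime_zero_right] at hcop
        have h5 := natDegree_eq_zero_of_isUnit hcop
        rw [← hd, ← h5] at h0
        exact hA (leadingCoeff_eq_zero.1 h0)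
    apply hy
    apply mul_right_cancel₀ h3
    linear_combination h2 - h1
  obtain ⟨d, hd, hAd, hBd⟩ : ∃ d, (A.natDegree = d ∨ B.natDegree = d) ∧ A.natDegree ≤ d ∧ B.natDegree ≤ d := by
    refine ⟨max A.natDegree B.natDegree, ?_, le_max_left _ _, le_max_right _ _⟩
    rcases max_choice A.natDegree B.natDegree with h | h
    · exact Or.inl h.symm
    · exact Or.inr h.symm
  obtain ⟨I4, hI4c, hI4⟩ := hdeg d hd hAd hBd
  have hd1 : d ≤ 1 := by
    by_contra hd2
    have hwr : wronskian A B = 0 := by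
      refine poly_zero99 (J' := ((I3 ∪ I4)ᶜ : Set I)) (unc99 (hI3c.union hI4c)) hx _ fun s hs => ?_
      have hs3 : s ∉ I3 := fun h => hs (Or.inl h)
      have hs4 : s ∉ I4 := fun h => hs (Or.inr h)
      have h1 := double99 _ (x s) (by have := hI4 s hs4; omega) (hroot s hs3)
      have h2 : (B - C (y s) * A).eval (x s) = 0 := by
        obtain ⟨z, hz⟩ := Complex.exists_root (f := B - C (y s) * A)
          (natDegree_pos_iff_degree_pos.1 (by have := hI4 s hs4; omega))
        have h3 := hroot s hs3 z hz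
        rw [← h3]
        exact hz
      rw [derivative_sub, derivative_C_mul, eval_sub, eval_mul, eval_C, sub_eq_zero] at h1
      rw [eval_sub, eval_mul, eval_C, sub_eq_zero] at h2
      rw [wronskian, eval_sub, eval_mul, eval_mul, h1, h2]
      ring
    obtain ⟨e1, e2⟩ := hcop.wronskian_eq_zero_iff.1 hwr
    have e3 := derivative_eq_zero.1 e1
    have e4 := derivative_eq_zero.1 e2
    omega
  refine ⟨A, B, hAd.trans hd1, hBd.trans hd1, hA, ⟨J3, hJ3c, hAB⟩, I3 ∪ I4, hI3c.union hI4c, fun s hs => ?_⟩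
  have hs3 : s ∉ I3 := fun h => hs (Or.inl h)
  have hs4 : s ∉ I4 := fun h => hs (Or.inr h)
  have hdpos : 1 ≤ d := by
    by_contra h0
    have e3 : A.natDegree = 0 := by omega
    have e4 : B.natDegree = 0 := by omega
    rw [natDegree_eq_zero] at e3 e4
    obtain ⟨a, ha⟩ := e3
    obtain ⟨b, hb⟩ := e4
    have ha0 : a ≠ 0 := by
      rintro rfl
      rw [C_0] at ha
      exact hA ha.symm
    have h1 : ∀ t ∈ J3, F i1 t = b / a := by
      intro t ht
      have h2 := hAB t ht
      rw [← ha, ← hb, eval_C, eval_C] at h2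
      rw [← h2]
      field_simp
    apply hJ3c
    apply Set.Subsingleton.countable
    intro t ht t' ht'
    exact hw ((h1 t ht).trans (h1 t' ht').symm)
  obtain ⟨z, hz⟩ := Complex.exists_root (f := B - C (y s) * A)
    (natDegree_pos_iff_degree_pos.1 (by have := hI4 s hs4; omega))
  have h3 := hroot s hs3 z hz
  rw [h3, IsRoot.def, eval_sub, eval_mul, eval_C] at hz
  exact (sub_eq_zero.1 hz).symm

end main

/-- **Good points.** -/
theorem good_points {I J ι : Type} [Uncountable I] [Uncountable J] [Countable ι] (x y : I → ℂ)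
    (hx : Function.Injective x) (hy : Function.Injective y) (F : ι → J → ℂ) (i0 i1 : ι)
    (hz : Function.Injective (F i0)) (hw : Function.Injective (F i1)) :
    (∃ J' : Set J, ¬ J'.Countable ∧ ∃ (s : I) (om : ι → ℂ), Pt F J' om ∧
      ((om i0 = x s ∧ om i1 ≠ y s) ∨ (om i1 = y s ∧ om i0 ≠ x s))) ∨
    ∃ A B : ℂ[X], A.natDegree ≤ 1 ∧ B.natDegree ≤ 1 ∧ A ≠ 0 ∧
      (∃ J' : Set J, ¬ J'.Countable ∧ ∀ t ∈ J', F i1 t * A.eval (F i0 t) = B.eval (F i0 t)) ∧
      ∃ I' : Set I, I'.Countable ∧ ∀ s, s ∉ I' → y s * A.eval (x s) = B.eval (x s) := by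
  by_cases h : ∃ J' : Set J, ¬ J'.Countable ∧ ∃ (s : I) (om : ι → ℂ), Pt F J' om ∧
      ((om i0 = x s ∧ om i1 ≠ y s) ∨ (om i1 = y s ∧ om i0 ≠ x s))
  · exact Or.inl h
  · refine Or.inr (partIII99 hx hy hz hw ?_ ?_)
    · intro J' hJ' s om hom h0
      by_contra h1
      exact h ⟨J', hJ', s, om, hom, Or.inl ⟨h0, h1⟩⟩
    · intro J' hJ' s om hom h0
      by_contra h1
      exact h ⟨J', hJ', s, om, hom, Or.inr ⟨h0, h1⟩⟩

end Pool.Agent.Helper99.TR3
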