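import Pool.Agent.Helper99.TR.CylF
import Pool.Agent.Helper99.TR.Good
import Pool.Agent.Helper33.TS.Core

/-!
# Block CoreB: good points for two unit tangents (project TR, MP_078326_gt; plan of helper33)

Stereographic coordinates `x = (a₀ + i a₁) / (1 - a₂)`, `y = -(a₀ + i a₁) / (1 + a₂)` of the tangents. A good generalised point of `b`
gives, by the local theorem, a formal germ on which `m` vanishes with all its `s`-derivatives, hence `χ(m(s₁, ·)) = 0`, which is
impossible as `m(s₁, ·)` is invertible. So there are no good points, and `a` and `b` lie in the same affine plane (over `ℂ`).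
-/

set_option autoImplicit false

open Pool.Agent.Helper99.TR Pool.Agent.Helper33.TS
open scoped ComplexConjugate

namespace Pool.Agent.Helper99.TR3

section stereo

private theorem not_countable_Ioo99 {p q : ℝ} (h : p < q) : ¬ (Set.Ioo p q).Countable := by
  intro h1
  have h2 := h1.le_aleph0
  rw [Cardinal.mk_Ioo_real h] at h2
  exact absurd h2 (not_le.2 Cardinal.aleph0_lt_continuum)

/-- the first stereographic coordinate -/
noncomputable def sz (v : Fin 3 → ℝ) : ℂ := ((v 0 : ℂ) + Complex.I * v 1) / (1 - v 2)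

/-- the second stereographic coordinate -/
noncomputable def sw (v : Fin 3 → ℝ) : ℂ := -((v 0 : ℂ) + Complex.I * v 1) / (1 + v 2)

private theorem ne1_99 {v : Fin 3 → ℝ} (h : v 2 ^ 2 ≠ 1) : (1 : ℂ) - v 2 ≠ 0 := by
  intro h1
  apply h
  have h2 : ((1 - v 2 : ℝ) : ℂ) = 0 := by push_cast; exact h1
  have h3 : 1 - v 2 = 0 := by exact_mod_cast h2
  rw [← sub_eq_zero]
  linear_combination (-(1 + v 2)) * h3

private theorem ne2_99 {v : Fin 3 → ℝ} (h : v 2 ^ 2 ≠ 1) : (1 : ℂ) + v 2 ≠ 0 := by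
  intro h1
  apply h
  have h2 : ((1 + v 2 : ℝ) : ℂ) = 0 := by push_cast; exact h1
  have h3 : 1 + v 2 = 0 := by exact_mod_cast h2
  rw [← sub_eq_zero]
  linear_combination (-(1 - v 2)) * h3

theorem sw_eq (v : Fin 3 → ℝ) : sw v = sz fun i => -v i := by
  unfold sw sz
  push_cast
  congr 1 <;> ring

theorem sz_inj {v v' : Fin 3 → ℝ} (h1 : dot v v = 1) (h1' : dot v' v' = 1) (h2 : v 2 ^ 2 ≠ 1) (h2' : v' 2 ^ 2 ≠ 1)
    (h : sz v = sz v') : v = v' := by
  have e1 := ne1_99 h2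
  have e1' := ne1_99 h2'
  unfold sz at h
  rw [div_eq_div_iff e1 e1'] at h
  have hre := congrArg Complex.re h
  have him := congrArg Complex.im h
  simp at hre him
  have r1 : 1 - v 2 ≠ 0 := by
    intro h0
    exact h2 (by rw [← sub_eq_zero]; linear_combination (-(1 + v 2)) * h0)
  have r1' : 1 - v' 2 ≠ 0 := by
    intro h0
    exact h2' (by rw [← sub_eq_zero]; linear_combination (-(1 + v' 2)) * h0)
  simp only [dot] at h1 h1'
  have h3 : (1 - v 2) * (1 - v' 2) * (v 2 - v' 2) = 0 := by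
    have h4 : (v 0 * (1 - v' 2)) ^ 2 + (v 1 * (1 - v' 2)) ^ 2 = (v' 0 * (1 - v 2)) ^ 2 + (v' 1 * (1 - v 2)) ^ 2 := by
      rw [hre, him]
    linear_combination h4 / 2 - (1 - v' 2) ^ 2 / 2 * h1 + (1 - v 2) ^ 2 / 2 * h1'
  have h5 : v 2 = v' 2 := sub_eq_zero.1 ((mul_eq_zero.1 h3).resolve_left (mul_ne_zero r1 r1'))
  rw [← h5] at hre him
  have h6 := mul_right_cancel₀ r1 hre
  have h7 := mul_right_cancel₀ r1 him
  funext i
  fin_cases i
  · exact h6
  · exact h7
  · exact h5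

theorem sw_inj {v v' : Fin 3 → ℝ} (h1 : dot v v = 1) (h1' : dot v' v' = 1) (h2 : v 2 ^ 2 ≠ 1) (h2' : v' 2 ^ 2 ≠ 1)
    (h : sw v = sw v') : v = v' := by
  rw [sw_eq, sw_eq] at h
  have h3 := sz_inj (v := fun i => -v i) (v' := fun i => -v' i) (by simp only [dot] at h1 ⊢; linarith)
    (by simp only [dot] at h1' ⊢; linarith) (by simpa using h2) (by simpa using h2') h
  funext i
  exact neg_injective (congrFun h3 i)

/-- a Möbius relation between the stereographic coordinates is a plane -/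
theorem plane_of_rel {v : Fin 3 → ℝ} (h1 : dot v v = 1) (h2 : v 2 ^ 2 ≠ 1) {al be ga de : ℂ}
    (h : sw v * (ga * sz v + de) = al * sz v + be) :
    (ga + be) * v 0 + Complex.I * (ga - be) * v 1 + (al - de) * v 2 = -(al + de) := by
  have e1 := ne1_99 h2
  have e2 := ne2_99 h2
  have hI := Complex.I_mul_I
  have h1' : (v 0 : ℂ) * v 0 + v 1 * v 1 + v 2 * v 2 = 1 := by
    have := congrArg (fun r : ℝ => (r : ℂ)) h1
    simp only [dot] at this
    push_cast at this
    exact this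
  obtain ⟨ze, hze⟩ : ∃ ze : ℂ, ze = (v 0 : ℂ) + Complex.I * v 1 := ⟨_, rfl⟩
  obtain ⟨zc, hzc⟩ : ∃ zc : ℂ, zc = (v 0 : ℂ) - Complex.I * v 1 := ⟨_, rfl⟩
  have hprod : ze * zc = (1 - v 2) * (1 + v 2) := by
    rw [hze, hzc]
    linear_combination h1' - (v 1 : ℂ) * v 1 * hI
  have hze0 : ze ≠ 0 := by
    intro h0
    rw [h0, zero_mul] at hprod
    exact mul_ne_zero e1 e2 hprod.symm
  unfold sw sz at h
  rw [← hze] at h
  field_simp at h
  have h3 : ze * ((ga + be) * v 0 + Complex.I * (ga - be) * v 1 + (al - de) * v 2 + (al + de)) = 0 := by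
    have h4 : (ga + be) * v 0 + Complex.I * (ga - be) * v 1 = ga * ze + be * zc := by
      rw [hze, hzc]
      ring
    rw [h4]
    linear_combination be * hprod - h
  linear_combination (mul_eq_zero.1 h3).resolve_left hze0

/-- the complement of a countable set is dense: an equation extends -/
theorem extend_eq {p q : ℝ} {g : ℝ → ℂ} {d : ℂ} (hg : ∀ s ∈ Set.Ioo p q, ContinuousAt g s) {S : Set ℝ}
    (hS : S.Countable) (h : ∀ s ∈ Set.Ioo p q, s ∉ S → g s = d) : ∀ s ∈ Set.Ioo p q, g s = d := by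
  intro s hs
  by_contra hne
  have h1 : {x | g x ≠ d} ∈ nhds s := (hg s hs).eventually_ne hne
  obtain ⟨U, hU, hUo, hsU⟩ := mem_nhds_iff.1 (Filter.inter_mem h1 (isOpen_Ioo.mem_nhds hs))
  have h2 : U ⊆ S := by
    intro x hx
    by_contra hxS
    exact (hU hx).1 (h x (hU hx).2 hxS)
  have h3 := (hS.mono h2)
  obtain ⟨e, he, hball⟩ := Metric.isOpen_iff.1 hUo s hsU
  have h4 : Set.Ioo (s - e) (s + e) ⊆ U := by
    intro x hx
    apply hball
    rw [Metric.mem_ball, Real.dist_eq, abs_lt]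
    constructor <;> linarith [hx.1, hx.2]
  have h5 := h3.mono h4
  exact not_countable_Ioo99 (by linarith) h5

/-- the second alternative of `good_points` gives an affine plane -/
theorem plane_alt {p q : ℝ} (hpq : p < q) {J0 : Set ℝ} {a b : Fin 3 → ℕ → ℝ → ℝ}
    (ha : ∀ i n, ∀ s ∈ Set.Ioo p q, HasDerivAt (a i n) (a i (n + 1) s) s)
    (haa : ∀ s ∈ Set.Ioo p q, dot (fun i => a i 0 s) (fun i => a i 0 s) = 1)
    (hbb : ∀ t ∈ J0, dot (fun i => b i 0 t) (fun i => b i 0 t) = 1)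
    (ha2 : ∀ s ∈ Set.Ioo p q, (a 2 0 s) ^ 2 ≠ 1) (hb2 : ∀ t ∈ J0, (b 2 0 t) ^ 2 ≠ 1)
    {A B : Polynomial ℂ} (hA : A.natDegree ≤ 1) (hB : B.natDegree ≤ 1) (hA0 : A ≠ 0) {J' : Set J0}
    (hJ' : ∀ t ∈ J', sw (fun i => b i 0 t) * A.eval (sz fun i => b i 0 t) = B.eval (sz fun i => b i 0 t))
    {I' : Set (Set.Ioo p q)} (hI'c : I'.Countable)
    (hI' : ∀ s, s ∉ I' → sw (fun i => a i 0 s) * A.eval (sz fun i => a i 0 s) = B.eval (sz fun i => a i 0 s)) :
    ∃ (c : Fin 3 → ℂ) (d : ℂ), (∃ i, c i ≠ 0) ∧ (∀ s ∈ Set.Ioo p q, ∑ i, c i * (a i 0 s : ℂ) = d) ∧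
      ∀ t ∈ J', ∑ i, c i * (b i 0 t : ℂ) = d := by
  obtain ⟨ga, hga⟩ : ∃ ga, ga = A.coeff 1 := ⟨_, rfl⟩
  obtain ⟨de, hde⟩ : ∃ de, de = A.coeff 0 := ⟨_, rfl⟩
  obtain ⟨al, hal⟩ : ∃ al, al = B.coeff 1 := ⟨_, rfl⟩
  obtain ⟨be, hbe⟩ : ∃ be, be = B.coeff 0 := ⟨_, rfl⟩
  have hAe : ∀ z, A.eval z = ga * z + de := by
    intro z
    rw [Polynomial.eval_eq_sum_range' (Nat.lt_succ_of_le hA), Finset.sum_range_succ, Finset.sum_range_one, hga, hde]
    ring
  have hBe : ∀ z, B.eval z = al * z + be := by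
    intro z
    rw [Polynomial.eval_eq_sum_range' (Nat.lt_succ_of_le hB), Finset.sum_range_succ, Finset.sum_range_one, hal, hbe]
    ring
  obtain ⟨c, hc⟩ : ∃ c : Fin 3 → ℂ, c = ![ga + be, Complex.I * (ga - be), al - de] := ⟨_, rfl⟩
  have hcs : ∀ v : Fin 3 → ℝ, ∑ i, c i * (v i : ℂ) =
      (ga + be) * v 0 + Complex.I * (ga - be) * v 1 + (al - de) * v 2 := by
    intro v
    rw [Fin.sum_univ_three, hc]
    rfl
  have h1 : ∀ s ∈ Set.Ioo p q, ∑ i, c i * (a i 0 s : ℂ) = -(al + de) := by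
    refine extend_eq (S := Subtype.val '' I') ?_ (hI'c.image _) ?_
    · intro s hs
      exact tendsto_finsetSum _ fun i _ =>
        ((Complex.continuous_ofReal.continuousAt.comp (ha i 0 s hs).continuousAt).const_mul (c i))
    · intro s hs hsI
      have h2 : (⟨s, hs⟩ : Set.Ioo p q) ∉ I' := fun h => hsI ⟨_, h, rfl⟩
      have h3 := hI' _ h2
      rw [hAe, hBe] at h3
      rw [hcs fun i => a i 0 s]
      exact plane_of_rel (haa s hs) (ha2 s hs) h3
  refine ⟨c, -(al + de), ?_, h1, ?_⟩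
  · by_contra hcon
    push Not at hcon
    have c0 := hcon 0
    have c1 := hcon 1
    have c2 := hcon 2
    rw [hc] at c0 c1 c2
    simp only [Matrix.cons_val_zero, Matrix.cons_val_one, Matrix.cons_val] at c0 c1 c2
    have e1 : ga - be = 0 := (mul_eq_zero.1 c1).resolve_left Complex.I_ne_zero
    have e2 : ga = 0 := by linear_combination (c0 + e1) / 2
    have h2 := h1 ((p + q) / 2) ⟨by linarith, by linarith⟩
    have h3 : ∑ i, c i * (a i 0 ((p + q) / 2) : ℂ) = 0 := Finset.sum_eq_zero fun i _ => by rw [hcon i, zero_mul]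
    rw [h3] at h2
    have e3 : de = 0 := by linear_combination (h2 - c2) / 2
    apply hA0
    ext n
    rw [Polynomial.coeff_zero]
    rcases n with _ | _ | n
    · rw [← hde, e3]
    · rw [← e2, hga]
    · exact Polynomial.coeff_eq_zero_of_natDegree_lt (by omega)
  · intro t ht
    have h3 := hJ' t ht
    rw [hAe, hBe] at h3
    rw [hcs fun i => b i 0 t]
    exact plane_of_rel (hbb t t.2) (hb2 t t.2) h3

/-- a real linear statement applied to complex coefficients -/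
theorem complex_hw {d : ℕ} (v : Fin d → ℕ → ℝ) (v' : Fin d → ℝ)
    (hw : ∀ c : Fin d → ℝ, (∀ n, ∑ j, c j * v j n = 0) → ∑ j, c j * v' j = 0) (W : Fin d → ℂ)
    (h : ∀ n, ∑ j, W j * (v j n : ℂ) = 0) : ∑ j, W j * (v' j : ℂ) = 0 := by
  have h1 := hw (fun j => (W j).re) (fun n => by
    have := congrArg Complex.re (h n)
    rw [Complex.re_sum] at this
    simpa using this)
  have h2 := hw (fun j => (W j).im) (fun n => by
    have := congrArg Complex.im (h n)
    rw [Complex.im_sum] at this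
    simpa using this)
  apply Complex.ext
  · rw [Complex.re_sum]
    simpa using h1
  · rw [Complex.im_sum]
    simpa using h2

end stereo

section main

open MvPolynomial

/-- the functions of `t` -/
private noncomputable def fam99 (b : Fin 3 → ℕ → ℝ → ℝ) (m : ℝ → ℝ) (J0 : Set ℝ) : (Fin 3 × ℕ) ⊕ Fin 5 → J0 → ℂ :=
  Sum.elim (fun x t => (b x.1 x.2 t : ℂ)) fun j t =>
    ![sz fun i => b i 0 t, sw fun i => b i 0 t, (1 - (b 2 0 t : ℂ))⁻¹, (1 + (b 2 0 t : ℂ))⁻¹, (m t : ℂ)⁻¹] j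

theorem coreB {p q : ℝ} (hpq : p < q) {J1 J0 : Set ℝ} (hJ1 : IsOpen J1) (hJ01 : J0 ⊆ J1) (hJ0 : ¬ J0.Countable)
    {a b : Fin 3 → ℕ → ℝ → ℝ} (ha : ∀ i n, ∀ s ∈ Set.Ioo p q, HasDerivAt (a i n) (a i (n + 1) s) s)
    (hb : ∀ i n, ∀ t ∈ J1, HasDerivAt (b i n) (b i (n + 1) t) t)
    (haa : ∀ s ∈ Set.Ioo p q, dot (fun i => a i 0 s) (fun i => a i 0 s) = 1)
    (hbb : ∀ t ∈ J1, dot (fun i => b i 0 t) (fun i => b i 0 t) = 1)
    (ha1 : ∀ s ∈ Set.Ioo p q, ∃ i, a i 1 s ≠ 0)
    (ha2 : ∀ s ∈ Set.Ioo p q, (a 2 0 s) ^ 2 ≠ 1) (hb2 : ∀ t ∈ J1, (b 2 0 t) ^ 2 ≠ 1)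
    (hai : Set.InjOn (fun s i => a i 0 s) (Set.Ioo p q)) (hbi : Set.InjOn (fun t i => b i 0 t) J1)
    (hw : ∀ s ∈ Set.Ioo p q, ∀ s' ∈ Set.Ioo p q, ∀ c : Fin 6 → ℝ, (∀ n, ∑ j, c j * va a j n s = 0) →
      ∑ j, c j * va a j 0 s' = 0) (k : ℕ) (c : ℕ → ℝ)
    (hrel : ∀ i, ∀ s ∈ Set.Ioo p q, ∀ t ∈ J1,
      aeval (pt (fun i n => a i n s) fun i n => b i n t) (Pool.Agent.Helper33.TS.Rel k c i) = 0)
    {s1 : ℝ} (hs1 : s1 ∈ Set.Ioo p q)
    (hm : ∀ t ∈ J1, mr (fun i => a i 0 s1) (fun i => a i 1 s1) (fun i => b i 0 t) (fun i => b i 1 t) ≠ 0) :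
    ∃ (c : Fin 3 → ℂ) (d : ℂ), (∃ i, c i ≠ 0) ∧ (∀ s ∈ Set.Ioo p q, ∑ i, c i * (a i 0 s : ℂ) = d) ∧
      ∃ J' ⊆ J0, ¬ J'.Countable ∧ ∀ t ∈ J', ∑ i, c i * (b i 0 t : ℂ) = d := by
  have hKu : Uncountable (Set.Ioo p q) := by
    rw [← not_countable_iff]
    exact fun h => not_countable_Ioo99 hpq (Set.countable_coe_iff.1 h)
  have hJu : Uncountable J0 := by
    rw [← not_countable_iff]
    exact fun h => hJ0 (Set.countable_coe_iff.1 h)
  obtain ⟨m, hmd⟩ : ∃ m : ℝ → ℝ, m = fun t => mr (fun i => a i 0 s1) (fun i => a i 1 s1) (fun i => b i 0 t)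
    (fun i => b i 1 t) := ⟨_, rfl⟩
  have hx : Function.Injective fun s : Set.Ioo p q => sz fun i => a i 0 s := by
    intro s s' h
    exact Subtype.ext (hai s.2 s'.2 (sz_inj (haa s s.2) (haa s' s'.2) (ha2 s s.2) (ha2 s' s'.2) h))
  have hy : Function.Injective fun s : Set.Ioo p q => sw fun i => a i 0 s := by
    intro s s' h
    exact Subtype.ext (hai s.2 s'.2 (sw_inj (haa s s.2) (haa s' s'.2) (ha2 s s.2) (ha2 s' s'.2) h))
  have hz : Function.Injective (fam99 b m J0 (Sum.inr 0)) := by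
    intro t t' h
    exact Subtype.ext (hbi (hJ01 t.2) (hJ01 t'.2) (sz_inj (hbb t (hJ01 t.2)) (hbb t' (hJ01 t'.2)) (hb2 t (hJ01 t.2))
      (hb2 t' (hJ01 t'.2)) h))
  have hw' : Function.Injective (fam99 b m J0 (Sum.inr 1)) := by
    intro t t' h
    exact Subtype.ext (hbi (hJ01 t.2) (hJ01 t'.2) (sw_inj (hbb t (hJ01 t.2)) (hbb t' (hJ01 t'.2)) (hb2 t (hJ01 t.2))
      (hb2 t' (hJ01 t'.2)) h))
  rcases good_points (fun s : Set.Ioo p q => sz fun i => a i 0 s) (fun s : Set.Ioo p q => sw fun i => a i 0 s) hx hy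
    (fam99 b m J0) (Sum.inr 0) (Sum.inr 1) hz hw' with ⟨J', -, s, om, hom, hcase⟩ |
    ⟨A, B, hA, hB, hA0, ⟨J', hJ', hJ'r⟩, I', hI'c, hI'r⟩
  · -- a good point: contradiction
    exfalso
    obtain ⟨z, hzd⟩ : ∃ z : Fin 3 → ℕ → ℂ, z = fun i n => om (Sum.inl (i, n)) := ⟨_, rfl⟩
    have hgen : ∀ G : MvPolynomial (Fin 3 × ℕ) ℂ, (∀ t ∈ Subtype.val '' J',
        MvPolynomial.eval (fun x => (b x.1 x.2 t : ℂ)) G = 0) → MvPolynomial.eval (fun x => z x.1 x.2) G = 0 := by
      intro G hG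
      have h1 := hom (MvPolynomial.rename Sum.inl G) (by
        intro t ht
        rw [MvPolynomial.eval_rename]
        exact hG t ⟨t, ht, rfl⟩)
      rw [MvPolynomial.eval_rename] at h1
      rw [hzd]
      exact h1
    have hJ'1 : Subtype.val '' J' ⊆ J1 := by
      rintro _ ⟨t, -, rfl⟩
      exact hJ01 t.2
    -- relations at the point
    have hBB : dot (fun i => z i 0) (fun i => z i 0) = 1 := by
      have h1 := hom (X (Sum.inl (0, 0)) * X (Sum.inl (0, 0)) + X (Sum.inl (1, 0)) * X (Sum.inl (1, 0)) +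
        X (Sum.inl (2, 0)) * X (Sum.inl (2, 0)) - C 1) (by
        intro t ht
        simp only [map_sub, map_add, map_mul, eval_X, eval_C, fam99, Sum.elim_inl]
        have h2 := congrArg (fun r : ℝ => (r : ℂ)) (hbb t (hJ01 t.2))
        simp only [dot] at h2
        push_cast at h2
        rw [h2, sub_self])
      simp only [map_sub, map_add, map_mul, eval_X, eval_C, sub_eq_zero] at h1
      rw [hzd]
      exact h1
    have hu2 : (1 - z 2 0) * om (Sum.inr 2) = 1 := by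
      have h1 := hom ((C 1 - X (Sum.inl (2, 0))) * X (Sum.inr 2) - C 1) (by
        intro t ht
        simp only [map_sub, map_mul, eval_X, eval_C, fam99, Sum.elim_inl, Sum.elim_inr, Matrix.cons_val]
        rw [mul_inv_cancel₀ (ne1_99 (v := fun i => b i 0 t) (hb2 t (hJ01 t.2))), sub_self])
      simp only [map_sub, map_mul, eval_X, eval_C, sub_eq_zero] at h1
      rw [hzd]
      exact h1
    have hu3 : (1 + z 2 0) * om (Sum.inr 3) = 1 := by
      have h1 := hom ((C 1 + X (Sum.inl (2, 0))) * X (Sum.inr 3) - C 1) (by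
        intro t ht
        simp only [map_sub, map_add, map_mul, eval_X, eval_C, fam99, Sum.elim_inl, Sum.elim_inr, Matrix.cons_val]
        rw [mul_inv_cancel₀ (ne2_99 (v := fun i => b i 0 t) (hb2 t (hJ01 t.2))), sub_self])
      simp only [map_sub, map_add, map_mul, eval_X, eval_C, sub_eq_zero] at h1
      rw [hzd]
      exact h1
    have hz0 : om (Sum.inr 0) * (1 - z 2 0) = z 0 0 + Complex.I * z 1 0 := by
      have h1 := hom (X (Sum.inr 0) * (C 1 - X (Sum.inl (2, 0))) - (X (Sum.inl (0, 0)) + C Complex.I * X (Sum.inl (1, 0)))) (by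
        intro t ht
        simp only [map_sub, map_add, map_mul, eval_X, eval_C, fam99, Sum.elim_inl, Sum.elim_inr, Matrix.cons_val_zero]
        have h2 := ne1_99 (v := fun i => b i 0 t) (hb2 t (hJ01 t.2))
        unfold sz
        rw [div_mul_cancel₀ _ h2, sub_self])
      simp only [map_sub, map_add, map_mul, eval_X, eval_C, sub_eq_zero] at h1
      rw [hzd]
      exact h1
    have hw0 : om (Sum.inr 1) * (1 + z 2 0) = -(z 0 0 + Complex.I * z 1 0) := by
      have h1 := hom (X (Sum.inr 1) * (C 1 + X (Sum.inl (2, 0))) + (X (Sum.inl (0, 0)) + C Complex.I * X (Sum.inl (1, 0)))) (by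
        intro t ht
        simp only [map_add, map_mul, eval_X, eval_C, fam99, Sum.elim_inl, Sum.elim_inr, Matrix.cons_val_one,
          Matrix.cons_val_zero]
        have h2 := ne2_99 (v := fun i => b i 0 t) (hb2 t (hJ01 t.2))
        unfold sw
        rw [div_mul_cancel₀ _ h2, neg_add_cancel])
      simp only [map_add, map_mul, eval_X, eval_C] at h1
      rw [hzd]
      exact eq_neg_of_add_eq_zero_left h1
    -- the value of `m (s1, .)`
    have hmz : ∑ j, ww (fun i => z i 0) (fun i => z i 1) j * (va a j 0 s1 : ℂ) ≠ 0 := by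
      intro h0
      have h1 := hom ((∑ j, ww (fun i => (X (Sum.inl (i, 0)) : MvPolynomial ((Fin 3 × ℕ) ⊕ Fin 5) ℂ))
        (fun i => X (Sum.inl (i, 1))) j * C (va a j 0 s1 : ℂ)) * X (Sum.inr 4) - C 1) (by
        intro t ht
        have h2 : ∀ j, eval (fun i => fam99 b m J0 i t) (ww (fun i => (X (Sum.inl (i, 0)) : MvPolynomial ((Fin 3 × ℕ) ⊕ Fin 5) ℂ))
            (fun i => X (Sum.inl (i, 1))) j) = ((ww (fun i => b i 0 t) (fun i => b i 1 t) j : ℝ) : ℂ) := by
          intro j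
          fin_cases j <;> simp [ww, fam99]
        have h3 : ∑ j, ((ww (fun i => b i 0 t) (fun i => b i 1 t) j : ℝ) : ℂ) * (va a j 0 s1 : ℂ) = (m t : ℂ) := by
          rw [hmd]
          simp only
          rw [mr_eq]
          push_cast
          refine Finset.sum_congr rfl fun j _ => ?_
          rw [va_zero, mul_comm]
        have h4 : (m t : ℂ) ≠ 0 := by
          have := hm t (hJ01 t.2)
          rw [hmd]
          exact_mod_cast this
        rw [map_sub, map_mul, map_sum, eval_X, eval_C]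
        simp only [map_mul, h2, eval_C]
        rw [h3]
        have h5 : fam99 b m J0 (Sum.inr 4) t = (m t : ℂ)⁻¹ := rfl
        rw [h5, mul_inv_cancel₀ h4, sub_self])
      have h2 : ∀ j, eval om (ww (fun i => (X (Sum.inl (i, 0)) : MvPolynomial ((Fin 3 × ℕ) ⊕ Fin 5) ℂ))
          (fun i => X (Sum.inl (i, 1))) j) = ww (fun i => z i 0) (fun i => z i 1) j := by
        intro j
        rw [hzd]
        fin_cases j <;> simp [ww]
      rw [map_sub, map_mul, map_sum, eval_X, eval_C] at h1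
      simp only [map_mul, h2, eval_C] at h1
      rw [h0, zero_mul, zero_sub, neg_eq_zero] at h1
      exact one_ne_zero h1
    -- the point is good
    have hsp := s.2
    have e1 := ne1_99 (v := fun i => a i 0 s) (ha2 s hsp)
    have e2 := ne2_99 (v := fun i => a i 0 s) (ha2 s hsp)
    have haaC : dot (fun i => (a i 0 s : ℂ)) (fun i => (a i 0 s : ℂ)) = 1 := by
      have := congrArg (fun r : ℝ => (r : ℂ)) (haa s hsp)
      simp only [dot] at this ⊢
      push_cast at this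
      exact this
    obtain ⟨g1, g2⟩ := good_F (a := fun i => (a i 0 s : ℂ)) (B := fun i => z i 0) (z0 := om (Sum.inr 0))
      (w0 := om (Sum.inr 1)) (x := sz fun i => a i 0 s) (y := sw fun i => a i 0 s) haaC hBB e1 e2
      (left_ne_zero_of_mul (hu2 ▸ one_ne_zero)) (left_ne_zero_of_mul (hu3 ▸ one_ne_zero))
      (by unfold sz; rw [div_mul_cancel₀ _ e1]) (by unfold sw; rw [div_mul_cancel₀ _ e2]) hz0 hw0 hcase
    have g3 := good_Fs (a := fun i => a i 0 s) (a1 := fun i => a i 1 s) (B := fun i => z i 0) (haa s hsp)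
      (by rw [dot_comm]; exact unit_orth isOpen_Ioo ha haa hsp) (ha1 s hsp) hBB g1 g2
    have h5 := formal_zero isOpen_Ioo hJ1 ha hb haa hbb hJ'1 hsp k c hrel z hgen g1 g2 g3
    have h6 : ∀ n, ∑ j, ww (fun i => z i 0) (fun i => z i 1) j * (va a j n s : ℂ) = 0 := by
      intro n
      rw [← h5 n, PS_mm, map_sum]
      refine Finset.sum_congr rfl fun j _ => ?_
      rw [map_mul, ev_va, ev_ww, mul_comm]
    exact hmz (complex_hw (fun j n => va a j n s) (fun j => va a j 0 s1) (hw s hsp s1 hs1) _ h6)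
  · -- no good point: a plane
    obtain ⟨c', d, hc, hca, hcb⟩ := plane_alt hpq (J0 := J0) (b := b) ha haa (fun t ht => hbb t (hJ01 ht)) ha2
      (fun t ht => hb2 t (hJ01 ht)) hA hB hA0 (J' := J') (fun t ht => hJ'r t ht) hI'c hI'r
    refine ⟨c', d, hc, hca, Subtype.val '' J', ?_, ?_, ?_⟩
    · rintro _ ⟨t, -, rfl⟩
      exact t.2
    · intro h1
      exact hJ' ((h1.preimage_of_injOn (f := Subtype.val) Subtype.val_injective.injOn).mono (Set.subset_preimage_image _ _))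
    · rintro _ ⟨t, ht, rfl⟩
      exact hcb t ht

end main

end Pool.Agent.Helper99.TR3
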