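import Pool.Agent.Helper99.TR.Fps

/-!
# Formal germs for sums of two space curves (project TR, MP_078326_gt; plan of helper33)

The universal ring `P = ℝ[aᵢ, aᵢ', ..., bᵢ, bᵢ', ...]` (`i < 3`) of the jets of two space curves `a(s)`, `b(t)` with the derivations
`PS`, `PT`, `PU = PS - PT`, `PW = PS + PT`, the formal germ `phi w z : P → ℂ⟦σ⟧⟦τ⟧` at the point with the jets `w`, `z` in the
coordinates `s = τ + σ`, `t = τ - σ` (the outer variable is `τ`, the inner variable is `σ`), and the transfer of a relation which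
holds on an open rectangle to a formal germ at a generalised point.
-/

set_option autoImplicit false

open MvPolynomial Pool.Agent.Helper99.TR

namespace Pool.Agent.Helper99.TR3

/-- the universal ring of the jets of `a` (`inl`) and `b` (`inr`) -/
abbrev P : Type := MvPolynomial ((Fin 3 × ℕ) ⊕ (Fin 3 × ℕ)) ℝ

/-- the total derivative in `s` -/
noncomputable def PS : Derivation ℝ P P :=
  MvPolynomial.mkDerivation ℝ (Sum.elim (fun x => X (Sum.inl (x.1, x.2 + 1))) fun _ => 0)

/-- the total derivative in `t` -/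
noncomputable def PT : Derivation ℝ P P :=
  MvPolynomial.mkDerivation ℝ (Sum.elim (fun _ => 0) fun x => X (Sum.inr (x.1, x.2 + 1)))

/-- the total derivative in `σ` -/
noncomputable def PU : Derivation ℝ P P := PS - PT

/-- the total derivative in `τ` -/
noncomputable def PW : Derivation ℝ P P := PS + PT

theorem PS_inl (i : Fin 3) (n : ℕ) : PS (X (Sum.inl (i, n))) = X (Sum.inl (i, n + 1)) := by
  rw [PS, MvPolynomial.mkDerivation_X, Sum.elim_inl]

theorem PS_inr (i : Fin 3) (n : ℕ) : PS (X (Sum.inr (i, n))) = 0 := by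
  rw [PS, MvPolynomial.mkDerivation_X, Sum.elim_inr]

theorem PT_inl (i : Fin 3) (n : ℕ) : PT (X (Sum.inl (i, n))) = 0 := by
  rw [PT, MvPolynomial.mkDerivation_X, Sum.elim_inl]

theorem PT_inr (i : Fin 3) (n : ℕ) : PT (X (Sum.inr (i, n))) = X (Sum.inr (i, n + 1)) := by
  rw [PT, MvPolynomial.mkDerivation_X, Sum.elim_inr]

theorem PU_apply (F : P) : PU F = PS F - PT F := rfl

theorem PW_apply (F : P) : PW F = PS F + PT F := rfl

theorem PS_C (c : ℝ) : PS (C c) = 0 := PS.map_algebraMap c

theorem PT_C (c : ℝ) : PT (C c) = 0 := PT.map_algebraMap c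

theorem PU_C (c : ℝ) : PU (C c) = 0 := PU.map_algebraMap c

theorem PW_C (c : ℝ) : PW (C c) = 0 := PW.map_algebraMap c

theorem PW_inl (i : Fin 3) (n : ℕ) : PW (X (Sum.inl (i, n))) = X (Sum.inl (i, n + 1)) := by
  rw [PW_apply, PS_inl, PT_inl, add_zero]

theorem PW_inr (i : Fin 3) (n : ℕ) : PW (X (Sum.inr (i, n))) = X (Sum.inr (i, n + 1)) := by
  rw [PW_apply, PS_inr, PT_inr, zero_add]

theorem PU_inl (i : Fin 3) (n : ℕ) : PU (X (Sum.inl (i, n))) = X (Sum.inl (i, n + 1)) := by
  rw [PU_apply, PS_inl, PT_inl, sub_zero]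

theorem PU_inr (i : Fin 3) (n : ℕ) : PU (X (Sum.inr (i, n))) = -X (Sum.inr (i, n + 1)) := by
  rw [PU_apply, PS_inr, PT_inr, zero_sub]

/-- the two total derivatives commute -/
theorem PS_PT (F : P) : PS (PT F) = PT (PS F) := by
  have h : ⁅PS, PT⁆ = (0 : Derivation ℝ P P) := by
    apply MvPolynomial.derivation_ext
    rintro (⟨i, n⟩ | ⟨i, n⟩)
    · rw [Derivation.commutator_apply, PS_inl, PT_inl, PT_inl, map_zero, sub_zero, Derivation.zero_apply]
    · rw [Derivation.commutator_apply, PS_inr, PT_inr, PS_inr, map_zero, sub_zero, Derivation.zero_apply]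
  have h1 := congrArg (fun E : Derivation ℝ P P => E F) h
  simp only [Derivation.commutator_apply, Derivation.zero_apply] at h1
  exact sub_eq_zero.1 h1

/-- the derivatives in `σ` and `τ` commute -/
theorem PW_PU (F : P) : PW (PU F) = PU (PW F) := by
  rw [PW_apply, PU_apply, PU_apply, PW_apply, map_sub, map_sub, map_add, map_add, PS_PT]
  ring

/-- the series `∑ w (m + l) τ ^ m σ ^ l / (m! l!)` -/
noncomputable def gS (w : ℕ → ℂ) : B2 :=
  PowerSeries.mk fun m => PowerSeries.mk fun l => w (m + l) / ((m.factorial : ℂ) * (l.factorial : ℂ))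

/-- the series `∑ (-1) ^ l z (m + l) τ ^ m σ ^ l / (m! l!)` -/
noncomputable def gT (z : ℕ → ℂ) : B2 :=
  PowerSeries.mk fun m => PowerSeries.mk fun l => (-1) ^ l * z (m + l) / ((m.factorial : ℂ) * (l.factorial : ℂ))

private theorem fac99 (n : ℕ) : ((n.factorial : ℕ) : ℂ) ≠ 0 := by exact_mod_cast Nat.factorial_ne_zero n

private theorem succ99 (n : ℕ) : ((n : ℂ) + 1) ≠ 0 := by exact_mod_cast Nat.succ_ne_zero n

theorem dS_gS (w : ℕ → ℂ) : dS (gS w) = gS fun m => w (m + 1) := by
  ext m n
  rw [dS_coeff, gS, gS, PowerSeries.coeff_mk, PowerSeries.coeff_mk, PowerSeries.coeff_mk, PowerSeries.coeff_mk,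
    Nat.factorial_succ, show m + 1 + n = m + n + 1 by ring]
  have h1 := succ99 m
  have h2 := fac99 m
  have h3 := fac99 n
  push_cast
  field_simp

theorem dT_gS (w : ℕ → ℂ) : dT (gS w) = gS fun m => w (m + 1) := by
  ext m n
  rw [dT_coeff, gS, gS, PowerSeries.coeff_mk, PowerSeries.coeff_mk, PowerSeries.coeff_mk, PowerSeries.coeff_mk,
    Nat.factorial_succ, show m + (n + 1) = m + n + 1 by ring]
  have h1 := succ99 n
  have h2 := fac99 m
  have h3 := fac99 n
  push_cast
  field_simp

theorem dS_gT (z : ℕ → ℂ) : dS (gT z) = gT fun m => z (m + 1) := by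
  ext m n
  rw [dS_coeff, gT, gT, PowerSeries.coeff_mk, PowerSeries.coeff_mk, PowerSeries.coeff_mk, PowerSeries.coeff_mk,
    Nat.factorial_succ, show m + 1 + n = m + n + 1 by ring]
  have h1 := succ99 m
  have h2 := fac99 m
  have h3 := fac99 n
  push_cast
  field_simp

theorem dT_gT (z : ℕ → ℂ) : dT (gT z) = -gT fun m => z (m + 1) := by
  ext m n
  rw [dT_coeff, map_neg, map_neg, gT, gT, PowerSeries.coeff_mk, PowerSeries.coeff_mk, PowerSeries.coeff_mk,
    PowerSeries.coeff_mk, Nat.factorial_succ, show m + (n + 1) = m + n + 1 by ring, pow_succ]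
  have h1 := succ99 n
  have h2 := fac99 m
  have h3 := fac99 n
  push_cast
  field_simp

theorem gS_const (w : ℕ → ℂ) : PowerSeries.constantCoeff (PowerSeries.constantCoeff (gS w)) = w 0 := by
  rw [gS, ← PowerSeries.coeff_zero_eq_constantCoeff_apply (PowerSeries.mk _), PowerSeries.coeff_mk,
    ← PowerSeries.coeff_zero_eq_constantCoeff_apply, PowerSeries.coeff_mk]
  simp

theorem gT_const (z : ℕ → ℂ) : PowerSeries.constantCoeff (PowerSeries.constantCoeff (gT z)) = z 0 := by
  rw [gT, ← PowerSeries.coeff_zero_eq_constantCoeff_apply (PowerSeries.mk _), PowerSeries.coeff_mk,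
    ← PowerSeries.coeff_zero_eq_constantCoeff_apply, PowerSeries.coeff_mk]
  simp

/-- the values of the variables at a point -/
def pt {R : Type*} (w z : Fin 3 → ℕ → R) : (Fin 3 × ℕ) ⊕ (Fin 3 × ℕ) → R :=
  Sum.elim (fun x => w x.1 x.2) fun x => z x.1 x.2

/-- the formal germ with the jets `w` of `a` and `z` of `b` -/
noncomputable def phi (w z : Fin 3 → ℕ → ℂ) : P →ₐ[ℝ] B2 :=
  MvPolynomial.aeval (Sum.elim (fun x => gS fun m => w x.1 (x.2 + m)) fun x => gT fun m => z x.1 (x.2 + m))

theorem phi_inl (w z : Fin 3 → ℕ → ℂ) (i : Fin 3) (n : ℕ) :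
    phi w z (X (Sum.inl (i, n))) = gS fun m => w i (n + m) := by
  rw [phi, MvPolynomial.aeval_X, Sum.elim_inl]

theorem phi_inr (w z : Fin 3 → ℕ → ℂ) (i : Fin 3) (n : ℕ) :
    phi w z (X (Sum.inr (i, n))) = gT fun m => z i (n + m) := by
  rw [phi, MvPolynomial.aeval_X, Sum.elim_inr]

private theorem shift99 (w : ℕ → ℂ) (n : ℕ) : (fun m => w (n + (m + 1))) = fun m => w (n + 1 + m) := by
  ext m
  rw [show n + (m + 1) = n + 1 + m by ring]

theorem phi_PW (w z : Fin 3 → ℕ → ℂ) (F : P) : phi w z (PW F) = dS (phi w z F) := by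
  induction F using MvPolynomial.induction_on with
  | C c =>
    have h1 : phi w z (C c) = algebraMap ℝ B2 c := (phi w z).commutes c
    rw [PW_C, map_zero, h1]
    exact (dS.map_algebraMap c).symm
  | add p q hp hq => rw [map_add, map_add, map_add, map_add, hp, hq]
  | mul_X p n hp =>
    rw [Derivation.leibniz, map_add, smul_eq_mul, smul_eq_mul, map_mul, map_mul, map_mul, hp, Derivation.leibniz, smul_eq_mul,
      smul_eq_mul]
    congr 2
    rcases n with ⟨i, n⟩ | ⟨i, n⟩
    · rw [PW_inl, phi_inl, phi_inl, dS_gS, shift99]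
    · rw [PW_inr, phi_inr, phi_inr, dS_gT, shift99]

theorem phi_PU (w z : Fin 3 → ℕ → ℂ) (F : P) : phi w z (PU F) = dT (phi w z F) := by
  induction F using MvPolynomial.induction_on with
  | C c =>
    have h1 : phi w z (C c) = algebraMap ℝ B2 c := (phi w z).commutes c
    rw [PU_C, map_zero, h1]
    exact (dT.map_algebraMap c).symm
  | add p q hp hq => rw [map_add, map_add, map_add, map_add, hp, hq]
  | mul_X p n hp =>
    rw [Derivation.leibniz, map_add, smul_eq_mul, smul_eq_mul, map_mul, map_mul, map_mul, hp, Derivation.leibniz, smul_eq_mul,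
      smul_eq_mul]
    congr 2
    rcases n with ⟨i, n⟩ | ⟨i, n⟩
    · rw [PU_inl, phi_inl, phi_inl, dT_gS, shift99]
    · rw [PU_inr, map_neg, phi_inr, phi_inr, dT_gT, shift99]

/-- the constant term of a formal germ -/
theorem phi_const (w z : Fin 3 → ℕ → ℂ) (F : P) : PowerSeries.constantCoeff (PowerSeries.constantCoeff (phi w z F)) =
    MvPolynomial.aeval (pt w z) F := by
  induction F using MvPolynomial.induction_on with
  | C c =>
    have h1 : phi w z (C c) = algebraMap ℝ B2 c := (phi w z).commutes c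
    have h2 : MvPolynomial.aeval (pt w z) (C c : P) = algebraMap ℝ ℂ c :=
      (MvPolynomial.aeval (pt w z)).commutes c
    rw [h1, h2]
    rfl
  | add p q hp hq => rw [map_add, map_add, map_add, map_add, hp, hq]
  | mul_X p n hp =>
    rw [map_mul, map_mul, map_mul, map_mul, hp, MvPolynomial.aeval_X]
    congr 1
    rcases n with ⟨i, n⟩ | ⟨i, n⟩
    · rw [phi_inl, gS_const]
      rfl
    · rw [phi_inr, gT_const]
      rfl

/-- a relation vanishes on a formal germ if all its total derivatives vanish at the point -/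
theorem phi_eq_zero (w z : Fin 3 → ℕ → ℂ) (F : P)
    (h : ∀ m n, MvPolynomial.aeval (pt w z) (PW^[m] (PU^[n] F)) = 0) : phi w z F = 0 := by
  apply eq_zero_of_derivs
  intro m n
  have h1 : ∀ (m : ℕ) (G : P), dS^[m] (phi w z G) = phi w z (PW^[m] G) := by
    intro m
    induction m with
    | zero => intro G; rfl
    | succ m ih => intro G; rw [Function.iterate_succ_apply, ← phi_PW, ih, ← Function.iterate_succ_apply (f := PW)]
  have h2 : ∀ (m : ℕ) (G : P), dT^[m] (phi w z G) = phi w z (PU^[m] G) := by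
    intro m
    induction m with
    | zero => intro G; rfl
    | succ m ih => intro G; rw [Function.iterate_succ_apply, ← phi_PU, ih, ← Function.iterate_succ_apply (f := PU)]
  rw [h2, h1, phi_const]
  exact h m n

/-- evaluation of the first half of the jets: a polynomial in the jets of `b` -/
noncomputable def half (w : Fin 3 → ℕ → ℂ) : P →ₐ[ℝ] MvPolynomial (Fin 3 × ℕ) ℂ :=
  MvPolynomial.aeval (Sum.elim (fun x => C (w x.1 x.2)) fun x => X x)

theorem half_eval (w z : Fin 3 → ℕ → ℂ) (F : P) :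
    MvPolynomial.eval (fun x => z x.1 x.2) (half w F) = MvPolynomial.aeval (pt w z) F := by
  induction F using MvPolynomial.induction_on with
  | C c =>
    have h1 : half w (C c) = algebraMap ℝ (MvPolynomial (Fin 3 × ℕ) ℂ) c := (half w).commutes c
    have h2 : MvPolynomial.aeval (pt w z) (C c : P) = algebraMap ℝ ℂ c :=
      (MvPolynomial.aeval (pt w z)).commutes c
    rw [h1, h2]
    have h3 : algebraMap ℝ (MvPolynomial (Fin 3 × ℕ) ℂ) c = C (c : ℂ) := rfl
    rw [h3, MvPolynomial.eval_C]
    rfl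
  | add p q hp hq => rw [map_add, map_add, map_add, hp, hq]
  | mul_X p n hp =>
    rw [map_mul, map_mul, map_mul, hp, MvPolynomial.aeval_X, half, MvPolynomial.aeval_X]
    rcases n with ⟨i, n⟩ | ⟨i, n⟩
    · rw [Sum.elim_inl, MvPolynomial.eval_C]
      rfl
    · rw [Sum.elim_inr, MvPolynomial.eval_X]
      rfl

/-- a real value -/
theorem real_eval (w z : Fin 3 → ℕ → ℝ) (F : P) :
    MvPolynomial.aeval (pt (fun i n => (w i n : ℂ)) fun i n => (z i n : ℂ)) F =
      ((MvPolynomial.aeval (pt w z) F : ℝ) : ℂ) := by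
  induction F using MvPolynomial.induction_on with
  | C c =>
    have h1 : MvPolynomial.aeval (pt w z) (C c : P) = algebraMap ℝ ℝ c :=
      (MvPolynomial.aeval (pt w z)).commutes c
    have h2 : MvPolynomial.aeval (pt (fun i n => (w i n : ℂ)) fun i n => (z i n : ℂ)) (C c : P) = algebraMap ℝ ℂ c :=
      (MvPolynomial.aeval (pt (fun i n => (w i n : ℂ)) fun i n => (z i n : ℂ))).commutes c
    rw [h1, h2]
    rfl
  | add p q hp hq => rw [map_add, map_add, hp, hq, Complex.ofReal_add]
  | mul_X p n hp =>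
    rw [map_mul, map_mul, hp, MvPolynomial.aeval_X, MvPolynomial.aeval_X, Complex.ofReal_mul]
    rcases n with ⟨i, n⟩ | ⟨i, n⟩
    · rfl
    · rfl

section transfer

variable {I J : Set ℝ} {a b : Fin 3 → ℕ → ℝ → ℝ}

/-- the chain rule in `s` -/
theorem hasDerivAt_PS (ha : ∀ i n, ∀ s ∈ I, HasDerivAt (a i n) (a i (n + 1) s) s) (z : Fin 3 → ℕ → ℝ) (F : P) {s : ℝ}
    (hs : s ∈ I) :
    HasDerivAt (fun s => MvPolynomial.aeval (pt (fun i n => a i n s) z) F)
      (MvPolynomial.aeval (pt (fun i n => a i n s) z) (PS F)) s := by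
  induction F using MvPolynomial.induction_on with
  | C c =>
    rw [PS_C, map_zero]
    have h1 : (fun s => MvPolynomial.aeval (pt (fun i n => a i n s) z) (C c : P)) = fun _ => c := by
      funext s
      exact (MvPolynomial.aeval (pt (fun i n => a i n s) z)).commutes c
    rw [h1]
    exact hasDerivAt_const s c
  | add F G hF hG =>
    simp only [map_add]
    exact hF.add hG
  | mul_X F n hF =>
    rw [Derivation.leibniz, map_add, smul_eq_mul, smul_eq_mul, map_mul, map_mul]
    simp only [map_mul, MvPolynomial.aeval_X]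
    rcases n with ⟨i, n⟩ | ⟨i, n⟩
    · rw [PS_inl, MvPolynomial.aeval_X]
      have h1 := hF.mul (ha i n s hs)
      refine h1.congr_deriv ?_
      simp only [pt, Sum.elim_inl]
      ring
    · rw [PS_inr, map_zero]
      have h1 := hF.mul_const (z i n)
      refine h1.congr_deriv ?_
      simp only [pt, Sum.elim_inr]
      ring

/-- the chain rule in `t` -/
theorem hasDerivAt_PT (hb : ∀ i n, ∀ t ∈ J, HasDerivAt (b i n) (b i (n + 1) t) t) (w : Fin 3 → ℕ → ℝ) (F : P) {t : ℝ}
    (ht : t ∈ J) :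
    HasDerivAt (fun t => MvPolynomial.aeval (pt w fun i n => b i n t) F)
      (MvPolynomial.aeval (pt w fun i n => b i n t) (PT F)) t := by
  induction F using MvPolynomial.induction_on with
  | C c =>
    rw [PT_C, map_zero]
    have h1 : (fun t => MvPolynomial.aeval (pt w fun i n => b i n t) (C c : P)) = fun _ => c := by
      funext t
      exact (MvPolynomial.aeval (pt w fun i n => b i n t)).commutes c
    rw [h1]
    exact hasDerivAt_const t c
  | add F G hF hG =>
    simp only [map_add]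
    exact hF.add hG
  | mul_X F n hF =>
    rw [Derivation.leibniz, map_add, smul_eq_mul, smul_eq_mul, map_mul, map_mul]
    simp only [map_mul, MvPolynomial.aeval_X]
    rcases n with ⟨i, n⟩ | ⟨i, n⟩
    · rw [PT_inl, map_zero]
      have h1 := hF.mul_const (w i n)
      refine h1.congr_deriv ?_
      simp only [pt, Sum.elim_inl]
      ring
    · rw [PT_inr, MvPolynomial.aeval_X]
      have h1 := hF.mul (hb i n t ht)
      refine h1.congr_deriv ?_
      simp only [pt, Sum.elim_inr]
      ring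

/-- a relation between the real jets on a rectangle can be differentiated -/
theorem relation_derivs (hI : IsOpen I) (hJ : IsOpen J) (ha : ∀ i n, ∀ s ∈ I, HasDerivAt (a i n) (a i (n + 1) s) s)
    (hb : ∀ i n, ∀ t ∈ J, HasDerivAt (b i n) (b i (n + 1) t) t) (F : P)
    (hF : ∀ s ∈ I, ∀ t ∈ J, MvPolynomial.aeval (pt (fun i n => a i n s) fun i n => b i n t) F = 0) (m k : ℕ) :
    ∀ s ∈ I, ∀ t ∈ J, MvPolynomial.aeval (pt (fun i n => a i n s) fun i n => b i n t) (PW^[m] (PU^[k] F)) = 0 := by
  have h1 : ∀ G : P, (∀ s ∈ I, ∀ t ∈ J, MvPolynomial.aeval (pt (fun i n => a i n s) fun i n => b i n t) G = 0) →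
      ∀ s ∈ I, ∀ t ∈ J, MvPolynomial.aeval (pt (fun i n => a i n s) fun i n => b i n t) (PS G) = 0 := by
    intro G hG s hs t ht
    have h2 := hasDerivAt_PS ha (fun i n => b i n t) G hs
    have h3 : (fun s => MvPolynomial.aeval (pt (fun i n => a i n s) fun i n => b i n t) G) =ᶠ[nhds s]
        fun _ => (0 : ℝ) := by
      filter_upwards [hI.mem_nhds hs] with x hx using hG x hx t ht
    exact h2.unique ((hasDerivAt_const s (0 : ℝ)).congr_of_eventuallyEq h3)
  have h1' : ∀ G : P, (∀ s ∈ I, ∀ t ∈ J, MvPolynomial.aeval (pt (fun i n => a i n s) fun i n => b i n t) G = 0) →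
      ∀ s ∈ I, ∀ t ∈ J, MvPolynomial.aeval (pt (fun i n => a i n s) fun i n => b i n t) (PT G) = 0 := by
    intro G hG s hs t ht
    have h2 := hasDerivAt_PT hb (fun i n => a i n s) G ht
    have h3 : (fun t => MvPolynomial.aeval (pt (fun i n => a i n s) fun i n => b i n t) G) =ᶠ[nhds t]
        fun _ => (0 : ℝ) := by
      filter_upwards [hJ.mem_nhds ht] with x hx using hG s hs x hx
    exact h2.unique ((hasDerivAt_const t (0 : ℝ)).congr_of_eventuallyEq h3)
  have h4 : ∀ k : ℕ, ∀ s ∈ I, ∀ t ∈ J,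
      MvPolynomial.aeval (pt (fun i n => a i n s) fun i n => b i n t) (PU^[k] F) = 0 := by
    intro k
    induction k with
    | zero => exact hF
    | succ k ih =>
      intro s hs t ht
      rw [Function.iterate_succ_apply', PU_apply, map_sub, h1 _ ih s hs t ht, h1' _ ih s hs t ht, sub_zero]
  induction m with
  | zero => exact h4 k
  | succ m ih =>
    intro s hs t ht
    rw [Function.iterate_succ_apply', PW_apply, map_add, h1 _ ih s hs t ht, h1' _ ih s hs t ht, add_zero]

/-- a relation in the jets of `b` (for a fixed real jet `w`) holds at every generalised point -/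
theorem transfer_pt {J' : Set ℝ} (w : Fin 3 → ℕ → ℝ) (F : P)
    (hF : ∀ t ∈ J', MvPolynomial.aeval (pt w fun i n => b i n t) F = 0) (z : Fin 3 → ℕ → ℂ)
    (hz : ∀ G : MvPolynomial (Fin 3 × ℕ) ℂ, (∀ t ∈ J', MvPolynomial.eval (fun x => (b x.1 x.2 t : ℂ)) G = 0) →
      MvPolynomial.eval (fun x => z x.1 x.2) G = 0) :
    MvPolynomial.aeval (pt (fun i n => (w i n : ℂ)) z) F = 0 := by
  rw [← half_eval]
  apply hz
  intro t ht
  have h1 := half_eval (fun i n => (w i n : ℂ)) (fun i n => (b i n t : ℂ)) F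
  rw [h1, real_eval w (fun i n => b i n t), hF t ht, Complex.ofReal_zero]

/-- **Transfer**: a relation between the real jets of `a` and `b` on a rectangle holds for the formal germ whose jet in `s` is that
of `a` at a point `s0` and whose jet in `t` is a generalised point of the jets of `b` (on a subset `J'` of `J`). -/
theorem transfer (hI : IsOpen I) (hJ : IsOpen J) (ha : ∀ i n, ∀ s ∈ I, HasDerivAt (a i n) (a i (n + 1) s) s)
    (hb : ∀ i n, ∀ t ∈ J, HasDerivAt (b i n) (b i (n + 1) t) t) (F : P)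
    (hF : ∀ s ∈ I, ∀ t ∈ J, MvPolynomial.aeval (pt (fun i n => a i n s) fun i n => b i n t) F = 0)
    {s0 : ℝ} (hs0 : s0 ∈ I) {J' : Set ℝ} (hJ' : J' ⊆ J) (z : Fin 3 → ℕ → ℂ)
    (hz : ∀ G : MvPolynomial (Fin 3 × ℕ) ℂ, (∀ t ∈ J', MvPolynomial.eval (fun x => (b x.1 x.2 t : ℂ)) G = 0) →
      MvPolynomial.eval (fun x => z x.1 x.2) G = 0) :
    phi (fun i n => (a i n s0 : ℂ)) z F = 0 := by
  apply phi_eq_zero
  intro m k
  exact transfer_pt (fun i n => a i n s0) _
    (fun t ht => relation_derivs hI hJ ha hb F hF m k s0 hs0 t (hJ' ht)) z hz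

end transfer

end Pool.Agent.Helper99.TR3
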