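import Pool.Agent.Helper99.TR.Cyl
import Pool.Agent.Helper33.TS.Surf
import Pool.Agent.Helper33.TS.Sym

/-!
# Block F: translation surfaces with a constant generator (cylinders) (project TR, MP_078326_gt)

`m = det (a', a, e)`, `D = 1 - ⟨a, e⟩²`. If `m² = C D³` with `C > 0` then `f^⊥ + (D / m) (a × e)` is constant and
`|(D / m) (a × e)|² = D³ / m² = 1 / C`, so `f` lies on a circular cylinder with the axis direction `e`.
-/

set_option autoImplicit false

open Pool.Agent.Helper99.TR Pool.Agent.Helper33.TS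

namespace Pool.Agent.Helper99.TR3

/-- the cross product -/
def cr (a b : Fin 3 → ℝ) : Fin 3 → ℝ := ![a 1 * b 2 - a 2 * b 1, a 2 * b 0 - a 0 * b 2, a 0 * b 1 - a 1 * b 0]

/-- the determinant `det (a', a, e)` -/
def mr3 (a' a e : Fin 3 → ℝ) : ℝ :=
  a' 0 * (a 1 * e 2 - a 2 * e 1) + a' 1 * (a 2 * e 0 - a 0 * e 2) + a' 2 * (a 0 * e 1 - a 1 * e 0)

private theorem cross_id99 {a a' e : Fin 3 → ℝ} (haa : dot a a = 1) (hee : dot e e = 1) (ha' : dot a a' = 0) (i : Fin 3) :
    mr3 a' a e * (a i - dot a e * e i) + dot a e * dot a' e * cr a e i + (1 - dot a e ^ 2) * cr a' e i = 0 := by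
  simp only [dot] at haa hee ha'
  fin_cases i
  · simp only [mr3, cr, dot, Fin.zero_eta, Matrix.cons_val_zero]
    linear_combination (a' 2 * e 1 - a' 1 * e 2) * haa
      + (a 0 * e 0 + a 1 * e 1 + a 2 * e 2) * (a 1 * a' 2 - a 2 * a' 1) * hee
      + (a 1 * e 2 - a 2 * e 1) * ha'
  · simp only [mr3, cr, dot, Fin.mk_one, Matrix.cons_val_one, Matrix.cons_val]
    linear_combination (a' 0 * e 2 - a' 2 * e 0) * haa
      + (a 0 * e 0 + a 1 * e 1 + a 2 * e 2) * (a 2 * a' 0 - a 0 * a' 2) * hee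
      + (a 2 * e 0 - a 0 * e 2) * ha'
  · simp only [mr3, cr, dot, Fin.reduceFinMk, Matrix.cons_val]
    linear_combination (a' 1 * e 0 - a' 0 * e 1) * haa
      + (a 0 * e 0 + a 1 * e 1 + a 2 * e 2) * (a 0 * a' 1 - a 1 * a' 0) * hee
      + (a 0 * e 1 - a 1 * e 0) * ha'

private theorem qq99 {a a' b b' : Fin 3 → ℝ} (haa : dot a a = 1) (hbb : dot b b = 1) (ha' : dot a a' = 0)
    (hb' : dot b b' = 0) (hm : mr3 (fun i => a' i + b' i) a b = 0) (i : Fin 3) :
    (1 - dot a b ^ 2) * (a' i + b' i) + (dot a b * dot a' b - dot a b') * a i + (dot a b * dot a b' - dot a' b) * b i = 0 := by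
  simp only [dot, mr3] at haa hbb ha' hb' hm ⊢
  fin_cases i
  · simp only [Fin.zero_eta]
    linear_combination (-(b 0 * b 0 + b 1 * b 1 + b 2 * b 2) * (a' 0 + b' 0)
        + ((a' 0 + b' 0) * b 0 + (a' 1 + b' 1) * b 1 + (a' 2 + b' 2) * b 2) * b 0) * haa
      + (-(a' 0 + b' 0) + ((a' 0 + b' 0) * a 0 + (a' 1 + b' 1) * a 1 + (a' 2 + b' 2) * a 2) * a 0) * hbb
      + (a 0 - (a 0 * b 0 + a 1 * b 1 + a 2 * b 2) * b 0) * ha'
      + (b 0 - (a 0 * b 0 + a 1 * b 1 + a 2 * b 2) * a 0) * hb'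
      + (a 1 * b 2 - a 2 * b 1) * hm
  · simp only [Fin.mk_one]
    linear_combination (-(b 0 * b 0 + b 1 * b 1 + b 2 * b 2) * (a' 1 + b' 1)
        + ((a' 0 + b' 0) * b 0 + (a' 1 + b' 1) * b 1 + (a' 2 + b' 2) * b 2) * b 1) * haa
      + (-(a' 1 + b' 1) + ((a' 0 + b' 0) * a 0 + (a' 1 + b' 1) * a 1 + (a' 2 + b' 2) * a 2) * a 1) * hbb
      + (a 1 - (a 0 * b 0 + a 1 * b 1 + a 2 * b 2) * b 1) * ha'
      + (b 1 - (a 0 * b 0 + a 1 * b 1 + a 2 * b 2) * a 1) * hb'
      + (a 2 * b 0 - a 0 * b 2) * hm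
  · simp only [Fin.reduceFinMk]
    linear_combination (-(b 0 * b 0 + b 1 * b 1 + b 2 * b 2) * (a' 2 + b' 2)
        + ((a' 0 + b' 0) * b 0 + (a' 1 + b' 1) * b 1 + (a' 2 + b' 2) * b 2) * b 2) * haa
      + (-(a' 2 + b' 2) + ((a' 0 + b' 0) * a 0 + (a' 1 + b' 1) * a 1 + (a' 2 + b' 2) * a 2) * a 2) * hbb
      + (a 2 - (a 0 * b 0 + a 1 * b 1 + a 2 * b 2) * b 2) * ha'
      + (b 2 - (a 0 * b 0 + a 1 * b 1 + a 2 * b 2) * a 2) * hb'
      + (a 0 * b 1 - a 1 * b 0) * hm

private theorem const_on99 {I : Set ℝ} (hI : IsOpen I) (hc : IsPreconnected I) {F : ℝ → ℝ}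
    (hF : ∀ s ∈ I, HasDerivAt F 0 s) {s t : ℝ} (hs : s ∈ I) (ht : t ∈ I) : F s = F t :=
  hI.is_const_of_deriv_eq_zero hc (fun x hx => (hF x hx).differentiableAt.differentiableWithinAt)
    (fun x hx => (hF x hx).deriv) hs ht

section core

variable {I J : Set ℝ} {a : Fin 3 → ℕ → ℝ → ℝ}

theorem val1_av (a : Fin 3 → ℕ → ℝ → ℝ) (s : ℝ) (i : Fin 3) : val1 a s (av i) = a i 0 s := by
  rw [val1, av, MvPolynomial.aeval_X]

theorem val1_X (a : Fin 3 → ℕ → ℝ → ℝ) (s : ℝ) (i : Fin 3) (n : ℕ) : val1 a s (MvPolynomial.X (i, n)) = a i n s := by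
  rw [val1, MvPolynomial.aeval_X]

theorem val1_cv (a : Fin 3 → ℕ → ℝ → ℝ) (s : ℝ) (e : Fin 3 → ℝ) (i : Fin 3) : val1 a s (cv e i) = e i :=
  (MvPolynomial.aeval (fun x : Fin 3 × ℕ => a x.1 x.2 s)).commutes (e i)

theorem val1_add (a : Fin 3 → ℕ → ℝ → ℝ) (s : ℝ) (F G : P1) : val1 a s (F + G) = val1 a s F + val1 a s G := map_add _ _ _

theorem val1_sub (a : Fin 3 → ℕ → ℝ → ℝ) (s : ℝ) (F G : P1) : val1 a s (F - G) = val1 a s F - val1 a s G := map_sub _ _ _

theorem val1_mul (a : Fin 3 → ℕ → ℝ → ℝ) (s : ℝ) (F G : P1) : val1 a s (F * G) = val1 a s F * val1 a s G := map_mul _ _ _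

theorem val1_pow (a : Fin 3 → ℕ → ℝ → ℝ) (s : ℝ) (F : P1) (n : ℕ) : val1 a s (F ^ n) = val1 a s F ^ n := map_pow _ _ _

theorem val1_one (a : Fin 3 → ℕ → ℝ → ℝ) (s : ℝ) : val1 a s 1 = 1 := map_one _

theorem D1_av (i : Fin 3) : D1 (av i) = MvPolynomial.X (i, 1) := D1_X i 0

theorem D1_cv (e : Fin 3 → ℝ) (i : Fin 3) : D1 (cv e i) = 0 := D1_C (e i)

theorem val1_mm (a : Fin 3 → ℕ → ℝ → ℝ) (s : ℝ) (e : Fin 3 → ℝ) :
    val1 a s (mm D1 av (cv e)) = mr3 (fun i => a i 1 s) (fun i => a i 0 s) e := by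
  simp only [mm, map_sub, D1_av, D1_cv, sub_zero, val1_add, val1_sub, val1_mul, val1_X, val1_av, val1_cv, mr3]

theorem val1_D (a : Fin 3 → ℕ → ℝ → ℝ) (s : ℝ) (e : Fin 3 → ℝ) :
    val1 a s (UU av (cv e) * VV av (cv e)) = 1 - dot (fun i => a i 0 s) e ^ 2 := by
  simp only [UU, VV, dot, val1_add, val1_sub, val1_mul, val1_one, val1_av, val1_cv]
  ring

theorem val1_D1D (a : Fin 3 → ℕ → ℝ → ℝ) (s : ℝ) (e : Fin 3 → ℝ) :
    val1 a s (D1 (UU av (cv e) * VV av (cv e))) =
      -2 * dot (fun i => a i 0 s) e * dot (fun i => a i 1 s) e := by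
  simp only [UU, VV, dot, map_add, map_sub, Derivation.leibniz, Derivation.map_one_eq_zero, smul_eq_mul, D1_av, D1_cv,
    val1_add, val1_sub, val1_mul, val1_one, val1_av, val1_cv, val1_X, mul_zero, zero_add, zero_sub]
  have h0 : val1 a s 0 = 0 := map_zero _
  have hneg : ∀ F : P1, val1 a s (-F) = -val1 a s F := fun F => map_neg _ F
  simp only [hneg, val1_add, val1_mul, val1_X, val1_cv]
  ring

theorem unit_orth (hI : IsOpen I) (ha : ∀ i n, ∀ s ∈ I, HasDerivAt (a i n) (a i (n + 1) s) s)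
    (haa : ∀ s ∈ I, dot (fun i => a i 0 s) (fun i => a i 0 s) = 1) {s : ℝ} (hs : s ∈ I) :
    dot (fun i => a i 0 s) (fun i => a i 1 s) = 0 := by
  have h := hasDerivAt_D1 ha (dot av av) hs
  have h1 : (fun s => val1 a s (dot av av)) =ᶠ[nhds s] fun _ => (1 : ℝ) := by
    filter_upwards [hI.mem_nhds hs] with x hx
    simp only [dot, val1_add, val1_mul, val1_av]
    exact haa x hx
  have h2 := h.unique ((hasDerivAt_const s (1 : ℝ)).congr_of_eventuallyEq h1)
  simp only [dot, map_add, Derivation.leibniz, smul_eq_mul, D1_av, val1_add, val1_mul, val1_av, val1_X] at h2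
  simp only [dot]
  linarith

theorem core (hI : IsOpen I) (hIc : IsPreconnected I) (hJ : IsOpen J) (hJc : IsPreconnected J)
    (ha : ∀ i n, ∀ s ∈ I, HasDerivAt (a i n) (a i (n + 1) s) s)
    (haa : ∀ s ∈ I, dot (fun i => a i 0 s) (fun i => a i 0 s) = 1) {e : Fin 3 → ℝ} (he : dot e e = 1)
    (hD : ∀ s ∈ I, UU (fun i => a i 0 s) e * VV (fun i => a i 0 s) e ≠ 0) (k : ℕ) (c : ℕ → ℝ)
    (hrel : ∀ i, ∀ s ∈ I, val1 a s (Rel1 e k c i) = 0) (f : ℝ → ℝ → Fin 3 → ℝ)
    (f1 : ∀ s ∈ I, ∀ t ∈ J, ∀ i, HasDerivAt (fun x => f x t i) (a i 0 s) s)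
    (f2 : ∀ s ∈ I, ∀ t ∈ J, ∀ i, HasDerivAt (fun x => f s x i) (e i) t) :
    (∀ s ∈ I, mr3 (fun i => a i 1 s) (fun i => a i 0 s) e = 0) ∨
    ∃ (z : Fin 3 → ℝ) (r : ℝ), 0 < r ∧ dot z e = 0 ∧ ∀ s ∈ I, ∀ t ∈ J,
      dot (fun i => f s t i - dot (f s t) e * e i - z i) (fun i => f s t i - dot (f s t) e * e i - z i) = r ^ 2 := by
  by_cases hz : ∀ s ∈ I, mr3 (fun i => a i 1 s) (fun i => a i 0 s) e = 0
  · exact Or.inl hz
  right
  push Not at hz
  obtain ⟨s1, hs1, hm1⟩ := hz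
  obtain ⟨m, hm⟩ : ∃ m : ℝ → ℝ, m = fun s => mr3 (fun i => a i 1 s) (fun i => a i 0 s) e := ⟨_, rfl⟩
  obtain ⟨D, hDd⟩ : ∃ D : ℝ → ℝ, D = fun s => 1 - dot (fun i => a i 0 s) e ^ 2 := ⟨_, rfl⟩
  obtain ⟨m', hm'⟩ : ∃ m' : ℝ → ℝ, m' = fun s => val1 a s (D1 (mm D1 av (cv e))) := ⟨_, rfl⟩
  obtain ⟨D', hD'⟩ : ∃ D' : ℝ → ℝ, D' = fun s => -2 * dot (fun i => a i 0 s) e * dot (fun i => a i 1 s) e := ⟨_, rfl⟩
  have dm : ∀ s ∈ I, HasDerivAt m (m' s) s := by
    intro s hs
    have h := hasDerivAt_D1 ha (mm D1 av (cv e)) hs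
    simp only [val1_mm] at h
    rw [hm, hm']
    exact h
  have dD : ∀ s ∈ I, HasDerivAt D (D' s) s := by
    intro s hs
    have h := hasDerivAt_D1 ha (UU av (cv e) * VV av (cv e)) hs
    simp only [val1_D, val1_D1D] at h
    rw [hDd, hD']
    exact h
  have hK : ∀ s ∈ I, 2 * m s * m' s * D s = 3 * m s ^ 2 * D' s := by
    intro s hs
    have h := curv_const hI ha haa he hD k c hrel hs
    rw [Kd] at h
    simp only [val1_sub, val1_mul, val1_pow] at h
    have h2 := val1_D a s e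
    rw [val1_mul] at h2
    have e2 : val1 a s 2 = 2 := map_ofNat _ 2
    have e3 : val1 a s 3 = 3 := map_ofNat _ 3
    rw [h2, val1_mm, val1_D1D, e2, e3] at h
    rw [hm, hm', hDd, hD']
    linear_combination h
  have hDpos : ∀ s ∈ I, 0 < D s := by
    intro s hs
    have h1 := hD s hs
    have h2 : UU (fun i => a i 0 s) e * VV (fun i => a i 0 s) e = D s := by
      rw [hDd]
      unfold UU VV
      ring
    rw [h2] at h1
    refine lt_of_le_of_ne ?_ (Ne.symm h1)
    have h3 := haa s hs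
    have h4 := he
    rw [hDd]
    simp only [dot] at h3 h4 ⊢
    nlinarith [sq_nonneg (a 0 0 s * e 1 - a 1 0 s * e 0), sq_nonneg (a 0 0 s * e 2 - a 2 0 s * e 0),
      sq_nonneg (a 1 0 s * e 2 - a 2 0 s * e 1)]
  have hms1 : m s1 ≠ 0 := by
    rw [hm]
    exact hm1
  obtain ⟨C, hC⟩ : ∃ C, C = m s1 ^ 2 / D s1 ^ 3 := ⟨_, rfl⟩
  have hCpos : 0 < C := by
    rw [hC]
    exact div_pos (by positivity) (pow_pos (hDpos s1 hs1) 3)
  have hmC : ∀ s ∈ I, m s ^ 2 = C * D s ^ 3 := by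
    intro s hs
    have h1 : ∀ x ∈ I, HasDerivAt (fun s => m s ^ 2 / D s ^ 3) 0 x := by
      intro x hx
      have h2 := ((dm x hx).pow 2).div ((dD x hx).pow 3) (pow_ne_zero 3 (hDpos x hx).ne')
      refine h2.congr_deriv ?_
      have h3 := hK x hx
      rw [div_eq_zero_iff]
      left
      push_cast
      simp only [pow_one, Pi.pow_apply]
      linear_combination D x ^ 2 * h3
    have h2 := const_on99 hI hIc h1 hs hs1
    rw [← hC] at h2
    have h4 : m s ^ 2 / D s ^ 3 = C := h2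
    rw [div_eq_iff (pow_ne_zero 3 (hDpos s hs).ne')] at h4
    exact h4
  have hm0 : ∀ s ∈ I, m s ≠ 0 := by
    intro s hs h
    have h1 := hmC s hs
    rw [h] at h1
    have h2 : 0 < C * D s ^ 3 := mul_pos hCpos (pow_pos (hDpos s hs) 3)
    rw [← h1] at h2
    norm_num at h2
  have hK2 : ∀ s ∈ I, 2 * m' s * D s = 3 * m s * D' s := by
    intro s hs
    apply mul_left_cancel₀ (hm0 s hs)
    linear_combination hK s hs
  have haa' : ∀ s ∈ I, dot (fun i => a i 0 s) (fun i => a i 1 s) = 0 := fun s hs => unit_orth hI ha haa hs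
  obtain ⟨g, hg⟩ : ∃ g : Fin 3 → ℝ → ℝ → ℝ, g = fun i s t => f s t i - dot (f s t) e * e i +
    D s / m s * cr (fun i => a i 0 s) e i := ⟨_, rfl⟩
  have dcr : ∀ i, ∀ s ∈ I, HasDerivAt (fun s => cr (fun i => a i 0 s) e i) (cr (fun i => a i 1 s) e i) s := by
    intro i s hs
    have h0 := ha 0 0 s hs
    have h1 := ha 1 0 s hs
    have h2 := ha 2 0 s hs
    fin_cases i
    · exact (h1.mul_const (e 2)).sub (h2.mul_const (e 1))
    · exact (h2.mul_const (e 0)).sub (h0.mul_const (e 2))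
    · exact (h0.mul_const (e 1)).sub (h1.mul_const (e 0))
  have dg1 : ∀ i, ∀ t ∈ J, ∀ s ∈ I, HasDerivAt (fun s => g i s t) 0 s := by
    intro i t ht s hs
    rw [hg]
    have h1 := f1 s hs t ht
    have h2 := ((h1 0).mul_const (e 0)).add (((h1 1).mul_const (e 1)).add ((h1 2).mul_const (e 2)))
    have h3 := ((dD s hs).div (dm s hs) (hm0 s hs)).mul (dcr i s hs)
    have h4 := ((h1 i).sub (h2.mul_const (e i))).add h3
    have h5 : (fun s => f s t i - dot (f s t) e * e i + D s / m s * cr (fun i => a i 0 s) e i) =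
        fun s => f s t i - (f s t 0 * e 0 + (f s t 1 * e 1 + f s t 2 * e 2)) * e i +
          D s / m s * cr (fun i => a i 0 s) e i := by
      funext s
      simp only [dot]
      ring
    simp only [h5]
    refine HasDerivAt.congr_deriv h4 ?_
    have h6 := cross_id99 (haa s hs) he (haa' s hs) i
    have h7 := hK2 s hs
    have h8 : (1 - dot (fun i => a i 0 s) e ^ 2) = D s := by rw [hDd]
    have h9 : dot (fun i => a i 0 s) e * dot (fun i => a i 1 s) e = -D' s / 2 := by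
      rw [hD']
      ring
    have h10 : mr3 (fun i => a i 1 s) (fun i => a i 0 s) e = m s := by rw [hm]
    rw [h8, h9, h10] at h6
    have hms := hm0 s hs
    simp only [dot, Pi.div_apply] at h6 ⊢
    field_simp
    linear_combination m s * h6 - cr (fun i => a i 0 s) e i * h7 / 2
  have dg2 : ∀ i, ∀ s ∈ I, ∀ t ∈ J, HasDerivAt (fun t => g i s t) 0 t := by
    intro i s hs t ht
    rw [hg]
    have h1 := f2 s hs t ht
    have h2 := ((h1 0).mul_const (e 0)).add (((h1 1).mul_const (e 1)).add ((h1 2).mul_const (e 2)))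
    have h4 := ((h1 i).sub (h2.mul_const (e i))).add_const (D s / m s * cr (fun i => a i 0 s) e i)
    have h5 : (fun t => f s t i - dot (f s t) e * e i + D s / m s * cr (fun i => a i 0 s) e i) =
        fun t => f s t i - (f s t 0 * e 0 + (f s t 1 * e 1 + f s t 2 * e 2)) * e i +
          D s / m s * cr (fun i => a i 0 s) e i := by
      funext t
      simp only [dot]
      ring
    simp only [h5]
    refine HasDerivAt.congr_deriv h4 ?_
    simp only [dot] at he
    linear_combination -e i * he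
  rcases J.eq_empty_or_nonempty with hJe | ⟨t1, ht1⟩
  · refine ⟨0, 1, one_pos, by simp [dot], fun s _ t ht => ?_⟩
    rw [hJe] at ht
    exact absurd ht (Set.notMem_empty t)
  have hgc : ∀ i, ∀ s ∈ I, ∀ t ∈ J, g i s t = g i s1 t1 := by
    intro i s hs t ht
    rw [const_on99 hI hIc (dg1 i t ht) hs hs1, const_on99 hJ hJc (dg2 i s1 hs1) ht ht1]
  refine ⟨fun i => g i s1 t1, (Real.sqrt C)⁻¹, inv_pos.2 (Real.sqrt_pos.2 hCpos), ?_, ?_⟩
  · rw [hg]
    simp only [dot, cr, Matrix.cons_val_zero, Matrix.cons_val_one, Matrix.cons_val] at he ⊢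
    linear_combination (-(f s1 t1 0 * e 0 + f s1 t1 1 * e 1 + f s1 t1 2 * e 2)) * he
  · intro s hs t ht
    have h1 : ∀ i, f s t i - dot (f s t) e * e i - g i s1 t1 = -(D s / m s * cr (fun i => a i 0 s) e i) := by
      intro i
      rw [← hgc i s hs t ht, hg]
      ring
    simp only [h1]
    have h2 := hmC s hs
    have h3 := haa s hs
    have h4 : D s = 1 - dot (fun i => a i 0 s) e ^ 2 := by rw [hDd]
    have h5 : dot (cr (fun i => a i 0 s) e) (cr (fun i => a i 0 s) e) = D s := by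
      rw [h4]
      simp only [dot, cr, Matrix.cons_val_zero, Matrix.cons_val_one, Matrix.cons_val] at he h3 ⊢
      linear_combination (e 0 * e 0 + e 1 * e 1 + e 2 * e 2) * h3 + he
    have h6 : dot (fun i => -(D s / m s * cr (fun i => a i 0 s) e i)) (fun i => -(D s / m s * cr (fun i => a i 0 s) e i)) =
        (D s / m s) ^ 2 * dot (cr (fun i => a i 0 s) e) (cr (fun i => a i 0 s) e) := by
      simp only [dot]
      ring
    rw [h6, h5, inv_pow, Real.sq_sqrt hCpos.le]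
    have hms := hm0 s hs
    have hDs := (hDpos s hs).ne'
    have hC0 := hCpos.ne'
    rw [div_pow, div_mul_eq_mul_div, div_eq_iff (pow_ne_zero 2 hms), h2]
    field_simp

end core

section final

open Pool.Agent.Helper33.TT (E3)
open Pool.Agent.Helper44.FT (Sf)

variable {I J : Set ℝ} {f : ℝ × ℝ → E3} {a b : Fin 3 → ℕ → ℝ → ℝ} {E F G : ℝ × ℝ → ℝ}
  {L : (ℝ × ℝ → E3) → ℝ × ℝ → E3}

/-- `f` is minimal where `det (a' + b', a, b)` vanishes -/
theorem L_zero (T : Td I J f a b) (S : Sf (I ×ˢ J) f E F G L) {s t : ℝ} (hs : s ∈ I) (ht : t ∈ J)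
    (hm : mr3 (fun i => a i 1 s + b i 1 t) (fun i => a i 0 s) (fun i => b i 0 t) = 0) : L f (s, t) = 0 := by
  have haa := T.haa s hs
  have hbb := T.hbb t ht
  have ha' := unit_orth T.hI T.ha T.haa hs
  have hb' := unit_orth T.hJ T.hb T.hbb ht
  obtain ⟨V, hV⟩ : ∃ V : P → ℝ, V = fun F => MvPolynomial.aeval (pt (fun i n => a i n s) fun i n => b i n t) F := ⟨_, rfl⟩
  have Vadd : ∀ x y, V (x + y) = V x + V y := fun x y => by rw [hV]; exact map_add _ _ _
  have Vsub : ∀ x y, V (x - y) = V x - V y := fun x y => by rw [hV]; exact map_sub _ _ _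
  have Vmul : ∀ x y, V (x * y) = V x * V y := fun x y => by rw [hV]; exact map_mul _ _ _
  have Vneg : ∀ x, V (-x) = -V x := fun x => by rw [hV]; exact map_neg _ _
  have Vone : V 1 = 1 := by rw [hV]; exact map_one _
  have Vtwo : V 2 = 2 := by rw [hV]; exact map_ofNat _ 2
  have Vzero : V 0 = 0 := by rw [hV]; exact map_zero _
  have VA : ∀ i n, V (MvPolynomial.X (Sum.inl (i, n))) = a i n s := fun i n => by
    rw [hV]
    exact MvPolynomial.aeval_X _ _
  have VB : ∀ i n, V (MvPolynomial.X (Sum.inr (i, n))) = b i n t := fun i n => by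
    rw [hV]
    exact MvPolynomial.aeval_X _ _
  have hval : ∀ i, V (QQ PU PW gA gB 0 i) = 0 := by
    intro i
    rw [QQ_zero]
    simp only [UU, VV, dot, gA, gB, map_sub, map_add, Derivation.leibniz, Derivation.map_one_eq_zero, smul_eq_mul,
      PU_inl, PU_inr, PW_inl, PW_inr, Vadd, Vsub, Vmul, Vneg, Vone, Vtwo, Vzero, VA, VB]
    have h := qq99 haa hbb ha' hb' hm i
    simp only [dot] at h
    linear_combination 2 * h
  ext i
  have h1 := T.lap_val S i hs ht
  have h2 := hval i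
  simp only [hV] at h2
  rw [h2, mul_zero] at h1
  have h3 : L f (s, t) i = 0 := by linarith
  exact h3

/-- `b = e` constant -/
private noncomputable def thA99 (e : Fin 3 → ℝ) : P →ₐ[ℝ] P1 :=
  MvPolynomial.aeval (Sum.elim (fun x => MvPolynomial.X x) fun x => if x.2 = 0 then cv e x.1 else 0)

/-- `a = e` constant -/
private noncomputable def thB99 (e : Fin 3 → ℝ) : P →ₐ[ℝ] P1 :=
  MvPolynomial.aeval (Sum.elim (fun x => if x.2 = 0 then cv e x.1 else 0) fun x => MvPolynomial.X x)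

private theorem thA_PU99 (e : Fin 3 → ℝ) (H : P) : thA99 e (PU H) = D1 (thA99 e H) := by
  induction H using MvPolynomial.induction_on with
  | C c =>
    have h : thA99 e (MvPolynomial.C c) = MvPolynomial.C c := (thA99 e).commutes c
    rw [PU_C, map_zero, h, D1_C]
  | add u v hu hv => rw [map_add, map_add, map_add, map_add, hu, hv]
  | mul_X u n hu =>
    rw [Derivation.leibniz, map_add, smul_eq_mul, smul_eq_mul, map_mul, map_mul, map_mul, hu, Derivation.leibniz, smul_eq_mul,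
      smul_eq_mul]
    congr 2
    rcases n with ⟨i, n⟩ | ⟨i, n⟩
    · rw [PU_inl, thA99, MvPolynomial.aeval_X, MvPolynomial.aeval_X, Sum.elim_inl, Sum.elim_inl, D1_X]
    · rw [PU_inr, map_neg, thA99, MvPolynomial.aeval_X, MvPolynomial.aeval_X, Sum.elim_inr, Sum.elim_inr,
        if_neg (Nat.succ_ne_zero n), neg_zero]
      split_ifs
      · rw [D1_cv]
      · rw [map_zero]

private theorem thA_PW99 (e : Fin 3 → ℝ) (H : P) : thA99 e (PW H) = D1 (thA99 e H) := by
  induction H using MvPolynomial.induction_on with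
  | C c =>
    have h : thA99 e (MvPolynomial.C c) = MvPolynomial.C c := (thA99 e).commutes c
    rw [PW_C, map_zero, h, D1_C]
  | add u v hu hv => rw [map_add, map_add, map_add, map_add, hu, hv]
  | mul_X u n hu =>
    rw [Derivation.leibniz, map_add, smul_eq_mul, smul_eq_mul, map_mul, map_mul, map_mul, hu, Derivation.leibniz, smul_eq_mul,
      smul_eq_mul]
    congr 2
    rcases n with ⟨i, n⟩ | ⟨i, n⟩
    · rw [PW_inl, thA99, MvPolynomial.aeval_X, MvPolynomial.aeval_X, Sum.elim_inl, Sum.elim_inl, D1_X]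
    · rw [PW_inr, thA99, MvPolynomial.aeval_X, MvPolynomial.aeval_X, Sum.elim_inr, Sum.elim_inr,
        if_neg (Nat.succ_ne_zero n)]
      split_ifs
      · rw [D1_cv]
      · rw [map_zero]

private theorem thB_PU99 (e : Fin 3 → ℝ) (H : P) : thB99 e (PU H) = -D1 (thB99 e H) := by
  induction H using MvPolynomial.induction_on with
  | C c =>
    have h : thB99 e (MvPolynomial.C c) = MvPolynomial.C c := (thB99 e).commutes c
    rw [PU_C, map_zero, h, D1_C, neg_zero]
  | add u v hu hv => rw [map_add, map_add, map_add, map_add, hu, hv, neg_add]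
  | mul_X u n hu =>
    have h1 : thB99 e (PU (MvPolynomial.X n)) = -D1 (thB99 e (MvPolynomial.X n)) := by
      rcases n with ⟨i, n⟩ | ⟨i, n⟩
      · rw [PU_inl, thB99, MvPolynomial.aeval_X, MvPolynomial.aeval_X, Sum.elim_inl, Sum.elim_inl,
          if_neg (Nat.succ_ne_zero n)]
        split_ifs
        · rw [D1_cv, neg_zero]
        · rw [map_zero, neg_zero]
      · rw [PU_inr, map_neg, thB99, MvPolynomial.aeval_X, MvPolynomial.aeval_X, Sum.elim_inr, Sum.elim_inr, D1_X]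
    rw [Derivation.leibniz, map_add, smul_eq_mul, smul_eq_mul, map_mul, map_mul, map_mul, hu, h1, Derivation.leibniz,
      smul_eq_mul, smul_eq_mul]
    ring

private theorem thB_PW99 (e : Fin 3 → ℝ) (H : P) : thB99 e (PW H) = D1 (thB99 e H) := by
  induction H using MvPolynomial.induction_on with
  | C c =>
    have h : thB99 e (MvPolynomial.C c) = MvPolynomial.C c := (thB99 e).commutes c
    rw [PW_C, map_zero, h, D1_C]
  | add u v hu hv => rw [map_add, map_add, map_add, map_add, hu, hv]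
  | mul_X u n hu =>
    rw [Derivation.leibniz, map_add, smul_eq_mul, smul_eq_mul, map_mul, map_mul, map_mul, hu, Derivation.leibniz, smul_eq_mul,
      smul_eq_mul]
    congr 2
    rcases n with ⟨i, n⟩ | ⟨i, n⟩
    · rw [PW_inl, thB99, MvPolynomial.aeval_X, MvPolynomial.aeval_X, Sum.elim_inl, Sum.elim_inl,
        if_neg (Nat.succ_ne_zero n)]
      split_ifs
      · rw [D1_cv]
      · rw [map_zero]
    · rw [PW_inr, thB99, MvPolynomial.aeval_X, MvPolynomial.aeval_X, Sum.elim_inr, Sum.elim_inr, D1_X]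

private theorem thA_gA99 (e : Fin 3 → ℝ) : (fun i => (thA99 e).toRingHom (gA i)) = av := by
  funext i
  change thA99 e (gA i) = av i
  rw [gA, thA99, MvPolynomial.aeval_X]
  rfl

private theorem thA_gB99 (e : Fin 3 → ℝ) : (fun i => (thA99 e).toRingHom (gB i)) = cv e := by
  funext i
  change thA99 e (gB i) = cv e i
  rw [gB, thA99, MvPolynomial.aeval_X]
  rfl

private theorem thB_gA99 (e : Fin 3 → ℝ) : (fun i => (thB99 e).toRingHom (gA i)) = cv e := by
  funext i
  change thB99 e (gA i) = cv e i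
  rw [gA, thB99, MvPolynomial.aeval_X]
  rfl

private theorem thB_gB99 (e : Fin 3 → ℝ) : (fun i => (thB99 e).toRingHom (gB i)) = av := by
  funext i
  change thB99 e (gB i) = av i
  rw [gB, thB99, MvPolynomial.aeval_X]
  rfl

private theorem thA_Rel99 (e : Fin 3 → ℝ) (k : ℕ) (c : ℕ → ℝ) (i : Fin 3) : thA99 e (Pool.Agent.Helper33.TS.Rel k c i) = Rel1 e k c i := by
  have h1 : ∀ n, thA99 e (QQ PU PW gA gB n i) = QQ D1 D1 av (cv e) n i := by
    intro n
    have := map_QQ (thA99 e).toRingHom PU PW D1 D1 (thA_PU99 e) (thA_PW99 e) gA gB n i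
    rw [thA_gA99, thA_gB99] at this
    exact this
  have h2 : thA99 e (UU gA gB) = UU av (cv e) := by
    have := map_UU (thA99 e).toRingHom gA gB
    rw [thA_gA99, thA_gB99] at this
    exact this
  have h3 : thA99 e (VV gA gB) = VV av (cv e) := by
    have := map_VV (thA99 e).toRingHom gA gB
    rw [thA_gA99, thA_gB99] at this
    exact this
  unfold Pool.Agent.Helper33.TS.Rel Rel1
  rw [map_sub, map_sum, h1]
  congr 1
  refine Finset.sum_congr rfl fun j _ => ?_
  rw [map_smul, map_mul, map_pow, map_mul, h1, h2, h3]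

private theorem thB_Rel99 (e : Fin 3 → ℝ) (k : ℕ) (c : ℕ → ℝ) (i : Fin 3) : thB99 e (Pool.Agent.Helper33.TS.Rel k c i) = Rel1 e k c i := by
  have h1 : ∀ n, thB99 e (QQ PU PW gA gB n i) = QQ D1 D1 av (cv e) n i := by
    intro n
    have := map_QQ (thB99 e).toRingHom PU PW (fun x => -D1 x) D1 (thB_PU99 e) (thB_PW99 e) gA gB n i
    rw [thB_gA99, thB_gB99, QQ_swap D1 D1 (fun x => map_neg D1 x)] at this
    exact this
  have h2 : thB99 e (UU gA gB) = UU av (cv e) := by
    have := map_UU (thB99 e).toRingHom gA gB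
    rw [thB_gA99, thB_gB99, UU_comm (cv e) av] at this
    exact this
  have h3 : thB99 e (VV gA gB) = VV av (cv e) := by
    have := map_VV (thB99 e).toRingHom gA gB
    rw [thB_gA99, thB_gB99, VV_comm (cv e) av] at this
    exact this
  unfold Pool.Agent.Helper33.TS.Rel Rel1
  rw [map_sub, map_sum, h1]
  congr 1
  refine Finset.sum_congr rfl fun j _ => ?_
  rw [map_smul, map_mul, map_pow, map_mul, h1, h2, h3]

private theorem thA_val99 (e : Fin 3 → ℝ) {s t : ℝ} (h0 : ∀ i, b i 0 t = e i) (h1 : ∀ i n, b i (n + 1) t = 0) (H : P) :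
    val1 a s (thA99 e H) = MvPolynomial.aeval (pt (fun i n => a i n s) fun i n => b i n t) H := by
  induction H using MvPolynomial.induction_on with
  | C c =>
    have h : thA99 e (MvPolynomial.C c) = MvPolynomial.C c := (thA99 e).commutes c
    have h2 : MvPolynomial.aeval (pt (fun i n => a i n s) fun i n => b i n t) (MvPolynomial.C c : P) = c :=
      (MvPolynomial.aeval (pt (fun i n => a i n s) fun i n => b i n t)).commutes c
    rw [h, h2]
    exact (MvPolynomial.aeval (fun x : Fin 3 × ℕ => a x.1 x.2 s)).commutes c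
  | add u v hu hv => rw [map_add, map_add, val1_add, hu, hv]
  | mul_X u n hu =>
    rw [map_mul, map_mul, val1_mul, hu, MvPolynomial.aeval_X]
    congr 1
    rcases n with ⟨i, n⟩ | ⟨i, n⟩
    · rw [thA99, MvPolynomial.aeval_X, Sum.elim_inl, val1_X]
      rfl
    · rw [thA99, MvPolynomial.aeval_X, Sum.elim_inr]
      change _ = b i n t
      split_ifs with h
      · have hn : n = 0 := h
        rw [hn, h0, val1_cv]
      · have hn : n ≠ 0 := h
        obtain ⟨m, rfl⟩ := Nat.exists_eq_succ_of_ne_zero hn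
        rw [h1]
        exact map_zero _

private theorem thB_val99 (e : Fin 3 → ℝ) {s t : ℝ} (h0 : ∀ i, a i 0 s = e i) (h1 : ∀ i n, a i (n + 1) s = 0) (H : P) :
    val1 b t (thB99 e H) = MvPolynomial.aeval (pt (fun i n => a i n s) fun i n => b i n t) H := by
  induction H using MvPolynomial.induction_on with
  | C c =>
    have h : thB99 e (MvPolynomial.C c) = MvPolynomial.C c := (thB99 e).commutes c
    have h2 : MvPolynomial.aeval (pt (fun i n => a i n s) fun i n => b i n t) (MvPolynomial.C c : P) = c :=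
      (MvPolynomial.aeval (pt (fun i n => a i n s) fun i n => b i n t)).commutes c
    rw [h, h2]
    exact (MvPolynomial.aeval (fun x : Fin 3 × ℕ => b x.1 x.2 t)).commutes c
  | add u v hu hv => rw [map_add, map_add, val1_add, hu, hv]
  | mul_X u n hu =>
    rw [map_mul, map_mul, val1_mul, hu, MvPolynomial.aeval_X]
    congr 1
    rcases n with ⟨i, n⟩ | ⟨i, n⟩
    · rw [thB99, MvPolynomial.aeval_X, Sum.elim_inl]
      change _ = a i n s
      split_ifs with h
      · have hn : n = 0 := h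
        rw [hn, h0, val1_cv]
      · have hn : n ≠ 0 := h
        obtain ⟨m, rfl⟩ := Nat.exists_eq_succ_of_ne_zero hn
        rw [h1]
        exact map_zero _
    · rw [thB99, MvPolynomial.aeval_X, Sum.elim_inr, val1_X]
      rfl

private theorem zero_jets99 {J : Set ℝ} (hJ : IsOpen J) {b : Fin 3 → ℕ → ℝ → ℝ}
    (hb : ∀ i n, ∀ t ∈ J, HasDerivAt (b i n) (b i (n + 1) t) t) (h : ∀ i, ∀ t ∈ J, b i 1 t = 0) (i : Fin 3) (n : ℕ) :
    ∀ t ∈ J, b i (n + 1) t = 0 := by
  induction n with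
  | zero => exact h i
  | succ n ih =>
    intro t ht
    have h1 : b i (n + 1) =ᶠ[nhds t] fun _ => (0 : ℝ) := by
      filter_upwards [hJ.mem_nhds ht] with x hx using ih x hx
    exact (hb i (n + 1) t ht).unique ((hasDerivAt_const t (0 : ℝ)).congr_of_eventuallyEq h1)

private theorem partial1_99 (T : Td I J f a b) (S : Sf (I ×ˢ J) f E F G L) {s t : ℝ} (hs : s ∈ I) (ht : t ∈ J) (i : Fin 3) :
    HasDerivAt (fun x => f (x, t) i) (a i 0 s) s := by
  have hd : DifferentiableAt ℝ f (s, t) :=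
    (S.smooth.contDiffAt (S.opn.mem_nhds (show (s, t) ∈ I ×ˢ J from ⟨hs, ht⟩))).differentiableAt (by simp)
  have h1 : HasDerivAt (fun x : ℝ => (x, t)) ((1 : ℝ), (0 : ℝ)) s := (hasDerivAt_id s).prodMk (hasDerivAt_const s t)
  have h2 := hd.hasFDerivAt.comp_hasDerivAt s h1
  have h3 : HasDerivAt (fun x => f (x, t)) (fderiv ℝ f (s, t) ((1 : ℝ), (0 : ℝ))) s := h2
  have h4 := (EuclideanSpace.proj i : E3 →L[ℝ] ℝ).hasFDerivAt.comp_hasDerivAt s h3
  have h5 := T.f1 (s, t) ⟨hs, ht⟩ i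
  rw [← h5]
  exact h4

private theorem partial2_99 (T : Td I J f a b) (S : Sf (I ×ˢ J) f E F G L) {s t : ℝ} (hs : s ∈ I) (ht : t ∈ J) (i : Fin 3) :
    HasDerivAt (fun x => f (s, x) i) (b i 0 t) t := by
  have hd : DifferentiableAt ℝ f (s, t) :=
    (S.smooth.contDiffAt (S.opn.mem_nhds (show (s, t) ∈ I ×ˢ J from ⟨hs, ht⟩))).differentiableAt (by simp)
  have h1 : HasDerivAt (fun x : ℝ => (s, x)) ((0 : ℝ), (1 : ℝ)) t := (hasDerivAt_const t s).prodMk (hasDerivAt_id t)
  have h2 := hd.hasFDerivAt.comp_hasDerivAt t h1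
  have h3 : HasDerivAt (fun x => f (s, x)) (fderiv ℝ f (s, t) ((0 : ℝ), (1 : ℝ))) t := h2
  have h4 := (EuclideanSpace.proj i : E3 →L[ℝ] ℝ).hasFDerivAt.comp_hasDerivAt t h3
  have h5 := T.f2 (s, t) ⟨hs, ht⟩ i
  rw [← h5]
  exact h4

private theorem axis99 {z e : Fin 3 → ℝ} (he : dot e e = 1) {r : ℝ} (hr : 0 < r) (hze : dot z e = 0)
    (hw : ∀ p ∈ I ×ˢ J, dot (fun i => f p i - dot (fun i => f p i) e * e i - z i)
      (fun i => f p i - dot (fun i => f p i) e * e i - z i) = r ^ 2) :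
    ∃ (c u : E3) (rho : ℝ), ‖u‖ = 1 ∧ 0 < rho ∧ ∀ p ∈ I ×ˢ J, ‖(f p - c) - inner ℝ (f p - c) u • u‖ = rho := by
  have hin : ∀ u v : E3, inner ℝ u v = dot (fun i => u i) (fun i => v i) := by
    intro u v
    rw [PiLp.inner_apply, Fin.sum_univ_three]
    simp only [dot, RCLike.inner_apply, conj_trivial]
    ring
  refine ⟨WithLp.toLp 2 z, WithLp.toLp 2 e, r, ?_, hr, fun p hp => ?_⟩
  · rw [← sq_eq_sq₀ (norm_nonneg _) zero_le_one, ← real_inner_self_eq_norm_sq, hin, one_pow]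
    exact he
  · rw [← sq_eq_sq₀ (norm_nonneg _) hr.le, ← real_inner_self_eq_norm_sq, hin, ← hw p hp]
    have h1 : (fun i => ((f p - WithLp.toLp 2 z) - inner ℝ (f p - WithLp.toLp 2 z) (WithLp.toLp 2 e) • WithLp.toLp 2 e : E3) i) =
        fun i => f p i - dot (fun i => f p i) e * e i - z i := by
      funext i
      rw [hin]
      change f p i - z i - (dot (fun i => f p i - z i) e) * e i = _
      simp only [dot] at hze ⊢
      linear_combination e i * hze
    rw [h1]

/-- **Block F.** -/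
theorem cyl (T : Td I J f a b) (S : Sf (I ×ˢ J) f E F G L) (hIc : IsPreconnected I) (hJc : IsPreconnected J)
    (hft : ∃ (k : ℕ) (x : Fin k → ℝ × ℝ → EuclideanSpace ℝ (Fin 3)) (lam : Fin k → ℝ),
      (∀ i, ContDiffOn ℝ ((⊤ : ℕ∞) : WithTop ℕ∞) (x i) (I ×ˢ J)) ∧
      (∀ p ∈ I ×ˢ J, f p = ∑ i, x i p) ∧
      (∀ i, ∀ p ∈ I ×ˢ J, L (x i) p = lam i • x i p))
    (h0 : (∀ i, ∀ t ∈ J, b i 1 t = 0) ∨ (∀ i, ∀ s ∈ I, a i 1 s = 0)) :
    (∀ p ∈ I ×ˢ J, L f p = 0) ∨ ∃ (c u : E3) (rho : ℝ), ‖u‖ = 1 ∧ 0 < rho ∧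
      ∀ p ∈ I ×ˢ J, ‖(f p - c) - inner ℝ (f p - c) u • u‖ = rho := by
  rcases T.rel S hft with h | ⟨k, c, hrel⟩
  · exact Or.inl h
  rcases I.eq_empty_or_nonempty with hIe | ⟨s0, hs0⟩
  · left
    rintro ⟨s, t⟩ ⟨hs, -⟩
    rw [hIe] at hs
    exact absurd hs (Set.notMem_empty s)
  rcases J.eq_empty_or_nonempty with hJe | ⟨t0, ht0⟩
  · left
    rintro ⟨s, t⟩ ⟨-, ht⟩
    rw [hJe] at ht
    exact absurd ht (Set.notMem_empty t)
  rcases h0 with h0 | h0
  · -- `b` is constant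
    obtain ⟨e, he⟩ : ∃ e : Fin 3 → ℝ, e = fun i => b i 0 t0 := ⟨_, rfl⟩
    have hbe : ∀ i, ∀ t ∈ J, b i 0 t = e i := by
      intro i t ht
      rw [he]
      exact const_on99 T.hJ hJc (fun x hx => by
        have := T.hb i 0 x hx
        rwa [zero_add, h0 i x hx] at this) ht ht0
    have hz := zero_jets99 T.hJ T.hb h0
    have hee : dot e e = 1 := by
      rw [he]
      exact T.hbb t0 ht0
    have hD : ∀ s ∈ I, UU (fun i => a i 0 s) e * VV (fun i => a i 0 s) e ≠ 0 := by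
      intro s hs
      have := (T.D_pos S hs ht0).ne'
      rw [he]
      exact this
    have hrel1 : ∀ i, ∀ s ∈ I, val1 a s (Rel1 e k c i) = 0 := by
      intro i s hs
      rw [← thA_Rel99, thA_val99 e (fun i => hbe i t0 ht0) (fun i n => hz i n t0 ht0)]
      exact hrel i s hs t0 ht0
    rcases core T.hI hIc T.hJ hJc T.ha T.haa hee hD k c hrel1 (fun s t i => f (s, t) i)
      (fun s hs t ht i => partial1_99 T S hs ht i) (fun s hs t ht i => by
        rw [← hbe i t ht]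
        exact partial2_99 T S hs ht i) with h | ⟨z, r, hr, hze, hw⟩
    · left
      rintro ⟨s, t⟩ ⟨hs, ht⟩
      apply L_zero T S hs ht
      have h1 := h s hs
      simp only [mr3] at h1 ⊢
      simp only [h0 _ t ht, hbe _ t ht, add_zero]
      exact h1
    · right
      exact axis99 hee hr hze fun p hp => hw p.1 hp.1 p.2 hp.2
  · -- `a` is constant
    obtain ⟨e, he⟩ : ∃ e : Fin 3 → ℝ, e = fun i => a i 0 s0 := ⟨_, rfl⟩
    have hae : ∀ i, ∀ s ∈ I, a i 0 s = e i := by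
      intro i s hs
      rw [he]
      exact const_on99 T.hI hIc (fun x hx => by
        have := T.ha i 0 x hx
        rwa [zero_add, h0 i x hx] at this) hs hs0
    have hz := zero_jets99 T.hI T.ha h0
    have hee : dot e e = 1 := by
      rw [he]
      exact T.haa s0 hs0
    have hD : ∀ t ∈ J, UU (fun i => b i 0 t) e * VV (fun i => b i 0 t) e ≠ 0 := by
      intro t ht
      have := (T.D_pos S hs0 ht).ne'
      rw [he, UU_comm, VV_comm]
      exact this
    have hrel1 : ∀ i, ∀ t ∈ J, val1 b t (Rel1 e k c i) = 0 := by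
      intro i t ht
      rw [← thB_Rel99, thB_val99 e (fun i => hae i s0 hs0) (fun i n => hz i n s0 hs0)]
      exact hrel i s0 hs0 t ht
    rcases core T.hJ hJc T.hI hIc T.hb T.hbb hee hD k c hrel1 (fun t s i => f (s, t) i)
      (fun t ht s hs i => partial2_99 T S hs ht i) (fun t ht s hs i => by
        rw [← hae i s hs]
        exact partial1_99 T S hs ht i) with h | ⟨z, r, hr, hze, hw⟩
    · left
      rintro ⟨s, t⟩ ⟨hs, ht⟩
      apply L_zero T S hs ht
      have h1 := h t ht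
      simp only [mr3] at h1 ⊢
      simp only [h0 _ s hs, hae _ s hs, zero_add]
      linear_combination -h1
    · right
      exact axis99 hee hr hze fun p hp => hw p.2 hp.2 p.1 hp.1

end final

end Pool.Agent.Helper99.TR3
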