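import Mathlib

/-!
# Formal germs (project on translation surfaces, MP_078326_gt; plan of helper33)

The universal ring `P0 = ℝ[p, p', ..., q, q', ...]` of two functions of one variable with its two derivations, the ring
`B2 = ℂ⟦t⟧⟦s⟧` with its two derivations, the formal germ `phi w z : P0 → B2` of two sequences of jets, and the transfer of a
relation which holds on an open rectangle to a formal germ at a generalised point. An element `D` of `B2` without constant term and
with nonzero linear term in `s` is prime: `D ∣ X ^ N → D ∣ X`.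
-/

set_option autoImplicit false

open MvPolynomial

namespace Pool.Agent.Helper99.TR

/-- the universal ring of the jets of a function `p` of `s` (`inl`) and a function `q` of `t` (`inr`) -/
abbrev P0 : Type := MvPolynomial (ℕ ⊕ ℕ) ℝ

/-- the total derivative in `s` -/
noncomputable def PS : Derivation ℝ P0 P0 :=
  MvPolynomial.mkDerivation ℝ (Sum.elim (fun n => X (Sum.inl (n + 1))) fun _ => 0)

/-- the total derivative in `t` -/
noncomputable def PT : Derivation ℝ P0 P0 :=
  MvPolynomial.mkDerivation ℝ (Sum.elim (fun _ => 0) fun n => X (Sum.inr (n + 1)))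

theorem PS_inl (n : ℕ) : PS (X (Sum.inl n)) = X (Sum.inl (n + 1)) := by
  rw [PS, MvPolynomial.mkDerivation_X, Sum.elim_inl]

theorem PS_inr (n : ℕ) : PS (X (Sum.inr n)) = 0 := by
  rw [PS, MvPolynomial.mkDerivation_X, Sum.elim_inr]

theorem PT_inl (n : ℕ) : PT (X (Sum.inl n)) = 0 := by
  rw [PT, MvPolynomial.mkDerivation_X, Sum.elim_inl]

theorem PT_inr (n : ℕ) : PT (X (Sum.inr n)) = X (Sum.inr (n + 1)) := by
  rw [PT, MvPolynomial.mkDerivation_X, Sum.elim_inr]

theorem PS_C (c : ℝ) : PS (C c) = 0 := PS.map_algebraMap c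

theorem PT_C (c : ℝ) : PT (C c) = 0 := PT.map_algebraMap c

/-- the two total derivatives commute -/
theorem PS_PT (F : P0) : PS (PT F) = PT (PS F) := by
  have h : ⁅PS, PT⁆ = (0 : Derivation ℝ P0 P0) := by
    apply MvPolynomial.derivation_ext
    rintro (n | n)
    · rw [Derivation.commutator_apply, PS_inl, PT_inl, PT_inl, map_zero, sub_zero, Derivation.zero_apply]
    · rw [Derivation.commutator_apply, PS_inr, PT_inr, PS_inr, map_zero, sub_zero, Derivation.zero_apply]
  have h1 := congrArg (fun E : Derivation ℝ P0 P0 => E F) h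
  simp only [Derivation.commutator_apply, Derivation.zero_apply] at h1
  exact sub_eq_zero.1 h1

/-- the derivative of a power series as a function -/
private noncomputable def der99 {A : Type*} [CommRing A] (f : PowerSeries A) : PowerSeries A :=
  PowerSeries.derivative A f

private theorem der_coeff99 {A : Type*} [CommRing A] (f : PowerSeries A) (n : ℕ) :
    PowerSeries.coeff n (der99 f) = PowerSeries.coeff (n + 1) f * (n + 1) :=
  PowerSeries.coeff_derivative f n

private theorem der_add99 {A : Type*} [CommRing A] (f g : PowerSeries A) : der99 (f + g) = der99 f + der99 g :=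
  map_add _ f g

private theorem der_mul99 {A : Type*} [CommRing A] (f g : PowerSeries A) :
    der99 (f * g) = f * der99 g + g * der99 f :=
  (PowerSeries.derivative A).leibniz f g

/-- the coefficientwise derivative of a power series over a ring with a derivation -/
private theorem coeffwise99 {A : Type*} [CommRing A] (d : A → A) (hd0 : d 0 = 0) (hd : ∀ x y, d (x + y) = d x + d y)
    (hm : ∀ x y, d (x * y) = x * d y + y * d x) (f g : PowerSeries A) :
    (PowerSeries.mk fun n => d (PowerSeries.coeff n (f * g))) =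
      f * (PowerSeries.mk fun n => d (PowerSeries.coeff n g)) + g * (PowerSeries.mk fun n => d (PowerSeries.coeff n f)) := by
  ext n
  have h1 : ∀ (s : Finset (ℕ × ℕ)) (u : ℕ × ℕ → A), d (∑ i ∈ s, u i) = ∑ i ∈ s, d (u i) := by
    intro s u
    classical
    induction s using Finset.induction_on with
    | empty => rw [Finset.sum_empty, Finset.sum_empty, hd0]
    | insert a s ha ih => rw [Finset.sum_insert ha, Finset.sum_insert ha, hd, ih]
  rw [PowerSeries.coeff_mk, map_add, PowerSeries.coeff_mul, h1, mul_comm g, PowerSeries.coeff_mul, PowerSeries.coeff_mul,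
    ← Finset.sum_add_distrib]
  refine Finset.sum_congr rfl fun i _ => ?_
  rw [hm, PowerSeries.coeff_mk, PowerSeries.coeff_mk]
  ring

/-- formal series in two variables: the inner variable is `t`, the outer variable is `s` -/
abbrev B2 : Type := PowerSeries (PowerSeries ℂ)

/-- the derivation in `s` -/
noncomputable def dS : Derivation ℝ B2 B2 :=
  Derivation.mk'
    { toFun := fun f => der99 f
      map_add' := fun f g => der_add99 f g
      map_smul' := by
        intro c f
        ext n m
        rw [der_coeff99]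
        simp [der_coeff99] }
    (by
      intro f g
      exact der_mul99 f g)

/-- the derivation in `t` -/
noncomputable def dT : Derivation ℝ B2 B2 :=
  Derivation.mk'
    { toFun := fun f => PowerSeries.mk fun n => der99 (PowerSeries.coeff n f)
      map_add' := by
        intro f g
        ext n
        simp [der_add99]
      map_smul' := by
        intro c f
        ext n m
        simp [der_coeff99, mul_assoc] }
    (by
      intro f g
      exact coeffwise99 der99 (by ext n; rw [der_coeff99]; simp) der_add99 der_mul99 f g)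

theorem dS_coeff (f : B2) (m n : ℕ) : PowerSeries.coeff n (PowerSeries.coeff m (dS f)) =
    PowerSeries.coeff n (PowerSeries.coeff (m + 1) f) * (m + 1) := by
  have h1 : dS f = der99 f := rfl
  rw [h1, der_coeff99]
  have h2 : ((m : PowerSeries ℂ) + 1) = PowerSeries.C ((m : ℂ) + 1) := by
    rw [map_add, map_natCast, map_one]
  rw [h2, mul_comm, PowerSeries.coeff_C_mul, mul_comm]

theorem dT_coeff (f : B2) (m n : ℕ) : PowerSeries.coeff n (PowerSeries.coeff m (dT f)) =
    PowerSeries.coeff (n + 1) (PowerSeries.coeff m f) * (n + 1) := by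
  have h1 : dT f = PowerSeries.mk fun n => der99 (PowerSeries.coeff n f) := rfl
  rw [h1, PowerSeries.coeff_mk, der_coeff99]

/-- the two derivations commute -/
theorem dS_dT (f : B2) : dS (dT f) = dT (dS f) := by
  ext m n
  rw [dS_coeff, dT_coeff, dT_coeff, dS_coeff]
  ring

/-- a formal series in two variables all of whose derivatives vanish at the origin is zero -/
theorem eq_zero_of_derivs (f : B2)
    (h : ∀ m n, PowerSeries.constantCoeff (PowerSeries.constantCoeff (dS^[m] (dT^[n] f))) = 0) : f = 0 := by
  have h1 : ∀ (n m k : ℕ) (g : B2), PowerSeries.coeff k (PowerSeries.coeff m (dT^[n] g)) =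
      (k + 1).ascFactorial n * PowerSeries.coeff (k + n) (PowerSeries.coeff m g) := by
    intro n
    induction n with
    | zero => intro m k g; simp
    | succ n ih =>
      intro m k g
      rw [Function.iterate_succ_apply, ih, dT_coeff, Nat.ascFactorial_succ]
      push_cast
      rw [show k + n + 1 = k + (n + 1) by ring]
      ring
  have h2 : ∀ (n m k : ℕ) (g : B2), PowerSeries.coeff k (PowerSeries.coeff m (dS^[n] g)) =
      (m + 1).ascFactorial n * PowerSeries.coeff k (PowerSeries.coeff (m + n) g) := by
    intro n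
    induction n with
    | zero => intro m k g; simp
    | succ n ih =>
      intro m k g
      rw [Function.iterate_succ_apply, ih, dS_coeff, Nat.ascFactorial_succ]
      push_cast
      rw [show m + n + 1 = m + (n + 1) by ring]
      ring
  ext m n
  have h3 := h m n
  rw [← PowerSeries.coeff_zero_eq_constantCoeff_apply, ← PowerSeries.coeff_zero_eq_constantCoeff_apply, h2, h1,
    zero_add, zero_add] at h3
  have h4 : ∀ j : ℕ, ((0 + 1).ascFactorial j : ℂ) ≠ 0 := fun j => by
    exact_mod_cast (Nat.ascFactorial_pos 0 j).ne'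
  rw [map_zero, map_zero]
  have h5 := (mul_eq_zero.1 ((mul_eq_zero.1 h3).resolve_left (h4 m))).resolve_left (h4 n)
  rwa [zero_add] at h5

/-- the exponential generating series of a sequence -/
noncomputable def ser (z : ℕ → ℂ) : PowerSeries ℂ := PowerSeries.mk fun m => z m / (m.factorial : ℂ)

private theorem der_ser99 (z : ℕ → ℂ) : der99 (ser z) = ser fun m => z (m + 1) := by
  ext n
  rw [der_coeff99, ser, ser, PowerSeries.coeff_mk, PowerSeries.coeff_mk, Nat.factorial_succ]
  have h1 : ((n : ℂ) + 1) ≠ 0 := by exact_mod_cast Nat.succ_ne_zero n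
  have h2 : (n.factorial : ℂ) ≠ 0 := by exact_mod_cast Nat.factorial_ne_zero n
  push_cast
  field_simp

/-- the series `∑ w m * s ^ m / m!` -/
noncomputable def serS (w : ℕ → ℂ) : B2 := PowerSeries.map PowerSeries.C (ser w)

/-- the series `∑ z m * t ^ m / m!` -/
noncomputable def serT (z : ℕ → ℂ) : B2 := PowerSeries.C (ser z)

theorem dS_serS (w : ℕ → ℂ) : dS (serS w) = serS fun m => w (m + 1) := by
  ext m n
  rw [dS_coeff, serS, serS, PowerSeries.coeff_map, PowerSeries.coeff_map, ← der_ser99, der_coeff99,
    PowerSeries.coeff_C, PowerSeries.coeff_C]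
  split_ifs with h
  · rfl
  · rw [zero_mul]

theorem dT_serS (w : ℕ → ℂ) : dT (serS w) = 0 := by
  ext m n
  rw [dT_coeff, serS, PowerSeries.coeff_map, PowerSeries.coeff_C, if_neg (Nat.succ_ne_zero n), zero_mul, map_zero, map_zero]

theorem dS_serT (z : ℕ → ℂ) : dS (serT z) = 0 := by
  ext m n
  rw [dS_coeff, serT, PowerSeries.coeff_C, if_neg (Nat.succ_ne_zero m), map_zero, zero_mul, map_zero, map_zero]

theorem dT_serT (z : ℕ → ℂ) : dT (serT z) = serT fun m => z (m + 1) := by
  ext m n
  rw [dT_coeff, serT, serT, PowerSeries.coeff_C, PowerSeries.coeff_C, ← der_ser99]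
  split_ifs with h
  · rw [der_coeff99]
  · rw [map_zero, map_zero, zero_mul]

/-- the formal germ with the jets `w` in `s` and `z` in `t` -/
noncomputable def phi (w z : ℕ → ℂ) : P0 →ₐ[ℝ] B2 :=
  MvPolynomial.aeval (Sum.elim (fun n => serS fun m => w (n + m)) fun n => serT fun m => z (n + m))

theorem phi_inl (w z : ℕ → ℂ) (n : ℕ) : phi w z (X (Sum.inl n)) = serS fun m => w (n + m) := by
  rw [phi, MvPolynomial.aeval_X, Sum.elim_inl]

theorem phi_inr (w z : ℕ → ℂ) (n : ℕ) : phi w z (X (Sum.inr n)) = serT fun m => z (n + m) := by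
  rw [phi, MvPolynomial.aeval_X, Sum.elim_inr]

theorem phi_PS (w z : ℕ → ℂ) (F : P0) : phi w z (PS F) = dS (phi w z F) := by
  induction F using MvPolynomial.induction_on with
  | C c =>
    have h1 : phi w z (C c) = algebraMap ℝ B2 c := (phi w z).commutes c
    rw [PS_C, map_zero, h1]
    exact (dS.map_algebraMap c).symm
  | add p q hp hq => rw [map_add, map_add, map_add, map_add, hp, hq]
  | mul_X p n hp =>
    rw [Derivation.leibniz, map_add, smul_eq_mul, smul_eq_mul, map_mul, map_mul, map_mul, hp, Derivation.leibniz, smul_eq_mul,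
      smul_eq_mul]
    congr 2
    rcases n with n | n
    · rw [PS_inl, phi_inl, phi_inl, dS_serS]
      congr 1
      ext m
      rw [show n + 1 + m = n + (m + 1) by ring]
    · rw [PS_inr, phi_inr, dS_serT, map_zero]

theorem phi_PT (w z : ℕ → ℂ) (F : P0) : phi w z (PT F) = dT (phi w z F) := by
  induction F using MvPolynomial.induction_on with
  | C c =>
    have h1 : phi w z (C c) = algebraMap ℝ B2 c := (phi w z).commutes c
    rw [PT_C, map_zero, h1]
    exact (dT.map_algebraMap c).symm
  | add p q hp hq => rw [map_add, map_add, map_add, map_add, hp, hq]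
  | mul_X p n hp =>
    rw [Derivation.leibniz, map_add, smul_eq_mul, smul_eq_mul, map_mul, map_mul, map_mul, hp, Derivation.leibniz, smul_eq_mul,
      smul_eq_mul]
    congr 2
    rcases n with n | n
    · rw [PT_inl, phi_inl, dT_serS, map_zero]
    · rw [PT_inr, phi_inr, phi_inr, dT_serT]
      congr 1
      ext m
      rw [show n + 1 + m = n + (m + 1) by ring]

/-- the constant term of a formal germ -/
theorem phi_const (w z : ℕ → ℂ) (F : P0) : PowerSeries.constantCoeff (PowerSeries.constantCoeff (phi w z F)) =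
    MvPolynomial.aeval (Sum.elim w z) F := by
  induction F using MvPolynomial.induction_on with
  | C c =>
    have h1 : phi w z (C c) = algebraMap ℝ B2 c := (phi w z).commutes c
    have h2 : MvPolynomial.aeval (Sum.elim w z) (C c : P0) = algebraMap ℝ ℂ c :=
      (MvPolynomial.aeval (Sum.elim w z)).commutes c
    rw [h1, h2]
    rfl
  | add p q hp hq => rw [map_add, map_add, map_add, map_add, hp, hq]
  | mul_X p n hp =>
    rw [map_mul, map_mul, map_mul, map_mul, hp, MvPolynomial.aeval_X]
    congr 1
    rcases n with n | n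
    · rw [phi_inl, serS, Sum.elim_inl, ← PowerSeries.coeff_zero_eq_constantCoeff_apply (PowerSeries.map _ _),
        PowerSeries.coeff_map]
      simp [ser]
    · rw [phi_inr, serT, Sum.elim_inr]
      simp [ser]

/-- a relation vanishes on a formal germ if all its total derivatives vanish at the point -/
theorem phi_eq_zero (w z : ℕ → ℂ) (F : P0)
    (h : ∀ m n, MvPolynomial.aeval (Sum.elim w z) (PS^[m] (PT^[n] F)) = 0) : phi w z F = 0 := by
  apply eq_zero_of_derivs
  intro m n
  have h1 : ∀ (m : ℕ) (G : P0), dS^[m] (phi w z G) = phi w z (PS^[m] G) := by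
    intro m
    induction m with
    | zero => intro G; rfl
    | succ m ih => intro G; rw [Function.iterate_succ_apply, ← phi_PS, ih, ← Function.iterate_succ_apply (f := PS)]
  have h2 : ∀ (m : ℕ) (G : P0), dT^[m] (phi w z G) = phi w z (PT^[m] G) := by
    intro m
    induction m with
    | zero => intro G; rfl
    | succ m ih => intro G; rw [Function.iterate_succ_apply, ← phi_PT, ih, ← Function.iterate_succ_apply (f := PT)]
  rw [h2, h1, phi_const]
  exact h m n

/-- evaluation of the first half of the jets: a polynomial in the jets of `q` -/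
private noncomputable def half99 (w : ℕ → ℂ) : P0 →ₐ[ℝ] MvPolynomial ℕ ℂ :=
  MvPolynomial.aeval (Sum.elim (fun n => C (w n)) fun n => X n)

private theorem half_eval99 (w z : ℕ → ℂ) (F : P0) :
    MvPolynomial.eval z (half99 w F) = MvPolynomial.aeval (Sum.elim w z) F := by
  induction F using MvPolynomial.induction_on with
  | C c =>
    have h1 : half99 w (C c) = algebraMap ℝ (MvPolynomial ℕ ℂ) c := (half99 w).commutes c
    have h2 : MvPolynomial.aeval (Sum.elim w z) (C c : P0) = algebraMap ℝ ℂ c :=
      (MvPolynomial.aeval (Sum.elim w z)).commutes c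
    rw [h1, h2]
    have h3 : algebraMap ℝ (MvPolynomial ℕ ℂ) c = C (c : ℂ) := rfl
    rw [h3, MvPolynomial.eval_C]
    rfl
  | add p q hp hq => rw [map_add, map_add, map_add, hp, hq]
  | mul_X p n hp =>
    rw [map_mul, map_mul, map_mul, hp, MvPolynomial.aeval_X, half99, MvPolynomial.aeval_X]
    rcases n with n | n
    · rw [Sum.elim_inl, Sum.elim_inl, MvPolynomial.eval_C]
    · rw [Sum.elim_inr, Sum.elim_inr, MvPolynomial.eval_X]

private theorem real_eval99 (w z : ℕ → ℝ) (F : P0) :
    MvPolynomial.aeval (Sum.elim (fun n => (w n : ℂ)) fun n => (z n : ℂ)) F =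
      ((MvPolynomial.aeval (Sum.elim w z) F : ℝ) : ℂ) := by
  induction F using MvPolynomial.induction_on with
  | C c =>
    have h1 : MvPolynomial.aeval (Sum.elim w z) (C c : P0) = algebraMap ℝ ℝ c :=
      (MvPolynomial.aeval (Sum.elim w z)).commutes c
    have h2 : MvPolynomial.aeval (Sum.elim (fun n => (w n : ℂ)) fun n => (z n : ℂ)) (C c : P0) = algebraMap ℝ ℂ c :=
      (MvPolynomial.aeval (Sum.elim (fun n => (w n : ℂ)) fun n => (z n : ℂ))).commutes c
    rw [h1, h2]
    rfl
  | add p q hp hq => rw [map_add, map_add, hp, hq, Complex.ofReal_add]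
  | mul_X p n hp =>
    rw [map_mul, map_mul, hp, MvPolynomial.aeval_X, MvPolynomial.aeval_X, Complex.ofReal_mul]
    rcases n with n | n
    · rw [Sum.elim_inl, Sum.elim_inl]
    · rw [Sum.elim_inr, Sum.elim_inr]

section transfer

variable {I J : Set ℝ} {p q : ℕ → ℝ → ℝ}

/-- the chain rule in `s` -/
theorem hasDerivAt_PS (hp : ∀ n, ∀ s ∈ I, HasDerivAt (p n) (p (n + 1) s) s) (z : ℕ → ℝ) (F : P0) {s : ℝ} (hs : s ∈ I) :
    HasDerivAt (fun s => MvPolynomial.aeval (Sum.elim (fun n => p n s) z) F)
      (MvPolynomial.aeval (Sum.elim (fun n => p n s) z) (PS F)) s := by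
  induction F using MvPolynomial.induction_on with
  | C c =>
    rw [PS_C, map_zero]
    have h1 : (fun s => MvPolynomial.aeval (Sum.elim (fun n => p n s) z) (C c : P0)) = fun _ => c := by
      funext s
      exact (MvPolynomial.aeval (Sum.elim (fun n => p n s) z)).commutes c
    rw [h1]
    exact hasDerivAt_const s c
  | add F G hF hG =>
    simp only [map_add]
    exact hF.add hG
  | mul_X F n hF =>
    rw [Derivation.leibniz, map_add, smul_eq_mul, smul_eq_mul, map_mul, map_mul]
    simp only [map_mul, MvPolynomial.aeval_X]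
    rcases n with n | n
    · rw [PS_inl, MvPolynomial.aeval_X]
      simp only [Sum.elim_inl]
      have h1 := hF.mul (hp n s hs)
      refine h1.congr_deriv ?_
      ring
    · rw [PS_inr, map_zero]
      simp only [Sum.elim_inr]
      have h1 := hF.mul_const (z n)
      refine h1.congr_deriv ?_
      ring

/-- the chain rule in `t` -/
theorem hasDerivAt_PT (hq : ∀ n, ∀ t ∈ J, HasDerivAt (q n) (q (n + 1) t) t) (w : ℕ → ℝ) (F : P0) {t : ℝ} (ht : t ∈ J) :
    HasDerivAt (fun t => MvPolynomial.aeval (Sum.elim w fun n => q n t) F)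
      (MvPolynomial.aeval (Sum.elim w fun n => q n t) (PT F)) t := by
  induction F using MvPolynomial.induction_on with
  | C c =>
    rw [PT_C, map_zero]
    have h1 : (fun t => MvPolynomial.aeval (Sum.elim w fun n => q n t) (C c : P0)) = fun _ => c := by
      funext t
      exact (MvPolynomial.aeval (Sum.elim w fun n => q n t)).commutes c
    rw [h1]
    exact hasDerivAt_const t c
  | add F G hF hG =>
    simp only [map_add]
    exact hF.add hG
  | mul_X F n hF =>
    rw [Derivation.leibniz, map_add, smul_eq_mul, smul_eq_mul, map_mul, map_mul]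
    simp only [map_mul, MvPolynomial.aeval_X]
    rcases n with n | n
    · rw [PT_inl, map_zero]
      simp only [Sum.elim_inl]
      have h1 := hF.mul_const (w n)
      refine h1.congr_deriv ?_
      ring
    · rw [PT_inr, MvPolynomial.aeval_X]
      simp only [Sum.elim_inr]
      have h1 := hF.mul (hq n t ht)
      refine h1.congr_deriv ?_
      ring

/-- a relation between the real jets of `p` and `q` on a rectangle can be differentiated -/
theorem relation_derivs (hI : IsOpen I) (hJ : IsOpen J) (hp : ∀ n, ∀ s ∈ I, HasDerivAt (p n) (p (n + 1) s) s)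
    (hq : ∀ n, ∀ t ∈ J, HasDerivAt (q n) (q (n + 1) t) t) (F : P0)
    (hF : ∀ s ∈ I, ∀ t ∈ J, MvPolynomial.aeval (Sum.elim (fun n => p n s) fun n => q n t) F = 0) (m k : ℕ) :
    ∀ s ∈ I, ∀ t ∈ J, MvPolynomial.aeval (Sum.elim (fun n => p n s) fun n => q n t) (PS^[m] (PT^[k] F)) = 0 := by
  have h1 : ∀ G : P0, (∀ s ∈ I, ∀ t ∈ J, MvPolynomial.aeval (Sum.elim (fun n => p n s) fun n => q n t) G = 0) →
      ∀ s ∈ I, ∀ t ∈ J, MvPolynomial.aeval (Sum.elim (fun n => p n s) fun n => q n t) (PS G) = 0 := by
    intro G hG s hs t ht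
    have h2 := hasDerivAt_PS hp (fun n => q n t) G hs
    have h3 : (fun s => MvPolynomial.aeval (Sum.elim (fun n => p n s) fun n => q n t) G) =ᶠ[nhds s] fun _ => (0 : ℝ) := by
      filter_upwards [hI.mem_nhds hs] with x hx using hG x hx t ht
    exact h2.unique ((hasDerivAt_const s (0 : ℝ)).congr_of_eventuallyEq h3)
  have h1' : ∀ G : P0, (∀ s ∈ I, ∀ t ∈ J, MvPolynomial.aeval (Sum.elim (fun n => p n s) fun n => q n t) G = 0) →
      ∀ s ∈ I, ∀ t ∈ J, MvPolynomial.aeval (Sum.elim (fun n => p n s) fun n => q n t) (PT G) = 0 := by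
    intro G hG s hs t ht
    have h2 := hasDerivAt_PT hq (fun n => p n s) G ht
    have h3 : (fun t => MvPolynomial.aeval (Sum.elim (fun n => p n s) fun n => q n t) G) =ᶠ[nhds t] fun _ => (0 : ℝ) := by
      filter_upwards [hJ.mem_nhds ht] with x hx using hG s hs x hx
    exact h2.unique ((hasDerivAt_const t (0 : ℝ)).congr_of_eventuallyEq h3)
  have h4 : ∀ k : ℕ, ∀ s ∈ I, ∀ t ∈ J,
      MvPolynomial.aeval (Sum.elim (fun n => p n s) fun n => q n t) (PT^[k] F) = 0 := by
    intro k
    induction k with
    | zero => exact hF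
    | succ k ih =>
      rw [Function.iterate_succ_apply']
      exact h1' _ ih
  induction m with
  | zero => exact h4 k
  | succ m ih =>
    rw [Function.iterate_succ_apply']
    exact h1 _ ih

/-- **Transfer**: a relation between the real jets of `p` and `q` on a rectangle holds for the formal germ whose jet in `s` is that
of `p` at a point `s0` and whose jet in `t` is a generalised point of the jets of `q`. -/
theorem transfer (hI : IsOpen I) (hJ : IsOpen J) (hp : ∀ n, ∀ s ∈ I, HasDerivAt (p n) (p (n + 1) s) s)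
    (hq : ∀ n, ∀ t ∈ J, HasDerivAt (q n) (q (n + 1) t) t) (F : P0)
    (hF : ∀ s ∈ I, ∀ t ∈ J, MvPolynomial.aeval (Sum.elim (fun n => p n s) fun n => q n t) F = 0)
    {s0 : ℝ} (hs0 : s0 ∈ I) (z : ℕ → ℂ)
    (hz : ∀ G : MvPolynomial ℕ ℂ, (∀ t ∈ J, MvPolynomial.eval (fun n => (q n t : ℂ)) G = 0) → MvPolynomial.eval z G = 0) :
    phi (fun n => (p n s0 : ℂ)) z F = 0 := by
  apply phi_eq_zero
  intro m k
  rw [← half_eval99]
  apply hz
  intro t ht
  rw [half_eval99, real_eval99 (fun n => p n s0) (fun n => q n t), relation_derivs hI hJ hp hq F hF m k s0 hs0 t ht,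
    Complex.ofReal_zero]

/-- the same for a relation in the jets of `q` alone -/
theorem transfer_q (F : P0)
    (w : ℕ → ℝ) (hF : ∀ t ∈ J, MvPolynomial.aeval (Sum.elim w fun n => q n t) F = 0) (z : ℕ → ℂ)
    (hz : ∀ G : MvPolynomial ℕ ℂ, (∀ t ∈ J, MvPolynomial.eval (fun n => (q n t : ℂ)) G = 0) → MvPolynomial.eval z G = 0) :
    MvPolynomial.aeval (Sum.elim (fun n => (w n : ℂ)) z) F = 0 := by
  rw [← half_eval99]
  apply hz
  intro t ht
  rw [half_eval99, real_eval99 w (fun n => q n t), hF t ht, Complex.ofReal_zero]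

end transfer

/-- an element without constant term and with nonzero linear term in `s` is prime -/
theorem dvd_of_dvd_pow {D X : B2} (h0 : PowerSeries.constantCoeff (PowerSeries.constantCoeff D) = 0)
    (h1 : PowerSeries.constantCoeff (PowerSeries.coeff 1 D) ≠ 0) {N : ℕ} (h : D ∣ X ^ N) : D ∣ X := by
  set I : Ideal (PowerSeries ℂ) := Ideal.span {PowerSeries.X} with hI
  have e0 : PowerSeries.coeff 0 (D.map (Ideal.Quotient.mk I)) = 0 := by
    rw [PowerSeries.coeff_map, PowerSeries.coeff_zero_eq_constantCoeff_apply, Ideal.Quotient.eq_zero_iff_mem, hI,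
      Ideal.mem_span_singleton, PowerSeries.X_dvd_iff]
    exact h0
  have e1 : PowerSeries.coeff 1 (D.map (Ideal.Quotient.mk I)) ≠ 0 := by
    rw [PowerSeries.coeff_map, Ne, Ideal.Quotient.eq_zero_iff_mem, hI, Ideal.mem_span_singleton, PowerSeries.X_dvd_iff]
    exact h1
  have e2 : (D.map (Ideal.Quotient.mk I)).order = (1 : ℕ) := by
    rw [PowerSeries.order_eq_nat]
    refine ⟨e1, fun i hi => ?_⟩
    obtain rfl : i = 0 := by omega
    exact e0
  have e3 : (D.map (Ideal.Quotient.mk I)).order.toNat = 1 := by rw [e2, ENat.toNat_natCast]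
  have H : D.IsWeierstrassDivisorAt I := by
    unfold PowerSeries.IsWeierstrassDivisorAt
    rw [e3, PowerSeries.isUnit_iff_constantCoeff]
    exact h1.isUnit
  have hd := H.isWeierstrassDivisionAt_div_mod X
  have hdeg := hd.degree_lt
  rw [e3] at hdeg
  have hC : H.mod X = Polynomial.C ((H.mod X).coeff 0) :=
    Polynomial.eq_C_of_degree_le_zero (Nat.WithBot.lt_one_iff_le_zero.1 (by exact_mod_cast hdeg))
  set r := (H.mod X).coeff 0 with hr
  have hX : X = D * H.div X + PowerSeries.C r := by
    have := hd.eq_mul_add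
    rw [hC, Polynomial.coe_C] at this
    exact this
  have hdvd : D ∣ PowerSeries.C (r ^ N) := by
    have h2 : D ∣ X ^ N - (PowerSeries.C r) ^ N := by
      have h3 : X - PowerSeries.C r ∣ X ^ N - (PowerSeries.C r) ^ N := sub_dvd_pow_sub_pow _ _ _
      refine Dvd.dvd.trans ?_ h3
      refine ⟨H.div X, ?_⟩
      nth_rewrite 1 [hX]
      ring
    have h3 := dvd_sub h h2
    rwa [sub_sub_cancel, ← map_pow] at h3
  obtain ⟨y, hy⟩ := hdvd
  have h5 := H.eq_zero_of_mul_eq (q := y) (r := Polynomial.C (r ^ N)) (by
      rw [e3]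
      refine lt_of_le_of_lt Polynomial.degree_C_le ?_
      exact_mod_cast Nat.zero_lt_one) (by rw [Polynomial.coe_C]; exact hy.symm)
  have h6 : r ^ N = 0 := by
    have := h5.2
    rwa [Polynomial.C_eq_zero] at this
  have h7 : r = 0 := eq_zero_of_pow_eq_zero h6
  rw [hX, h7, map_zero, add_zero]
  exact Dvd.intro _ rfl

end Pool.Agent.Helper99.TR
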