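import Mathlib

/-!
# Units which satisfy a linear differential equation (project TR, MP_078326_gt, block F)

Let `R` be a domain over `ℂ` with a derivation `δ`, and let `x y = 1` where `x` and `y` are both annihilated by nonzero polynomials in
`δ`. Then `δ x = α x` for a complex number `α`. Proof: `x` and `y` are finite sums of generalised eigenvectors of `δ`; products of
generalised eigenvectors are generalised eigenvectors and the eigenvalues add up. Order the eigenvalues lexicographically: the product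
of the components with the largest (smallest) eigenvalues is not zero and alone in its generalised eigenspace, so the largest
(smallest) eigenvalues have sum zero; so there is only one eigenvalue `α`, `-α`. If `(δ - α)^(m+1) x = 0`, `(δ + α)^(n+1) y = 0` with
`m, n` minimal then `δ^(m+n) (x y)` is a nonzero multiple of `(δ - α)^m x (δ + α)^n y`, so `m = n = 0`.
-/

set_option autoImplicit false

open Polynomial

namespace Pool.Agent.Helper99.TR3

variable {R : Type*} [CommRing R] [Algebra ℂ R]

/-- a derivation as an endomorphism -/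
def op (δ : Derivation ℂ R R) : Module.End ℂ R := (δ : R →ₗ[ℂ] R)

theorem op_apply (δ : Derivation ℂ R R) (x : R) : op δ x = δ x := rfl

private theorem leib99 (δ : Derivation ℂ R R) (a b : ℂ) (x y : R) :
    (op δ - algebraMap ℂ (Module.End ℂ R) (a + b)) (x * y) =
      (op δ - algebraMap ℂ (Module.End ℂ R) a) x * y +
        x * (op δ - algebraMap ℂ (Module.End ℂ R) b) y := by
  simp only [LinearMap.sub_apply, Module.algebraMap_end_apply, op_apply, Derivation.leibniz, smul_eq_mul,
    add_smul, sub_mul, mul_sub, smul_mul_assoc, mul_smul_comm]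
  ring

private theorem leibN99 (δ : Derivation ℂ R R) (a b : ℂ) (x y : R) (N : ℕ) :
    ((op δ - algebraMap ℂ (Module.End ℂ R) (a + b)) ^ N) (x * y) =
      ∑ ij ∈ Finset.HasAntidiagonal.antidiagonal N, N.choose ij.1 •
        (((op δ - algebraMap ℂ (Module.End ℂ R) a) ^ ij.1) x *
          ((op δ - algebraMap ℂ (Module.End ℂ R) b) ^ ij.2) y) := by
  induction N with
  | zero => simp
  | succ N ih =>
    rw [pow_succ', Module.End.mul_apply, ih, map_sum, Finset.sum_antidiagonal_choose_succ_nsmul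
      (fun i j => ((op δ - algebraMap ℂ (Module.End ℂ R) a) ^ i) x *
          ((op δ - algebraMap ℂ (Module.End ℂ R) b) ^ j) y) N, ← Finset.sum_add_distrib]
    refine Finset.sum_congr rfl fun ij hij => ?_
    rw [map_nsmul, leib99, pow_succ', pow_succ', Module.End.mul_apply, Module.End.mul_apply,
      Nat.choose_symm_of_eq_add (Finset.HasAntidiagonal.mem_antidiagonal.1 hij).symm, smul_add, add_comm]

/-- the product of two generalised eigenvectors -/
private theorem mul_mem99 (δ : Derivation ℂ R R) {a b : ℂ} {x y : R}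
    (hx : x ∈ (op δ).maxGenEigenspace a) (hy : y ∈ (op δ).maxGenEigenspace b) :
    x * y ∈ (op δ).maxGenEigenspace (a + b) := by
  rw [Module.End.mem_maxGenEigenspace] at hx hy ⊢
  obtain ⟨m, hm⟩ := hx
  obtain ⟨n, hn⟩ := hy
  refine ⟨m + n, ?_⟩
  have e1 : ∀ c : ℂ, (c • (1 : Module.End ℂ R)) = algebraMap ℂ (Module.End ℂ R) c := fun c => (Algebra.algebraMap_eq_smul_one c).symm
  rw [e1] at hm hn ⊢
  rw [leibN99]
  refine Finset.sum_eq_zero fun ij hij => ?_
  have h1 := Finset.HasAntidiagonal.mem_antidiagonal.1 hij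
  by_cases h : m ≤ ij.1
  · rw [← Nat.sub_add_cancel h, pow_add, Module.End.mul_apply, hm, map_zero, zero_mul, smul_zero]
  · have h2 : n ≤ ij.2 := by omega
    rw [← Nat.sub_add_cancel h2, pow_add, Module.End.mul_apply, hn, map_zero, mul_zero, smul_zero]

private theorem top99 (δ : Derivation ℂ R R) (a b : ℂ) (x y : R) (m n : ℕ)
    (hx : ((op δ - algebraMap ℂ (Module.End ℂ R) a) ^ (m + 1)) x = 0)
    (hy : ((op δ - algebraMap ℂ (Module.End ℂ R) b) ^ (n + 1)) y = 0) :
    ((op δ - algebraMap ℂ (Module.End ℂ R) (a + b)) ^ (m + n)) (x * y) =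
      (m + n).choose m • (((op δ - algebraMap ℂ (Module.End ℂ R) a) ^ m) x *
          ((op δ - algebraMap ℂ (Module.End ℂ R) b) ^ n) y) := by
  rw [leibN99, Finset.sum_eq_single_of_mem (m, n) (Finset.HasAntidiagonal.mem_antidiagonal.2 rfl)]
  intro ij hij hne
  have h1 := Finset.HasAntidiagonal.mem_antidiagonal.1 hij
  have h3 : ij.1 ≠ m := by
    intro h
    apply hne
    ext
    · exact h
    · simp only
      omega
  by_cases h : m + 1 ≤ ij.1
  · rw [← Nat.sub_add_cancel h, pow_add, Module.End.mul_apply, hx, map_zero, zero_mul, smul_zero]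
  · have h2 : n + 1 ≤ ij.2 := by omega
    rw [← Nat.sub_add_cancel h2, pow_add, Module.End.mul_apply, hy, map_zero, mul_zero, smul_zero]

/-- a vector annihilated by a nonzero polynomial is a sum of generalised eigenvectors -/
private theorem sum_gen99 {V : Type*} [AddCommGroup V] [Module ℂ V] (f : Module.End ℂ V) (n : ℕ) :
    ∀ P : ℂ[X], P ≠ 0 → P.natDegree ≤ n → ∀ x : V, aeval f P x = 0 → x ∈ ⨆ a, f.maxGenEigenspace a := by
  induction n with
  | zero =>
    intro P hP hn x hx
    obtain ⟨c, hc⟩ := natDegree_eq_zero.1 (Nat.le_zero.1 hn)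
    rw [← hc, aeval_C, Module.algebraMap_end_apply] at hx
    have hc0 : c ≠ 0 := by
      rintro rfl
      rw [C_0] at hc
      exact hP hc.symm
    rw [(smul_eq_zero.1 hx).resolve_left hc0]
    exact Submodule.zero_mem _
  | succ n ih =>
    intro P hP hn x hx
    by_cases h0 : P.natDegree ≤ n
    · exact ih P hP h0 x hx
    obtain ⟨a, ha⟩ := Complex.exists_root (f := P) (natDegree_pos_iff_degree_pos.1 (by omega))
    obtain ⟨Q, hQ, hQ'⟩ := exists_eq_pow_rootMultiplicity_mul_and_not_dvd P hP a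
    have hm : 0 < rootMultiplicity a P := (rootMultiplicity_pos hP).2 ha
    have hcop : IsCoprime ((X - C a) ^ rootMultiplicity a P) Q := by
      apply IsCoprime.pow_left
      exact (irreducible_X_sub_C a).coprime_iff_not_dvd.2 hQ'
    have h1 : x ∈ LinearMap.ker (aeval f ((X - C a) ^ rootMultiplicity a P)) ⊔ LinearMap.ker (aeval f Q) := by
      rw [sup_ker_aeval_eq_ker_aeval_mul_of_coprime f hcop, ← hQ]
      exact hx
    obtain ⟨u, hu, v, hv, rfl⟩ := Submodule.mem_sup.1 h1
    refine Submodule.add_mem _ ?_ ?_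
    · refine Submodule.mem_iSup_of_mem a ?_
      rw [Module.End.mem_maxGenEigenspace]
      refine ⟨rootMultiplicity a P, ?_⟩
      rw [LinearMap.mem_ker, map_pow, map_sub, aeval_X, aeval_C] at hu
      rw [← Algebra.algebraMap_eq_smul_one]
      exact hu
    · refine ih Q ?_ ?_ v hv
      · rintro rfl
        exact hQ' (dvd_zero _)
      · have hQ0 : Q ≠ 0 := by
          rintro rfl
          exact hQ' (dvd_zero _)
        have h2 := congrArg natDegree hQ
        rw [natDegree_mul (pow_ne_zero _ (X_sub_C_ne_zero a)) hQ0, natDegree_pow, natDegree_X_sub_C] at h2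
        omega

/-- the lexicographic order of the complex numbers -/
private def lx99 (z : ℂ) : ℝ ×ₗ ℝ := toLex (z.re, z.im)

private theorem lx_inj99 : Function.Injective lx99 := by
  intro z w h
  have h1 : (z.re, z.im) = (w.re, w.im) := toLex.injective h
  rw [Prod.mk.injEq] at h1
  exact Complex.ext h1.1 h1.2

private theorem lx_add99 (z w : ℂ) : lx99 (z + w) = lx99 z + lx99 w := rfl

private theorem unique_pair99 {S T : Finset ℂ} {a b : ℂ} (ha : ∀ i ∈ S, lx99 i ≤ lx99 a)
    (hb : ∀ j ∈ T, lx99 j ≤ lx99 b) {i j : ℂ} (hi : i ∈ S) (hj : j ∈ T) (h : i + j = a + b) : i = a ∧ j = b := by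
  have h1 := congrArg lx99 h
  rw [lx_add99, lx_add99] at h1
  have h2 : lx99 i = lx99 a := by
    refine le_antisymm (ha i hi) ?_
    by_contra hlt
    have h3 := add_lt_add_of_lt_of_le (not_le.1 hlt) (hb j hj)
    exact absurd h1 h3.ne
  have h4 := lx_inj99 h2
  exact ⟨h4, by rw [h4] at h; exact add_left_cancel h⟩

private theorem unique_pair99' {S T : Finset ℂ} {a b : ℂ} (ha : ∀ i ∈ S, lx99 a ≤ lx99 i)
    (hb : ∀ j ∈ T, lx99 b ≤ lx99 j) {i j : ℂ} (hi : i ∈ S) (hj : j ∈ T) (h : i + j = a + b) : i = a ∧ j = b := by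
  have h1 := congrArg lx99 h
  rw [lx_add99, lx_add99] at h1
  have h2 : lx99 i = lx99 a := by
    refine le_antisymm ?_ (ha i hi)
    by_contra hlt
    have h3 := add_lt_add_of_lt_of_le (not_le.1 hlt) (hb j hj)
    exact absurd h1 h3.ne'
  have h4 := lx_inj99 h2
  exact ⟨h4, by rw [h4] at h; exact add_left_cancel h⟩

/-- **Units which satisfy linear differential equations with constant coefficients are eigenvectors.** -/
theorem unit_eigen [IsDomain R] (δ : Derivation ℂ R R) {x y : R} (hxy : x * y = 1) {P Q : ℂ[X]} (hP : P ≠ 0)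
    (hQ : Q ≠ 0) (hx : aeval (op δ) P x = 0) (hy : aeval (op δ) Q y = 0) :
    ∃ a : ℂ, δ x = a • x ∧ δ y = (-a) • y := by
  classical
  have hx0 : x ≠ 0 := left_ne_zero_of_mul (hxy ▸ one_ne_zero)
  have hy0 : y ≠ 0 := right_ne_zero_of_mul (hxy ▸ one_ne_zero)
  obtain ⟨U, hU, hUx⟩ := (Submodule.mem_iSup_iff_exists_finsupp _ x).1 (sum_gen99 (op δ) _ P hP le_rfl x hx)
  obtain ⟨V, hV, hVy⟩ := (Submodule.mem_iSup_iff_exists_finsupp _ y).1 (sum_gen99 (op δ) _ Q hQ le_rfl y hy)
  have hUx' : ∑ i ∈ U.support, U i = x := hUx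
  have hVy' : ∑ i ∈ V.support, V i = y := hVy
  have hUn : U.support.Nonempty := by
    rw [Finset.nonempty_iff_ne_empty]
    intro h
    rw [h, Finset.sum_empty] at hUx'
    exact hx0 hUx'.symm
  have hVn : V.support.Nonempty := by
    rw [Finset.nonempty_iff_ne_empty]
    intro h
    rw [h, Finset.sum_empty] at hVy'
    exact hy0 hVy'.symm
  obtain ⟨Z, hZ⟩ : ∃ Z : ℂ → R, Z = fun r => ∑ p ∈ (U.support ×ˢ V.support) with p.1 + p.2 = r, U p.1 * V p.2 :=
    ⟨_, rfl⟩
  have hZmem : ∀ r, Z r ∈ (op δ).maxGenEigenspace r := by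
    intro r
    rw [hZ]
    refine Submodule.sum_mem _ fun p hp => ?_
    rw [Finset.mem_filter] at hp
    rw [← hp.2]
    exact mul_mem99 δ (hU p.1) (hV p.2)
  have hone : (1 : R) ∈ (op δ).maxGenEigenspace 0 := by
    rw [Module.End.mem_maxGenEigenspace]
    refine ⟨1, ?_⟩
    rw [pow_one, zero_smul, sub_zero, op_apply, Derivation.map_one_eq_zero]
  obtain ⟨T, hT⟩ : ∃ T : Finset ℂ, T = insert 0 ((U.support ×ˢ V.support).image fun p => p.1 + p.2) := ⟨_, rfl⟩
  have hsum : ∑ r ∈ T, Z r = ∑ r ∈ T, if r = 0 then (1 : R) else 0 := by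
    rw [Finset.sum_ite_eq', if_pos (by rw [hT]; exact Finset.mem_insert_self _ _), hZ,
      Finset.sum_fiberwise_of_maps_to (g := fun p : ℂ × ℂ => p.1 + p.2) (fun p hp => by
        rw [hT]
        exact Finset.mem_insert_of_mem (Finset.mem_image_of_mem _ hp)), ← hxy, ← hUx', ← hVy', Finset.sum_mul_sum,
      Finset.sum_product]
  have hind := (iSupIndep_iff_finsetSum_eq_imp_eq _).1 (Module.End.independent_maxGenEigenspace (op δ)) T Z
    (fun r => if r = 0 then (1 : R) else 0) (fun r _ => ⟨hZmem r, by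
      split_ifs with h
      · rw [h]
        exact hone
      · exact Submodule.zero_mem _⟩) hsum
  have key : ∀ a ∈ U.support, ∀ b ∈ V.support, (∀ i ∈ U.support, ∀ j ∈ V.support, i + j = a + b → i = a ∧ j = b) →
      a + b = 0 := by
    intro a ha b hb huniq
    have hmem : a + b ∈ T := by
      rw [hT]
      exact Finset.mem_insert_of_mem (Finset.mem_image.2 ⟨(a, b), Finset.mem_product.2 ⟨ha, hb⟩, rfl⟩)
    have h1 := hind (a + b) hmem
    have h2 : Z (a + b) = U a * V b := by
      rw [hZ]
      simp only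
      have h3 : ((U.support ×ˢ V.support).filter fun p => p.1 + p.2 = a + b) = {(a, b)} := by
        ext ⟨i, j⟩
        rw [Finset.mem_filter, Finset.mem_product, Finset.mem_singleton, Prod.mk.injEq]
        constructor
        · rintro ⟨⟨hi, hj⟩, h⟩
          exact huniq i hi j hj h
        · rintro ⟨rfl, rfl⟩
          exact ⟨⟨ha, hb⟩, rfl⟩
      rw [h3, Finset.sum_singleton]
    by_contra hne
    rw [h2, if_neg hne] at h1
    exact mul_ne_zero (Finsupp.mem_support_iff.1 ha) (Finsupp.mem_support_iff.1 hb) h1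
  obtain ⟨a1, ha1, ha1'⟩ := Finset.exists_max_image U.support lx99 hUn
  obtain ⟨b1, hb1, hb1'⟩ := Finset.exists_max_image V.support lx99 hVn
  obtain ⟨a2, ha2, ha2'⟩ := Finset.exists_min_image U.support lx99 hUn
  obtain ⟨b2, hb2, hb2'⟩ := Finset.exists_min_image V.support lx99 hVn
  have k1 := key a1 ha1 b1 hb1 fun i hi j hj h => unique_pair99 ha1' hb1' hi hj h
  have k2 := key a2 ha2 b2 hb2 fun i hi j hj h => unique_pair99' ha2' hb2' hi hj h
  obtain ⟨e1, e2⟩ := unique_pair99 ha1' hb1' ha2 hb2 (k2.trans k1.symm)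
  have hUs : U.support = {a1} := by
    rw [Finset.eq_singleton_iff_unique_mem]
    refine ⟨ha1, fun i hi => lx_inj99 (le_antisymm (ha1' i hi) ?_)⟩
    rw [← e1]
    exact ha2' i hi
  have hVs : V.support = {b1} := by
    rw [Finset.eq_singleton_iff_unique_mem]
    refine ⟨hb1, fun i hi => lx_inj99 (le_antisymm (hb1' i hi) ?_)⟩
    rw [← e2]
    exact hb2' i hi
  rw [hUs, Finset.sum_singleton] at hUx'
  rw [hVs, Finset.sum_singleton] at hVy'
  have hxg := hU a1
  have hyg := hV b1
  rw [hUx', Module.End.mem_maxGenEigenspace, ← Algebra.algebraMap_eq_smul_one] at hxg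
  rw [hVy', Module.End.mem_maxGenEigenspace, ← Algebra.algebraMap_eq_smul_one] at hyg
  have hm := Nat.find_spec hxg
  have hn := Nat.find_spec hyg
  obtain ⟨m, hm1⟩ : ∃ m, Nat.find hxg = m + 1 := by
    refine Nat.exists_eq_succ_of_ne_zero ?_
    intro h
    rw [h, pow_zero] at hm
    exact hx0 hm
  obtain ⟨n, hn1⟩ : ∃ n, Nat.find hyg = n + 1 := by
    refine Nat.exists_eq_succ_of_ne_zero ?_
    intro h
    rw [h, pow_zero] at hn
    exact hy0 hn
  have hm2 := Nat.find_min hxg (m := m) (by omega)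
  have hn2 := Nat.find_min hyg (m := n) (by omega)
  rw [hm1] at hm
  rw [hn1] at hn
  have h1 := top99 δ a1 b1 x y m n hm hn
  have hmn : m + n = 0 := by
    by_contra hne
    obtain ⟨r, hr⟩ := Nat.exists_eq_succ_of_ne_zero hne
    rw [k1, map_zero, sub_zero, hxy, hr, Nat.succ_eq_add_one, pow_succ, Module.End.mul_apply, op_apply,
      Derivation.map_one_eq_zero, map_zero, ← Nat.cast_smul_eq_nsmul ℂ] at h1
    rcases smul_eq_zero.1 h1.symm with h2 | h2
    · have h3 : (r + 1).choose m ≠ 0 := (Nat.choose_pos (by omega)).ne'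
      exact h3 (by exact_mod_cast h2)
    · exact mul_ne_zero hm2 hn2 h2
  have hm0 : m = 0 := by omega
  have hn0 : n = 0 := by omega
  subst hm0 hn0
  rw [zero_add, pow_one, LinearMap.sub_apply, Module.algebraMap_end_apply, op_apply, sub_eq_zero] at hm hn
  refine ⟨a1, hm, ?_⟩
  rw [hn, show b1 = -a1 by linear_combination k1]

end Pool.Agent.Helper99.TR3
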