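import Pool.Agent.Helper33.TS.Defs
import Pool.Agent.Helper99.TR.Fps2
import Pool.Agent.Helper99.TR.Unit

/-!
# Block F: cylinders of finite type (project TR, MP_078326_gt)

`b = e` is a constant unit vector, `a` the unit tangent of the curve `α`, `F = ⟨a, e⟩`, `D = 1 - F²`, `δ = D^(-1/2) d/ds`,
`T = D^(-1/2) (a - F e)`. Then `2 L f = 2 δ T` and `2 L = 2 δ²` on functions of `s`, so by the finite type relation `T` is annihilated
by a polynomial in `δ`. For an orthonormal frame `e, g, h` the functions `x = ⟨T, g⟩ + i ⟨T, h⟩`, `y = ⟨T, g⟩ - i ⟨T, h⟩` satisfy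
`x y = 1`, so they are eigenvectors of `δ` (`unit_eigen`), so the curvature `det (e, T, δ T)` is constant: `m² = c D³`.
-/

set_option autoImplicit false

open Pool.Agent.Helper99.TR Pool.Agent.Helper33.TS

namespace Pool.Agent.Helper99.TR3

/-- power series in one variable -/
abbrev A1 : Type := PowerSeries ℂ

/-- the derivative -/
noncomputable def d1 : Derivation ℂ A1 A1 := PowerSeries.derivative ℂ

theorem d1_coeff (f : A1) (n : ℕ) : PowerSeries.coeff n (d1 f) = PowerSeries.coeff (n + 1) f * (n + 1) :=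
  PowerSeries.coeff_derivative f n

private theorem fac_ne99 (n : ℕ) : ((n.factorial : ℕ) : ℂ) ≠ 0 := by exact_mod_cast Nat.factorial_ne_zero n

private theorem succ_ne99 (n : ℕ) : ((n : ℂ) + 1) ≠ 0 := by exact_mod_cast Nat.succ_ne_zero n

private theorem sqrt99 (D : A1) (hD : PowerSeries.constantCoeff D ≠ 0) : ∃ E : A1, E * E = D := by
  obtain ⟨r, hr⟩ := IsAlgClosed.exists_pow_nat_eq (PowerSeries.constantCoeff D) (n := 2) two_pos
  have hr0 : r ≠ 0 := by
    rintro rfl
    apply hD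
    rw [← hr]
    norm_num
  have h1 := HenselianRing.is_henselian (R := A1) (I := Ideal.span {PowerSeries.X})
    (Polynomial.X ^ 2 - Polynomial.C D) (Polynomial.monic_X_pow_sub_C D two_ne_zero) (PowerSeries.C r) (by
      rw [Polynomial.eval_sub, Polynomial.eval_pow, Polynomial.eval_X, Polynomial.eval_C, Ideal.mem_span_singleton,
        PowerSeries.X_dvd_iff, map_sub, map_pow, PowerSeries.constantCoeff_C, hr, sub_self]) (by
      have h2 : IsUnit (Polynomial.eval (PowerSeries.C r) (Polynomial.derivative (Polynomial.X ^ 2 - Polynomial.C D) : Polynomial A1)) := by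
        rw [Polynomial.derivative_sub, Polynomial.derivative_C, sub_zero, Polynomial.derivative_X_pow, Polynomial.eval_mul,
          Polynomial.eval_pow, Polynomial.eval_X, Polynomial.eval_C, PowerSeries.isUnit_iff_constantCoeff, map_mul,
          map_pow, map_natCast, PowerSeries.constantCoeff_C]
        simp [hr0]
      exact h2.map _)
  obtain ⟨E, hE, -⟩ := h1
  refine ⟨E, ?_⟩
  rw [Polynomial.IsRoot.def, Polynomial.eval_sub, Polynomial.eval_pow, Polynomial.eval_X, Polynomial.eval_C, sub_eq_zero] at hE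
  rw [← hE, sq]

section formal

variable {R : Type*} [CommRing R] [Algebra ℂ R] (d : Derivation ℂ R R)

private theorem du99 {u D : R} (hu : u * u * D = 1) : 2 * d u = -(u * u * u) * d D := by
  have h1 := congrArg d hu
  simp only [Derivation.map_one_eq_zero, Derivation.leibniz, smul_eq_mul] at h1
  linear_combination u * h1 - 2 * (d u) * hu

private theorem dpow99 {u D : R} (hu : u * u * D = 1) (e : ℕ) : d (u ^ (2 * e)) = -(e * u ^ (2 * e + 2)) * d D := by
  have h0 := du99 d hu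
  induction e with
  | zero => simp
  | succ e ih =>
    rw [show 2 * (e + 1) = 2 * e + 2 by ring, pow_add, Derivation.leibniz, ih, sq, Derivation.leibniz]
    simp only [smul_eq_mul]
    push_cast
    linear_combination u ^ (2 * e) * u * h0

/-- the Laplacian of functions of `s` -/
private theorem lap99 {u U V : R} (hu : u * u * (U * V) = 1) (hUV : U + V = 2) (e : ℕ) (X : R) :
    2 * (u * d (u * d (X * u ^ (2 * e)))) = u ^ (2 * e + 6) * NN d d U V (e : ℤ) X := by
  obtain rfl : V = 2 - U := by linear_combination hUV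
  obtain ⟨D, hD⟩ : ∃ D, D = U * (2 - U) := ⟨_, rfl⟩
  have hD' : d D = (2 - 2 * U) * d U := by
    have h2 : d (2 : R) = 0 := by
      have := d.map_natCast 2
      simpa using this
    rw [hD, Derivation.leibniz, map_sub, h2]
    simp only [smul_eq_mul]
    ring
  rw [← hD] at hu
  have h0 := du99 d hu
  have h1 : d (X * u ^ (2 * e)) = u ^ (2 * e) * d X - X * (e * u ^ (2 * e + 2)) * d D := by
    rw [Derivation.leibniz, dpow99 d hu]
    simp only [smul_eq_mul]
    ring
  have h3 : d (u ^ (2 * e + 2)) = -((e + 1) * u ^ (2 * e + 4)) * d D := by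
    have := dpow99 d hu (e + 1)
    rw [show 2 * (e + 1) = 2 * e + 2 by ring] at this
    rw [this]
    push_cast
    ring
  have h2 : d (d (X * u ^ (2 * e))) = u ^ (2 * e) * d (d X) - e * u ^ (2 * e + 2) * d D * d X
      - e * (d X * u ^ (2 * e + 2) * d D - X * ((e + 1) * u ^ (2 * e + 4)) * d D * d D + X * u ^ (2 * e + 2) * d (d D)) := by
    have he : d ((e : ℕ) : R) = 0 := d.map_natCast e
    rw [h1, map_sub]
    simp only [Derivation.leibniz, smul_eq_mul, dpow99 d hu, h3, he]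
    ring
  have h4 : 2 * (u * d (u * d (X * u ^ (2 * e)))) =
      u * (2 * d u) * d (X * u ^ (2 * e)) + 2 * u * u * d (d (X * u ^ (2 * e))) := by
    rw [Derivation.leibniz]
    simp only [smul_eq_mul]
    ring
  rw [h4, h0, h2, h1]
  unfold NN
  rw [← hD]
  have e2 : u ^ (2 * e + 2) = u ^ (2 * e) * u ^ 2 := pow_add _ _ _
  have e4 : u ^ (2 * e + 4) = u ^ (2 * e) * u ^ 4 := pow_add _ _ _
  have e6 : u ^ (2 * e + 6) = u ^ (2 * e) * u ^ 6 := pow_add _ _ _
  rw [e2, e4, e6]
  generalize u ^ (2 * e) = p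
  push_cast
  linear_combination (-2 * p * u ^ 2 * d (d X) * (u ^ 2 * D + 1) + (4 * e + 1) * p * u ^ 4 * d D * d X +
    2 * e * p * u ^ 4 * X * d (d D)) * hu - p * u ^ 6 * (D * d X - e * d D * X) * hD'

omit [Algebra ℂ R] in
private theorem frame99 {e g t : Fin 3 → R} (hee : dot e e = 1) (hgg : dot g g = 1) (heg : dot e g = 0)
    (het : dot e t = 0) (htt : dot t t = 1) :
    dot g t ^ 2 + ((e 1 * g 2 - e 2 * g 1) * t 0 + (e 2 * g 0 - e 0 * g 2) * t 1 + (e 0 * g 1 - e 1 * g 0) * t 2) ^ 2 = 1 := by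
  simp only [dot] at hee hgg heg het htt ⊢
  linear_combination ((t 0 * t 0 + t 1 * t 1 + t 2 * t 2) * (g 0 * g 0 + g 1 * g 1 + g 2 * g 2)
      - (g 0 * t 0 + g 1 * t 1 + g 2 * t 2) ^ 2) * hee
    + ((t 0 * t 0 + t 1 * t 1 + t 2 * t 2) - (e 0 * t 0 + e 1 * t 1 + e 2 * t 2) ^ 2) * hgg
    + (-(t 0 * t 0 + t 1 * t 1 + t 2 * t 2) * (e 0 * g 0 + e 1 * g 1 + e 2 * g 2)
      + 2 * (e 0 * t 0 + e 1 * t 1 + e 2 * t 2) * (g 0 * t 0 + g 1 * t 1 + g 2 * t 2)) * heg
    - (e 0 * t 0 + e 1 * t 1 + e 2 * t 2) * het + htt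

omit [Algebra ℂ R] in
private theorem cross99 {e g t s : Fin 3 → R} (hgg : dot g g = 1) (heg : dot e g = 0) :
    dot g t * ((e 1 * g 2 - e 2 * g 1) * s 0 + (e 2 * g 0 - e 0 * g 2) * s 1 + (e 0 * g 1 - e 1 * g 0) * s 2) -
      ((e 1 * g 2 - e 2 * g 1) * t 0 + (e 2 * g 0 - e 0 * g 2) * t 1 + (e 0 * g 1 - e 1 * g 0) * t 2) * dot g s =
    e 0 * (t 1 * s 2 - t 2 * s 1) + e 1 * (t 2 * s 0 - t 0 * s 2) + e 2 * (t 0 * s 1 - t 1 * s 0) := by
  simp only [dot] at hgg heg ⊢
  linear_combination (e 0 * (t 1 * s 2 - t 2 * s 1) + e 1 * (t 2 * s 0 - t 0 * s 2) + e 2 * (t 0 * s 1 - t 1 * s 0)) * hgg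
    - (g 0 * (t 1 * s 2 - t 2 * s 1) + g 1 * (t 2 * s 0 - t 0 * s 2) + g 2 * (t 0 * s 1 - t 1 * s 0)) * heg

/-- the unit tangent satisfies a linear differential equation -/
private theorem ode99 {u : R} {a e : Fin 3 → R} (he : ∀ i, d (e i) = 0)
    (hu : u * u * (UU a e * VV a e) = 1) (i : Fin 3) :
    2 * (u * d (u * (a i - dot a e * e i))) = u ^ 4 * QQ d d a e 0 i := by
  obtain ⟨F, hF⟩ : ∃ F, F = dot a e := ⟨_, rfl⟩
  have hU : UU a e = 1 - F := by rw [hF]; rfl
  have hV : VV a e = 1 + F := by rw [hF]; rfl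
  have hD : d ((1 - F) * (1 + F)) = -2 * F * d F := by
    rw [Derivation.leibniz, map_sub, map_add, Derivation.map_one_eq_zero]
    simp only [smul_eq_mul]
    ring
  rw [hU, hV] at hu
  have h0 := du99 d hu
  rw [hD] at h0
  rw [QQ_zero, hU, hV, ← hF]
  simp only [Derivation.leibniz, map_sub, Derivation.map_one_eq_zero, smul_eq_mul, he i]
  linear_combination u * (a i - F * e i) * h0 + (-2 * u ^ 2 * d (a i) + 2 * u ^ 2 * d F * e i) * hu

/-- **A formal cylinder of finite type has constant curvature.** -/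
theorem formal_cyl [IsDomain R] (a : Fin 3 → R) (e g : Fin 3 → ℂ) (ha : dot a a = 1) (he : dot e e = 1)
    (hg : dot g g = 1) (heg : dot e g = 0) (u : R)
    (hu : u * u * (UU a (fun i => algebraMap ℂ R (e i)) * VV a (fun i => algebraMap ℂ R (e i))) = 1) (c : ℕ → ℂ) (k : ℕ)
    (hrel : ∀ i, QQ d d a (fun i => algebraMap ℂ R (e i)) (k + 1) i = ∑ j ∈ Finset.range (k + 1),
      algebraMap ℂ R (c j) * (UU a (fun i => algebraMap ℂ R (e i)) * VV a (fun i => algebraMap ℂ R (e i))) ^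
        (3 * (k + 1 - j)) * QQ d d a (fun i => algebraMap ℂ R (e i)) j i) :
    ∃ κ : ℂ, u * u * u * mm d a (fun i => algebraMap ℂ R (e i)) = algebraMap ℂ R κ := by
  obtain ⟨e', he'⟩ : ∃ e' : Fin 3 → R, e' = fun i => algebraMap ℂ R (e i) := ⟨_, rfl⟩
  rw [← he'] at hu hrel ⊢
  obtain ⟨g', hg'⟩ : ∃ g' : Fin 3 → R, g' = fun i => algebraMap ℂ R (g i) := ⟨_, rfl⟩
  have hee : dot e' e' = 1 := by
    rw [he']
    simp only [dot, ← map_mul, ← map_add]
    rw [show e 0 * e 0 + e 1 * e 1 + e 2 * e 2 = 1 from he, map_one]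
  have hgg : dot g' g' = 1 := by
    rw [hg']
    simp only [dot, ← map_mul, ← map_add]
    rw [show g 0 * g 0 + g 1 * g 1 + g 2 * g 2 = 1 from hg, map_one]
  have hegR : dot e' g' = 0 := by
    rw [he', hg']
    simp only [dot, ← map_mul, ← map_add]
    rw [show e 0 * g 0 + e 1 * g 1 + e 2 * g 2 = 0 from heg, map_zero]
  have hde : ∀ i, d (e' i) = 0 := by
    intro i
    rw [he']
    exact d.map_algebraMap _
  obtain ⟨T, hT⟩ : ∃ T : Fin 3 → R, T = fun i => u * (a i - dot a e' * e' i) := ⟨_, rfl⟩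
  obtain ⟨δ, hδ⟩ : ∃ δ : Derivation ℂ R R, δ = u • d := ⟨_, rfl⟩
  have hδa : ∀ x, δ x = u * d x := fun x => by
    rw [hδ]
    rfl
  obtain ⟨f, hf⟩ : ∃ f : Module.End ℂ R, f = Polynomial.aeval (op δ) (Polynomial.C 2 * Polynomial.X ^ 2 : Polynomial ℂ) :=
    ⟨_, rfl⟩
  have hfa : ∀ x, f x = 2 * (u * d (u * d x)) := by
    intro x
    rw [hf, map_mul, map_pow, Polynomial.aeval_X, Polynomial.aeval_C, Module.End.mul_apply, Module.algebraMap_end_apply, sq,
      Module.End.mul_apply, op_apply, op_apply, hδa, hδa, Algebra.smul_def, map_ofNat]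
  have hfn : ∀ i n, (f ^ n) (2 * (u * d (T i))) = u ^ (6 * n + 4) * QQ d d a e' n i := by
    intro i n
    induction n with
    | zero =>
      rw [pow_zero, Module.End.one_apply, hT]
      exact ode99 d hde hu i
    | succ n ih =>
      rw [pow_succ', Module.End.mul_apply, ih, hfa, mul_comm (u ^ (6 * n + 4)), show 6 * n + 4 = 2 * (3 * n + 2) by ring,
        lap99 d hu (by unfold UU VV; ring), QQ_succ]
      push_cast
      rw [show 2 * (3 * n + 2) + 6 = 6 * (n + 1) + 4 by ring]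
  -- the polynomial
  obtain ⟨Q, hQ⟩ : ∃ Q : Polynomial ℂ, Q = Polynomial.X ^ (k + 1) - ∑ j ∈ Finset.range (k + 1),
      Polynomial.C (c j) * Polynomial.X ^ j := ⟨_, rfl⟩
  have hQ0 : Q ≠ 0 := by
    have h1 : Q.Monic := by
      rw [hQ]
      apply Polynomial.monic_X_pow_sub
      refine (Polynomial.degree_sum_le (Finset.range (k + 1)) fun j => Polynomial.C (c j) * Polynomial.X ^ j).trans_lt ?_
      rw [Finset.sup_lt_iff (WithBot.bot_lt_coe _)]
      intro j hj
      refine (Polynomial.degree_C_mul_X_pow_le j (c j)).trans_lt ?_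
      exact_mod_cast Finset.mem_range.1 hj
    exact h1.ne_zero
  have hQf : ∀ i, Polynomial.aeval f Q (2 * (u * d (T i))) = 0 := by
    intro i
    rw [hQ, map_sub, map_pow, Polynomial.aeval_X, map_sum, LinearMap.sub_apply, LinearMap.sum_apply, hfn, hrel,
      Finset.mul_sum, ← Finset.sum_sub_distrib]
    refine Finset.sum_eq_zero fun j hj => ?_
    have hj' := Finset.mem_range.1 hj
    rw [Polynomial.aeval_mul, Polynomial.aeval_X_pow, Polynomial.aeval_C, Module.End.mul_apply, hfn,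
      Module.algebraMap_end_apply, Algebra.smul_def]
    have h1 : u ^ (6 * (k + 1) + 4) * (UU a e' * VV a e') ^ (3 * (k + 1 - j)) = u ^ (6 * j + 4) := by
      have h2 : 6 * (k + 1) + 4 = 6 * j + 4 + 2 * (3 * (k + 1 - j)) := by omega
      rw [h2, pow_add, mul_assoc, pow_mul u 2, ← mul_pow, sq, hu, one_pow, mul_one]
    linear_combination (algebraMap ℂ R (c j) * QQ d d a e' j i) * h1
  obtain ⟨P, hP⟩ : ∃ P : Polynomial ℂ, P = Q.comp (Polynomial.C 2 * Polynomial.X ^ 2) * (Polynomial.C 2 * Polynomial.X) :=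
    ⟨_, rfl⟩
  have hP0 : P ≠ 0 := by
    rw [hP]
    refine mul_ne_zero ?_ ?_
    · rw [Ne, Polynomial.comp_eq_zero_iff]
      rintro (h | ⟨-, h⟩)
      · exact hQ0 h
      · have h1 := congrArg (fun p => Polynomial.coeff p 2) h
        simp only [Polynomial.coeff_C_mul, Polynomial.coeff_X_pow, if_true, Polynomial.coeff_C] at h1
        norm_num at h1
    · exact mul_ne_zero (Polynomial.C_ne_zero.2 two_ne_zero) Polynomial.X_ne_zero
  have hPT : ∀ i, Polynomial.aeval (op δ) P (T i) = 0 := by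
    intro i
    rw [hP, map_mul, Polynomial.aeval_comp, ← hf, Module.End.mul_apply]
    have h1 : Polynomial.aeval (op δ) (Polynomial.C 2 * Polynomial.X : Polynomial ℂ) (T i) = 2 * (u * d (T i)) := by
      rw [map_mul, Polynomial.aeval_X, Polynomial.aeval_C, Module.End.mul_apply, Module.algebraMap_end_apply, op_apply, hδa,
        Algebra.smul_def, map_ofNat]
    rw [h1]
    exact hQf i
  -- the frame
  obtain ⟨h', hh'⟩ : ∃ h' : Fin 3 → ℂ, h' = ![e 1 * g 2 - e 2 * g 1, e 2 * g 0 - e 0 * g 2, e 0 * g 1 - e 1 * g 0] :=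
    ⟨_, rfl⟩
  obtain ⟨x, hx⟩ : ∃ x : R, x = ∑ i, (g i + Complex.I * h' i) • T i := ⟨_, rfl⟩
  obtain ⟨y, hy⟩ : ∃ y : R, y = ∑ i, (g i - Complex.I * h' i) • T i := ⟨_, rfl⟩
  have hxP : Polynomial.aeval (op δ) P x = 0 := by
    rw [hx, map_sum]
    refine Finset.sum_eq_zero fun i _ => ?_
    rw [map_smul, hPT, smul_zero]
  have hyP : Polynomial.aeval (op δ) P y = 0 := by
    rw [hy, map_sum]
    refine Finset.sum_eq_zero fun i _ => ?_
    rw [map_smul, hPT, smul_zero]
  obtain ⟨ι, hι⟩ : ∃ ι : R, ι = algebraMap ℂ R Complex.I := ⟨_, rfl⟩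
  have hι2 : ι * ι = -1 := by
    rw [hι, ← map_mul, Complex.I_mul_I, map_neg, map_one]
  have hdι : d ι = 0 := by
    rw [hι]
    exact d.map_algebraMap _
  obtain ⟨q, hq⟩ : ∃ q : R, q = (e' 1 * g' 2 - e' 2 * g' 1) * T 0 + (e' 2 * g' 0 - e' 0 * g' 2) * T 1 +
    (e' 0 * g' 1 - e' 1 * g' 0) * T 2 := ⟨_, rfl⟩
  have hx' : x = dot g' T + ι * q := by
    rw [hx, hq, Fin.sum_univ_three, hh', hι, he', hg']
    simp only [Algebra.smul_def, map_add, map_mul, dot, Matrix.cons_val_zero, Matrix.cons_val_one, Matrix.cons_val,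
      map_sub]
    ring
  have hy' : y = dot g' T - ι * q := by
    rw [hy, hq, Fin.sum_univ_three, hh', hι, he', hg']
    simp only [Algebra.smul_def, map_sub, map_mul, dot, Matrix.cons_val_zero, Matrix.cons_val_one, Matrix.cons_val]
    ring
  have heT : dot e' T = 0 := by
    rw [hT]
    simp only [dot] at hee ⊢
    linear_combination -u * (a 0 * e' 0 + a 1 * e' 1 + a 2 * e' 2) * hee
  have hTT : dot T T = 1 := by
    have h1 : UU a e' * VV a e' = 1 - dot a e' ^ 2 := by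
      unfold UU VV
      ring
    rw [h1] at hu
    rw [hT, ← hu]
    simp only [dot] at hee ha ⊢
    linear_combination u * u * ha + u * u * (a 0 * e' 0 + a 1 * e' 1 + a 2 * e' 2) ^ 2 * hee
  have hpq : dot g' T ^ 2 + q ^ 2 = 1 := by
    rw [hq]
    exact frame99 hee hgg hegR heT hTT
  have hxy : x * y = 1 := by
    rw [hx', hy']
    linear_combination hpq - q ^ 2 * hι2
  obtain ⟨μ, hμ1, hμ2⟩ := unit_eigen δ hxy hP0 hP0 hxP hyP
  rw [hδa, Algebra.smul_def] at hμ1 hμ2
  refine ⟨Complex.I * μ, ?_⟩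
  rw [map_mul, ← hι]
  -- derivatives
  obtain ⟨S, hS⟩ : ∃ S : Fin 3 → R, S = fun i => u * d (T i) := ⟨_, rfl⟩
  have hdg : ∀ i, d (g' i) = 0 := by
    intro i
    rw [hg']
    exact d.map_algebraMap _
  have hdp : u * d (dot g' T) = dot g' S := by
    rw [hS]
    simp only [dot, map_add, Derivation.leibniz, smul_eq_mul, hdg]
    ring
  obtain ⟨q', hq'⟩ : ∃ q' : R, q' = (e' 1 * g' 2 - e' 2 * g' 1) * S 0 + (e' 2 * g' 0 - e' 0 * g' 2) * S 1 +
    (e' 0 * g' 1 - e' 1 * g' 0) * S 2 := ⟨_, rfl⟩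
  have hdq : u * d q = q' := by
    rw [hq, hq', hS]
    simp only [map_add, map_sub, Derivation.leibniz, smul_eq_mul, hdg, hde]
    ring
  have hdx : u * d x = dot g' S + ι * q' := by
    rw [hx', map_add, Derivation.leibniz, hdι, ← hdp, ← hdq]
    simp only [smul_eq_mul]
    ring
  have hdy : u * d y = dot g' S - ι * q' := by
    rw [hy', map_sub, Derivation.leibniz, hdι, ← hdp, ← hdq]
    simp only [smul_eq_mul]
    ring
  rw [hdx, hx'] at hμ1
  rw [hdy, hy', map_neg] at hμ2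
  have hcr : dot g' T * q' - q * dot g' S = e' 0 * (T 1 * S 2 - T 2 * S 1) + e' 1 * (T 2 * S 0 - T 0 * S 2) +
      e' 2 * (T 0 * S 1 - T 1 * S 0) := by
    rw [hq, hq']
    exact cross99 hgg hegR
  have h2 : (2 : R) ≠ 0 := by
    have h3 : algebraMap ℂ R 2 ≠ 0 := by
      rw [Ne, FaithfulSMul.algebraMap_eq_zero_iff]
      exact two_ne_zero
    rwa [map_ofNat] at h3
  have h3 : dot g' T * q' - q * dot g' S = -(ι * algebraMap ℂ R μ) := by
    apply mul_left_cancel₀ h2
    linear_combination (-ι * dot g' T - q) * hμ1 + (ι * dot g' T - q) * hμ2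
      - 2 * ι * algebraMap ℂ R μ * hpq + (2 * dot g' T * q') * hι2 
  rw [hcr] at h3
  have h4 : e' 0 * (T 1 * S 2 - T 2 * S 1) + e' 1 * (T 2 * S 0 - T 0 * S 2) +
      e' 2 * (T 0 * S 1 - T 1 * S 0) = -(u * u * u * mm d a e') := by
    rw [hS, hT]
    simp only [mm, Derivation.leibniz, map_sub, smul_eq_mul, hde, dot, map_add]
    ring
  rw [h4] at h3
  linear_combination -h3

end formal

/-- the universal ring of the jets of one space curve -/
abbrev P1 : Type := MvPolynomial (Fin 3 × ℕ) ℝ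

/-- the total derivative -/
noncomputable def D1 : Derivation ℝ P1 P1 :=
  MvPolynomial.mkDerivation ℝ fun x => MvPolynomial.X (x.1, x.2 + 1)

theorem D1_X (i : Fin 3) (n : ℕ) : D1 (MvPolynomial.X (i, n)) = MvPolynomial.X (i, n + 1) := by
  rw [D1, MvPolynomial.mkDerivation_X]

theorem D1_C (c : ℝ) : D1 (MvPolynomial.C c) = 0 := D1.map_algebraMap c

/-- the formal germ of a jet -/
noncomputable def phi1 (w : Fin 3 → ℕ → ℂ) : P1 →ₐ[ℝ] A1 :=
  MvPolynomial.aeval fun x => ser fun m => w x.1 (x.2 + m)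

theorem phi1_X (w : Fin 3 → ℕ → ℂ) (i : Fin 3) (n : ℕ) :
    phi1 w (MvPolynomial.X (i, n)) = ser fun m => w i (n + m) := by
  rw [phi1, MvPolynomial.aeval_X]

theorem phi1_C (w : Fin 3 → ℕ → ℂ) (c : ℝ) : phi1 w (MvPolynomial.C c) = algebraMap ℂ A1 (c : ℂ) := by
  have h : phi1 w (MvPolynomial.C c) = algebraMap ℝ A1 c := (phi1 w).commutes c
  rw [h, IsScalarTower.algebraMap_apply ℝ ℂ A1]
  rfl

private theorem d1_ser99 (z : ℕ → ℂ) : d1 (ser z) = ser fun m => z (m + 1) := by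
  ext n
  rw [d1_coeff, ser, ser, PowerSeries.coeff_mk, PowerSeries.coeff_mk, Nat.factorial_succ]
  have h1 := succ_ne99 n
  have h2 := fac_ne99 n
  push_cast
  field_simp

theorem phi1_D1 (w : Fin 3 → ℕ → ℂ) (F : P1) : phi1 w (D1 F) = d1 (phi1 w F) := by
  induction F using MvPolynomial.induction_on with
  | C c =>
    rw [D1_C, map_zero, phi1_C]
    exact (d1.map_algebraMap _).symm
  | add p q hp hq => rw [map_add, map_add, map_add, map_add, hp, hq]
  | mul_X p n hp =>
    rcases n with ⟨i, n⟩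
    rw [Derivation.leibniz, map_add, smul_eq_mul, smul_eq_mul, map_mul, map_mul, map_mul, hp, Derivation.leibniz, smul_eq_mul,
      smul_eq_mul, D1_X, phi1_X, phi1_X, d1_ser99]
    congr 3
    ext m
    rw [show n + 1 + m = n + (m + 1) by ring]

theorem phi1_const (w : Fin 3 → ℕ → ℂ) (F : P1) : PowerSeries.constantCoeff (phi1 w F) =
    MvPolynomial.aeval (fun x : Fin 3 × ℕ => w x.1 x.2) F := by
  induction F using MvPolynomial.induction_on with
  | C c =>
    have h2 : MvPolynomial.aeval (fun x : Fin 3 × ℕ => w x.1 x.2) (MvPolynomial.C c : P1) = algebraMap ℝ ℂ c :=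
      (MvPolynomial.aeval (fun x : Fin 3 × ℕ => w x.1 x.2)).commutes c
    rw [phi1_C, h2]
    rfl
  | add p q hp hq => rw [map_add, map_add, map_add, hp, hq]
  | mul_X p n hp =>
    rcases n with ⟨i, n⟩
    rw [map_mul, map_mul, map_mul, hp, MvPolynomial.aeval_X, phi1_X]
    congr 1
    simp [ser]

theorem phi1_eq_zero (w : Fin 3 → ℕ → ℂ) (F : P1)
    (h : ∀ n, MvPolynomial.aeval (fun x : Fin 3 × ℕ => w x.1 x.2) (D1^[n] F) = 0) : phi1 w F = 0 := by
  have h1 : ∀ (m : ℕ) (G : P1), d1^[m] (phi1 w G) = phi1 w (D1^[m] G) := by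
    intro m
    induction m with
    | zero => intro G; rfl
    | succ m ih => intro G; rw [Function.iterate_succ_apply, ← phi1_D1, ih, ← Function.iterate_succ_apply (f := D1)]
  ext n
  have h2 := PowerSeries.constantCoeff_iterate_derivative (phi1 w F) n
  have h3 : PowerSeries.constantCoeff (d1^[n] (phi1 w F)) = 0 := by rw [h1, phi1_const, h]
  have h4 : PowerSeries.constantCoeff ((PowerSeries.derivative ℂ)^[n] (phi1 w F)) = 0 := h3
  rw [h4] at h2
  rw [map_zero]
  exact (mul_eq_zero.1 h2.symm).resolve_left (fac_ne99 n)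

/-- the real value -/
noncomputable def val1 (a : Fin 3 → ℕ → ℝ → ℝ) (s : ℝ) (F : P1) : ℝ := MvPolynomial.aeval (fun x : Fin 3 × ℕ => a x.1 x.2 s) F

theorem real_eval1 (w : Fin 3 → ℕ → ℝ) (F : P1) :
    MvPolynomial.aeval (fun x : Fin 3 × ℕ => (w x.1 x.2 : ℂ)) F =
      ((MvPolynomial.aeval (fun x : Fin 3 × ℕ => w x.1 x.2) F : ℝ) : ℂ) := by
  induction F using MvPolynomial.induction_on with
  | C c =>
    have h1 : MvPolynomial.aeval (fun x : Fin 3 × ℕ => w x.1 x.2) (MvPolynomial.C c : P1) = algebraMap ℝ ℝ c :=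
      (MvPolynomial.aeval (fun x : Fin 3 × ℕ => w x.1 x.2)).commutes c
    have h2 : MvPolynomial.aeval (fun x : Fin 3 × ℕ => (w x.1 x.2 : ℂ)) (MvPolynomial.C c : P1) = algebraMap ℝ ℂ c :=
      (MvPolynomial.aeval (fun x : Fin 3 × ℕ => (w x.1 x.2 : ℂ))).commutes c
    rw [h1, h2]
    rfl
  | add p q hp hq => rw [map_add, map_add, hp, hq, Complex.ofReal_add]
  | mul_X p n hp => rw [map_mul, map_mul, hp, MvPolynomial.aeval_X, MvPolynomial.aeval_X, Complex.ofReal_mul]

section real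

variable {I : Set ℝ} {a : Fin 3 → ℕ → ℝ → ℝ}

theorem hasDerivAt_D1 (ha : ∀ i n, ∀ s ∈ I, HasDerivAt (a i n) (a i (n + 1) s) s) (F : P1) {s : ℝ} (hs : s ∈ I) :
    HasDerivAt (fun s => val1 a s F) (val1 a s (D1 F)) s := by
  unfold val1
  induction F using MvPolynomial.induction_on with
  | C c =>
    rw [D1_C, map_zero]
    have h1 : (fun s => MvPolynomial.aeval (fun x : Fin 3 × ℕ => a x.1 x.2 s) (MvPolynomial.C c : P1)) = fun _ => c := by
      funext s
      exact (MvPolynomial.aeval (fun x : Fin 3 × ℕ => a x.1 x.2 s)).commutes c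
    rw [h1]
    exact hasDerivAt_const s c
  | add F G hF hG =>
    simp only [map_add]
    exact hF.add hG
  | mul_X F n hF =>
    rcases n with ⟨i, n⟩
    rw [Derivation.leibniz, map_add, smul_eq_mul, smul_eq_mul, map_mul, map_mul, D1_X]
    simp only [map_mul, MvPolynomial.aeval_X]
    have h1 := hF.mul (ha i n s hs)
    refine h1.congr_deriv ?_
    ring

/-- the transfer of a relation to the formal germ at a real point -/
theorem transfer1 (hI : IsOpen I) (ha : ∀ i n, ∀ s ∈ I, HasDerivAt (a i n) (a i (n + 1) s) s) (F : P1)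
    (hF : ∀ s ∈ I, val1 a s F = 0) {s0 : ℝ} (hs0 : s0 ∈ I) : phi1 (fun i n => (a i n s0 : ℂ)) F = 0 := by
  apply phi1_eq_zero
  intro n
  have h1 : ∀ n, ∀ s ∈ I, val1 a s (D1^[n] F) = 0 := by
    intro n
    induction n with
    | zero => exact hF
    | succ n ih =>
      intro s hs
      rw [Function.iterate_succ_apply']
      have h2 := hasDerivAt_D1 ha (D1^[n] F) hs
      have h3 : (fun s => val1 a s (D1^[n] F)) =ᶠ[nhds s] fun _ => (0 : ℝ) := by
        filter_upwards [hI.mem_nhds hs] with x hx using ih x hx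
      exact h2.unique ((hasDerivAt_const s (0 : ℝ)).congr_of_eventuallyEq h3)
  have h2 := real_eval1 (fun i n => a i n s0) (D1^[n] F)
  rw [h2]
  have h3 := h1 n s0 hs0
  unfold val1 at h3
  rw [h3, Complex.ofReal_zero]

/-- an orthogonal unit vector -/
private theorem orth99 (e : Fin 3 → ℝ) (he : dot e e = 1) : ∃ g : Fin 3 → ℝ, dot g g = 1 ∧ dot e g = 0 := by
  by_cases h : e 0 ^ 2 + e 1 ^ 2 = 0
  · have h0 : e 0 = 0 := by nlinarith [sq_nonneg (e 0), sq_nonneg (e 1)]
    refine ⟨![1, 0, 0], ?_, ?_⟩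
    · simp [dot]
    · simp [dot, h0]
  · have hpos : 0 < e 0 ^ 2 + e 1 ^ 2 := lt_of_le_of_ne (by positivity) (Ne.symm h)
    have hs := Real.sq_sqrt hpos.le
    have hs0 : Real.sqrt (e 0 ^ 2 + e 1 ^ 2) ≠ 0 := (Real.sqrt_pos.2 hpos).ne'
    refine ⟨![-e 1 / Real.sqrt (e 0 ^ 2 + e 1 ^ 2), e 0 / Real.sqrt (e 0 ^ 2 + e 1 ^ 2), 0], ?_, ?_⟩
    · simp only [dot, Matrix.cons_val_zero, Matrix.cons_val_one, Matrix.cons_val, mul_zero, add_zero]
      field_simp
      linear_combination -hs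
    · simp only [dot, Matrix.cons_val_zero, Matrix.cons_val_one, Matrix.cons_val, mul_zero, add_zero]
      field_simp
      ring

/-- the constant vector in the universal ring -/
noncomputable def cv (e : Fin 3 → ℝ) : Fin 3 → P1 := fun i => MvPolynomial.C (e i)

/-- the tangent in the universal ring -/
noncomputable def av : Fin 3 → P1 := fun i => MvPolynomial.X (i, 0)

/-- the relation of finite type of a cylinder -/
noncomputable def Rel1 (e : Fin 3 → ℝ) (k : ℕ) (c : ℕ → ℝ) (i : Fin 3) : P1 :=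
  QQ D1 D1 av (cv e) (k + 1) i -
    ∑ j ∈ Finset.range (k + 1), c j • ((UU av (cv e) * VV av (cv e)) ^ (3 * (k + 1 - j)) * QQ D1 D1 av (cv e) j i)

/-- the numerator of the derivative of `m² / D³` -/
noncomputable def Kd (e : Fin 3 → ℝ) : P1 :=
  2 * mm D1 av (cv e) * D1 (mm D1 av (cv e)) * (UU av (cv e) * VV av (cv e)) -
    3 * mm D1 av (cv e) ^ 2 * D1 (UU av (cv e) * VV av (cv e))

/-- **the square of the curvature is constant** -/
theorem curv_const (hI : IsOpen I) (ha : ∀ i n, ∀ s ∈ I, HasDerivAt (a i n) (a i (n + 1) s) s)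
    (haa : ∀ s ∈ I, dot (fun i => a i 0 s) (fun i => a i 0 s) = 1) {e : Fin 3 → ℝ} (he : dot e e = 1)
    (hD : ∀ s ∈ I, UU (fun i => a i 0 s) e * VV (fun i => a i 0 s) e ≠ 0) (k : ℕ) (c : ℕ → ℝ)
    (hrel : ∀ i, ∀ s ∈ I, val1 a s (Rel1 e k c i) = 0) {s0 : ℝ} (hs0 : s0 ∈ I) : val1 a s0 (Kd e) = 0 := by
  obtain ⟨g, hg, heg⟩ := orth99 e he
  obtain ⟨w, hw⟩ : ∃ w : Fin 3 → ℕ → ℂ, w = fun i n => (a i n s0 : ℂ) := ⟨_, rfl⟩
  obtain ⟨φ, hφ⟩ : ∃ φ : P1 →+* A1, φ = (phi1 w).toRingHom := ⟨_, rfl⟩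
  have hφa : ∀ F, φ F = phi1 w F := fun F => by rw [hφ]; rfl
  have hφD : ∀ F, φ (D1 F) = d1 (φ F) := fun F => by rw [hφa, hφa, phi1_D1]
  have hφe : (fun i => φ (cv e i)) = fun i => algebraMap ℂ A1 (e i : ℂ) := by
    funext i
    rw [hφa, cv, phi1_C]
  have hcast : ∀ v w : Fin 3 → ℝ, dot (fun i => (v i : ℂ)) (fun i => (w i : ℂ)) = (dot v w : ℝ) := by
    intro v w
    simp only [dot]
    push_cast
    rfl
  have hva : ∀ s, (fun i => val1 a s (av i)) = fun i => a i 0 s := by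
    intro s
    funext i
    rw [val1, av, MvPolynomial.aeval_X]
  have hve : ∀ s, (fun i => val1 a s (cv e i)) = e := by
    intro s
    funext i
    exact (MvPolynomial.aeval (fun x : Fin 3 × ℕ => a x.1 x.2 s)).commutes (e i)
  -- the unit length
  have h1 : dot (fun i => φ (av i)) (fun i => φ (av i)) = 1 := by
    rw [← map_dot, ← sub_eq_zero, ← map_one φ, ← map_sub, hφa, hw]
    apply transfer1 hI ha _ _ hs0
    intro s hs
    have h2 := map_dot (MvPolynomial.aeval (fun x : Fin 3 × ℕ => a x.1 x.2 s)).toRingHom av av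
    have h3 : (fun i => (MvPolynomial.aeval (fun x : Fin 3 × ℕ => a x.1 x.2 s)).toRingHom (av i)) = fun i => a i 0 s := hva s
    rw [h3, haa s hs] at h2
    rw [val1, map_sub, map_one, sub_eq_zero]
    exact h2
  -- the unit
  obtain ⟨D, hDd⟩ : ∃ D : P1, D = UU av (cv e) * VV av (cv e) := ⟨_, rfl⟩
  have hφDe : φ D = UU (fun i => φ (av i)) (fun i => algebraMap ℂ A1 (e i : ℂ)) *
      VV (fun i => φ (av i)) (fun i => algebraMap ℂ A1 (e i : ℂ)) := by
    rw [hDd, map_mul, map_UU, map_VV, hφe]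
  have hvD : ∀ s, val1 a s D = UU (fun i => a i 0 s) e * VV (fun i => a i 0 s) e := by
    intro s
    have h2 := map_UU (MvPolynomial.aeval (fun x : Fin 3 × ℕ => a x.1 x.2 s)).toRingHom av (cv e)
    have h3 := map_VV (MvPolynomial.aeval (fun x : Fin 3 × ℕ => a x.1 x.2 s)).toRingHom av (cv e)
    have h4 : (fun i => (MvPolynomial.aeval (fun x : Fin 3 × ℕ => a x.1 x.2 s)).toRingHom (av i)) = fun i => a i 0 s := hva s
    have h5 : (fun i => (MvPolynomial.aeval (fun x : Fin 3 × ℕ => a x.1 x.2 s)).toRingHom (cv e i)) = e := hve s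
    rw [h4, h5] at h2 h3
    rw [val1, hDd, map_mul]
    exact congrArg₂ (· * ·) h2 h3
  have hD0 : PowerSeries.constantCoeff (φ D) ≠ 0 := by
    rw [hφa, phi1_const, hw, real_eval1 (fun i n => a i n s0) D]
    have h2 := hvD s0
    unfold val1 at h2
    rw [h2]
    exact_mod_cast hD s0 hs0
  obtain ⟨E, hE⟩ := sqrt99 (φ D) hD0
  have hEu : PowerSeries.constantCoeff E ≠ 0 := by
    intro h
    rw [← hE, map_mul, h, mul_zero] at hD0
    exact hD0 rfl
  obtain ⟨u, hu⟩ : ∃ u : A1, u * E = 1 := by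
    have h2 : IsUnit E := PowerSeries.isUnit_iff_constantCoeff.2 hEu.isUnit
    obtain ⟨u, hu⟩ := h2.exists_left_inv
    exact ⟨u, hu⟩
  have hu2 : u * u * φ D = 1 := by
    rw [← hE]
    linear_combination (u * E + 1) * hu
  have h2 := formal_cyl d1 (fun i => φ (av i)) (fun i => (e i : ℂ)) (fun i => (g i : ℂ)) h1
    (by rw [hcast, he, Complex.ofReal_one]) (by rw [hcast, hg, Complex.ofReal_one])
    (by rw [hcast, heg, Complex.ofReal_zero]) u (by rw [← hφDe]; exact hu2) (fun j => (c j : ℂ)) k (by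
      intro i
      rw [← hφDe]
      have h3 : φ (Rel1 e k c i) = 0 := by
        rw [hφa, hw]
        exact transfer1 hI ha _ (hrel i) hs0
      rw [Rel1, map_sub, map_sum, sub_eq_zero, map_QQ φ D1 D1 d1 d1 hφD hφD, hφe] at h3
      rw [h3]
      refine Finset.sum_congr rfl fun j _ => ?_
      rw [MvPolynomial.smul_eq_C_mul, map_mul, map_mul, map_pow, ← hDd, map_QQ φ D1 D1 d1 d1 hφD hφD, hφe, hφa (MvPolynomial.C _),
        phi1_C, mul_assoc])
  obtain ⟨κ, hκ⟩ := h2
  have hM : φ (mm D1 av (cv e)) = mm d1 (fun i => φ (av i)) (fun i => algebraMap ℂ A1 (e i : ℂ)) := by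
    rw [map_mm φ D1 d1 hφD, hφe]
  rw [← hM] at hκ
  obtain ⟨M, hMd⟩ : ∃ M, M = mm D1 av (cv e) := ⟨_, rfl⟩
  rw [← hMd] at hκ
  have h3 : φ M * φ M = algebraMap ℂ A1 (κ * κ) * (φ D * φ D * φ D) := by
    rw [map_mul, ← hκ]
    have h4 : u * u * u * (u * u * u) * (φ D * φ D * φ D) = 1 := by
      linear_combination ((u * u * φ D) ^ 2 + u * u * φ D + 1) * hu2
    linear_combination (-(φ M * φ M)) * h4
  have h4 := congrArg d1 h3
  simp only [Derivation.leibniz, smul_eq_mul, d1.map_algebraMap, mul_zero, add_zero] at h4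
  have h5 : φ (Kd e) = 0 := by
    rw [Kd, ← hMd, ← hDd]
    simp only [map_sub, map_mul, map_pow, hφD, map_ofNat]
    linear_combination φ D * h4 - 3 * d1 (φ D) * h3
  rw [hφa] at h5
  have h6 := congrArg PowerSeries.constantCoeff h5
  rw [phi1_const, map_zero, hw, real_eval1 (fun i n => a i n s0)] at h6
  exact_mod_cast h6

end real

end Pool.Agent.Helper99.TR3
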