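import Mathlib

/-!
# Generalised points (project on translation surfaces, MP_078326_gt; plan of helper33)

Let `a : T → ℕ → ℂ` be a family of points of `ℂ^ℕ` whose first coordinates take infinitely many values. For all but countably many
complex numbers `z0` there is a point `z` of `ℂ^ℕ` with first coordinate `z0` at which every polynomial vanishes that vanishes
at all the `a t`.
-/

set_option autoImplicit false

open MvPolynomial

namespace Pool.Agent.Helper99.TR

/-- the ideal of the polynomials vanishing at all `a t` -/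
private noncomputable def idl99 {T : Type*} (a : T → ℕ → ℂ) : Ideal (MvPolynomial ℕ ℂ) :=
  ⨅ t, RingHom.ker (MvPolynomial.eval (a t))

private theorem mem_idl99 {T : Type*} (a : T → ℕ → ℂ) (F : MvPolynomial ℕ ℂ) :
    F ∈ idl99 a ↔ ∀ t, MvPolynomial.eval (a t) F = 0 := by
  unfold idl99
  rw [Ideal.mem_iInf]
  simp only [RingHom.mem_ker]

/-- a linearly independent family in a quotient of `ℂ[X_0, X_1, ...]` is countable -/
private theorem countable_of_li99 (I : Ideal (MvPolynomial ℕ ℂ)) {ι : Type} {v : ι → MvPolynomial ℕ ℂ ⧸ I}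
    (h : LinearIndependent ℂ v) : Countable ι := by
  have h1 := h.cardinal_lift_le_rank
  have h2 : Module.rank ℂ (MvPolynomial ℕ ℂ ⧸ I) ≤ Module.rank ℂ (MvPolynomial ℕ ℂ) :=
    LinearMap.rank_le_of_surjective (Ideal.Quotient.mkₐ ℂ I).toLinearMap (Ideal.Quotient.mkₐ_surjective ℂ I)
  have h3 : Module.rank ℂ (MvPolynomial ℕ ℂ) ≤ Cardinal.aleph0 := by
    rw [MvPolynomial.rank_eq_lift]
    simp
  rw [Cardinal.lift_id, Cardinal.lift_id] at h1
  exact Cardinal.mk_le_aleph0_iff.1 (h1.trans (h2.trans h3))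

/-- the residue fields of `ℂ[X_0, X_1, ...]` at the maximal ideals are `ℂ` -/
private theorem residue99 (m : Ideal (MvPolynomial ℕ ℂ)) [hm : m.IsMaximal] (x : MvPolynomial ℕ ℂ ⧸ m) :
    ∃ c : ℂ, algebraMap ℂ (MvPolynomial ℕ ℂ ⧸ m) c = x := by
  let _ : Field (MvPolynomial ℕ ℂ ⧸ m) := Ideal.Quotient.field m
  by_cases hx : Transcendental ℂ x
  · exfalso
    have h1 := hx.linearIndependent_sub_inv
    have h2 := countable_of_li99 m h1
    exact not_countable_complex (Set.countable_univ_iff.2 h2)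
  · have h1 : IsAlgebraic ℂ x := by
      rw [Transcendental, not_not] at hx
      exact hx
    have h2 : IsIntegral ℂ x := h1.isIntegral
    have h3 := IsAlgClosed.degree_eq_one_of_irreducible ℂ (minpoly.irreducible h2)
    exact minpoly.mem_range_of_degree_eq_one ℂ x h3

private theorem point99 {T : Type*} (a : T → ℕ → ℂ) (z0 : ℂ)
    (h : idl99 a ⊔ Ideal.span {X 0 - C z0} ≠ ⊤) :
    ∃ z : ℕ → ℂ, z 0 = z0 ∧
      ∀ F : MvPolynomial ℕ ℂ, (∀ t, MvPolynomial.eval (a t) F = 0) → MvPolynomial.eval z F = 0 := by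
  obtain ⟨m, hm, hle⟩ := Ideal.exists_le_maximal _ h
  have := hm
  choose z hz using fun n : ℕ => residue99 m (Ideal.Quotient.mk m (X n))
  have key : ∀ F : MvPolynomial ℕ ℂ, algebraMap ℂ (MvPolynomial ℕ ℂ ⧸ m) (MvPolynomial.eval z F) =
      Ideal.Quotient.mk m F := by
    intro F
    induction F using MvPolynomial.induction_on with
    | C c =>
      rw [MvPolynomial.eval_C]
      rfl
    | add p q hp hq => rw [map_add, map_add, map_add, hp, hq]
    | mul_X p n hp => rw [map_mul, map_mul, map_mul, hp, MvPolynomial.eval_X, hz]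
  have hinj : Function.Injective (algebraMap ℂ (MvPolynomial ℕ ℂ ⧸ m)) := by
    have : Nontrivial (MvPolynomial ℕ ℂ ⧸ m) := Ideal.Quotient.nontrivial_iff.2 hm.ne_top
    exact (algebraMap ℂ (MvPolynomial ℕ ℂ ⧸ m)).injective
  refine ⟨z, ?_, ?_⟩
  · have h1 : (X 0 - C z0 : MvPolynomial ℕ ℂ) ∈ m :=
      hle (Ideal.mem_sup_right (Ideal.subset_span rfl))
    have h2 := key (X 0 - C z0)
    rw [Ideal.Quotient.eq_zero_iff_mem.2 h1, map_sub, MvPolynomial.eval_X, MvPolynomial.eval_C] at h2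
    rw [← sub_eq_zero]
    exact hinj (by rw [h2, map_zero])
  · intro F hF
    have h1 : F ∈ m := hle (Ideal.mem_sup_left ((mem_idl99 a F).2 hF))
    exact hinj (by rw [key, Ideal.Quotient.eq_zero_iff_mem.2 h1, map_zero])

private theorem li99 {T : Type*} (a : T → ℕ → ℂ) (h : (Set.range fun t => a t 0).Infinite)
    (S : Set ℂ) (g : S → MvPolynomial ℕ ℂ)
    (hg : ∀ (z : S) (t : T), MvPolynomial.eval (a t) (g z) * (a t 0 - z) = 1) :
    LinearIndependent ℂ fun z : S => Ideal.Quotient.mk (idl99 a) (g z) := by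
  classical
  rw [linearIndependent_iff']
  intro s c hc
  have h1 : ∀ t, ∑ z ∈ s, c z * MvPolynomial.eval (a t) (g z) = 0 := by
    intro t
    have h2 : (∑ z ∈ s, C (c z) * g z) ∈ idl99 a := by
      rw [← Ideal.Quotient.eq_zero_iff_mem, ← hc, map_sum]
      refine Finset.sum_congr rfl fun z _ => ?_
      rw [← MvPolynomial.smul_eq_C_mul]
      rfl
    have h3 := (mem_idl99 a _).1 h2 t
    rw [map_sum] at h3
    simpa only [map_mul, MvPolynomial.eval_C] using h3
  set P : Polynomial ℂ := ∑ z ∈ s, Polynomial.C (c z) *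
    ∏ y ∈ s.erase z, (Polynomial.X - Polynomial.C (y : ℂ)) with hP
  have hroot : ∀ t, P.eval (a t 0) = 0 := by
    intro t
    have h2 : P.eval (a t 0) = (∏ y ∈ s, (a t 0 - (y : ℂ))) *
        ∑ z ∈ s, c z * MvPolynomial.eval (a t) (g z) := by
      rw [hP, Polynomial.eval_finsetSum, Finset.mul_sum]
      refine Finset.sum_congr rfl fun z hz => ?_
      rw [Polynomial.eval_mul, Polynomial.eval_C, Polynomial.eval_prod, ← Finset.mul_prod_erase s _ hz]
      simp only [Polynomial.eval_sub, Polynomial.eval_X, Polynomial.eval_C]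
      linear_combination (-(c z) * ∏ y ∈ s.erase z, (a t 0 - (y : ℂ))) * hg z t
    rw [h2, h1 t, mul_zero]
  have hP0 : P = 0 := by
    apply Polynomial.eq_zero_of_infinite_isRoot
    refine h.mono ?_
    rintro _ ⟨t, rfl⟩
    exact hroot t
  intro z hz
  have h4 : P.eval (z : ℂ) = c z * ∏ y ∈ s.erase z, ((z : ℂ) - (y : ℂ)) := by
    rw [hP, Polynomial.eval_finsetSum, Finset.sum_eq_single_of_mem z hz]
    · rw [Polynomial.eval_mul, Polynomial.eval_C, Polynomial.eval_prod]
      simp only [Polynomial.eval_sub, Polynomial.eval_X, Polynomial.eval_C]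
    · intro y _ hyz
      rw [Polynomial.eval_mul, Polynomial.eval_prod]
      rw [Finset.prod_eq_zero (Finset.mem_erase.2 ⟨hyz.symm, hz⟩) (by simp), mul_zero]
  rw [hP0, Polynomial.eval_zero] at h4
  have h5 : ∏ y ∈ s.erase z, ((z : ℂ) - (y : ℂ)) ≠ 0 := by
    rw [Finset.prod_ne_zero_iff]
    intro y hy h6
    rw [Finset.mem_erase] at hy
    exact hy.1 (Subtype.ext (sub_eq_zero.1 h6).symm)
  exact (mul_eq_zero.1 h4.symm).resolve_right h5

/-- for all but countably many `z0` there is a generalised point with first coordinate `z0` -/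
theorem gen_points {T : Type*} (a : T → ℕ → ℂ) (h : (Set.range fun t => a t 0).Infinite) :
    ∃ S : Set ℂ, S.Countable ∧ ∀ z0 ∉ S, ∃ z : ℕ → ℂ, z 0 = z0 ∧
      ∀ F : MvPolynomial ℕ ℂ, (∀ t, MvPolynomial.eval (a t) F = 0) → MvPolynomial.eval z F = 0 := by
  refine ⟨{z0 | idl99 a ⊔ Ideal.span {X 0 - C z0} = ⊤}, ?_, fun z0 hz0 => point99 a z0 hz0⟩
  set S : Set ℂ := {z0 | idl99 a ⊔ Ideal.span {X 0 - C z0} = ⊤} with hS
  have h1 : ∀ z : S, ∃ g : MvPolynomial ℕ ℂ, ∀ t, MvPolynomial.eval (a t) g * (a t 0 - z) = 1 := by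
    rintro ⟨z, hz⟩
    have h2 : (1 : MvPolynomial ℕ ℂ) ∈ idl99 a ⊔ Ideal.span {X 0 - C z} := by
      rw [hz]
      exact Submodule.mem_top
    obtain ⟨f, hf, y, hy, hfy⟩ := Submodule.mem_sup.1 h2
    obtain ⟨g, hg⟩ := Ideal.mem_span_singleton'.1 hy
    refine ⟨g, fun t => ?_⟩
    have h3 := congrArg (MvPolynomial.eval (a t)) hfy
    rw [map_add, (mem_idl99 a f).1 hf t, zero_add, ← hg, map_mul, map_sub, MvPolynomial.eval_X,
      MvPolynomial.eval_C, map_one] at h3
    exact h3
  choose g hg using h1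
  have h4 := countable_of_li99 _ (li99 a h S g hg)
  exact Set.countable_coe_iff.1 h4

end Pool.Agent.Helper99.TR
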